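import Pool.Agent.Helper59.MixInt.Defs

/-!
# A Schur test for sums over shapes
-/

open MeasureTheory UnitAddTorus
open scoped ENNReal

noncomputable section

namespace Pool.Agent.Helper59.MixInt

/-- weight used in the Schur test -/
def rho (k u : ℝ) (a : ℕ) : ℝ := (u / 4 ^ a) ^ k / (1 + u / 4 ^ a)

/-- constant of the Schur test -/
def CS (k : ℝ) : ℝ := 4 / (1 - (4 : ℝ) ^ (-(1 - k)))

theorem four_rpow_lt_one {k : ℝ} (hk1 : k < 1) : (4 : ℝ) ^ (-(1 - k)) < 1 := by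
  apply Real.rpow_lt_one_of_one_lt_of_neg (by norm_num)
  linarith

theorem CS_pos {k : ℝ} (hk1 : k < 1) : 0 < CS k := by
  unfold CS
  have := four_rpow_lt_one hk1
  apply div_pos (by norm_num)
  linarith

theorem tele_ineq {k T : ℝ} (hk : 1 / 2 < k) (hk1 : k < 1) (hT : 0 < T) :
    T ^ k / (1 + T) ≤ CS k * (T ^ (1 - k) / (1 + T ^ (1 - k)) -
      (T / 4) ^ (1 - k) / (1 + (T / 4) ^ (1 - k))) := by
  set q := 1 - k with hq
  have hq0 : 0 < q := by linarith
  set y := T ^ q with hy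
  have hy0 : 0 < y := Real.rpow_pos_of_pos hT q
  set r : ℝ := (4 : ℝ) ^ (-q) with hr
  have hr1 : r < 1 := four_rpow_lt_one hk1
  have hr0 : 0 < r := Real.rpow_pos_of_pos (by norm_num) _
  have hz : (T / 4) ^ q = y * r := by
    rw [Real.div_rpow hT.le (by norm_num), hr, Real.rpow_neg (by norm_num), div_eq_mul_inv]
  rw [hz]
  have hCS : CS k = 4 / (1 - r) := rfl
  rw [hCS]
  have h1r : 0 < 1 - r := by linarith
  have e1 : y / (1 + y) - y * r / (1 + y * r) = y * (1 - r) / ((1 + y) * (1 + y * r)) := by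
    have : 0 < y * r := by positivity
    field_simp
    ring
  rw [e1]
  have e2 : 4 / (1 - r) * (y * (1 - r) / ((1 + y) * (1 + y * r))) =
      4 * y / ((1 + y) * (1 + y * r)) := by
    field_simp
  rw [e2]
  have hyr : y * r ≤ y := by nlinarith
  have e3 : 4 * y / ((1 + y) * (1 + y)) ≤ 4 * y / ((1 + y) * (1 + y * r)) := by
    have : 0 < y * r := by positivity
    apply div_le_div_of_nonneg_left (by positivity) (by positivity)
    apply mul_le_mul_of_nonneg_left _ (by positivity)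
    linarith
  refine le_trans ?_ e3
  rcases le_total T 1 with hT1 | hT1
  · have hy1 : y ≤ 1 := Real.rpow_le_one hT.le hT1 hq0.le
    have h1 : T ^ k ≤ y := by
      rw [hy]
      exact Real.rpow_le_rpow_of_exponent_ge hT hT1 (by linarith)
    calc T ^ k / (1 + T) ≤ T ^ k / 1 := by
          apply div_le_div_of_nonneg_left (by positivity) (by norm_num) (by linarith)
      _ ≤ y := by rw [div_one]; exact h1
      _ ≤ 4 * y / ((1 + y) * (1 + y)) := by
          rw [le_div_iff₀ (by positivity)]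
          nlinarith [mul_pos hy0 hy0]
  · have hy1 : 1 ≤ y := Real.one_le_rpow hT1 hq0.le
    have h1 : T ^ k / T = 1 / y := by
      have : T ^ k / T = T ^ (k - 1) := by
        rw [Real.rpow_sub hT, Real.rpow_one]
      rw [this, hy, one_div, ← Real.rpow_neg hT.le]
      congr 1
      rw [hq]
      ring
    calc T ^ k / (1 + T) ≤ T ^ k / T := by
          apply div_le_div_of_nonneg_left (by positivity) hT (by linarith)
      _ = 1 / y := h1
      _ ≤ 4 * y / ((1 + y) * (1 + y)) := by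
          rw [div_le_div_iff₀ hy0 (by positivity)]
          nlinarith

theorem rho_pos {k u : ℝ} (hu : 0 < u) (a : ℕ) : 0 < rho k u a := by
  unfold rho
  positivity

theorem sum_rho_le {k : ℝ} (hk : 1 / 2 < k) (hk1 : k < 1) {u : ℝ} (hu : 0 < u) (N : ℕ) :
    ∑ a ∈ Finset.range N, rho k u a ≤ CS k := by
  have h1 : ∀ a ∈ Finset.range N, rho k u a ≤ CS k *
      ((fun a : ℕ => (u / 4 ^ a) ^ (1 - k) / (1 + (u / 4 ^ a) ^ (1 - k))) a -
        (fun a : ℕ => (u / 4 ^ a) ^ (1 - k) / (1 + (u / 4 ^ a) ^ (1 - k))) (a + 1)) := by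
    intro a _
    have := tele_ineq hk hk1 (T := u / 4 ^ a) (by positivity)
    have e : u / 4 ^ a / 4 = u / 4 ^ (a + 1) := by
      rw [pow_succ]
      field_simp
    rw [e] at this
    exact this
  refine (Finset.sum_le_sum h1).trans ?_
  rw [← Finset.mul_sum, Finset.sum_range_sub']
  have hpos : ∀ a : ℕ, 0 ≤ (u / 4 ^ a) ^ (1 - k) / (1 + (u / 4 ^ a) ^ (1 - k)) := by
    intro a
    positivity
  have hle : ∀ a : ℕ, (u / 4 ^ a) ^ (1 - k) / (1 + (u / 4 ^ a) ^ (1 - k)) ≤ 1 := by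
    intro a
    rw [div_le_one (by positivity)]
    linarith
  calc CS k * ((u / 4 ^ 0) ^ (1 - k) / (1 + (u / 4 ^ 0) ^ (1 - k)) -
        (u / 4 ^ N) ^ (1 - k) / (1 + (u / 4 ^ N) ^ (1 - k))) ≤ CS k * 1 := by
        apply mul_le_mul_of_nonneg_left _ (CS_pos hk1).le
        linarith [hpos N, hle 0]
    _ = CS k := mul_one _

/-- The Schur test in two dimensions. -/
theorem schur_two {k : ℝ} (hk : 1 / 2 < k) (hk1 : k < 1) (S : Finset (ℕ × ℕ))
    (z : ℕ × ℕ → ℂ) (x y : ℝ) :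
    (1 + x ^ 2) ^ k * (1 + y ^ 2) ^ k * ‖∑ s ∈ S, z s‖ ^ 2 ≤
      4 * CS k ^ 2 * ∑ s ∈ S, ((4 : ℝ) ^ (s.1 + s.2)) ^ k *
        ((1 + x ^ 2 / 4 ^ s.1) * (1 + y ^ 2 / 4 ^ s.2) * ‖z s‖ ^ 2) := by
  set u := 1 + x ^ 2 with hu
  set v := 1 + y ^ 2 with hv
  have hu0 : 0 < u := by positivity
  have hv0 : 0 < v := by positivity
  have hw : ∀ s : ℕ × ℕ, 0 < rho k u s.1 * rho k v s.2 := fun s =>
    mul_pos (rho_pos hu0 _) (rho_pos hv0 _)
  have h1 : ‖∑ s ∈ S, z s‖ ^ 2 ≤ (∑ s ∈ S, rho k u s.1 * rho k v s.2) *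
      ∑ s ∈ S, ‖z s‖ ^ 2 / (rho k u s.1 * rho k v s.2) := by
    calc ‖∑ s ∈ S, z s‖ ^ 2 ≤ (∑ s ∈ S, ‖z s‖) ^ 2 := by
          gcongr
          exact norm_sum_le _ _
      _ ≤ _ := by
          apply Finset.sum_sq_le_sum_mul_sum_of_sq_le_mul
          · intro s _
            exact (hw s).le
          · intro s _
            have := hw s
            positivity
          · intro s _
            have := hw s
            rw [mul_div_assoc', mul_comm, mul_div_assoc, div_self this.ne', mul_one]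
  have h2 : ∑ s ∈ S, rho k u s.1 * rho k v s.2 ≤ CS k ^ 2 := by
    obtain ⟨N, hN⟩ : ∃ N : ℕ, S ⊆ Finset.range N ×ˢ Finset.range N := by
      refine ⟨(S.sup fun s => s.1 + s.2) + 1, fun s hs => ?_⟩
      have : s.1 + s.2 ≤ S.sup fun s => s.1 + s.2 := Finset.le_sup (f := fun s => s.1 + s.2) hs
      simp only [Finset.mem_product, Finset.mem_range]
      omega
    calc ∑ s ∈ S, rho k u s.1 * rho k v s.2
        ≤ ∑ s ∈ Finset.range N ×ˢ Finset.range N, rho k u s.1 * rho k v s.2 :=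
          Finset.sum_le_sum_of_subset_of_nonneg hN fun s _ _ => (hw s).le
      _ = (∑ a ∈ Finset.range N, rho k u a) * ∑ b ∈ Finset.range N, rho k v b := by
          rw [Finset.sum_product, Finset.sum_mul_sum]
      _ ≤ CS k * CS k := by
          apply mul_le_mul (sum_rho_le hk hk1 hu0 N) (sum_rho_le hk hk1 hv0 N) _ (CS_pos hk1).le
          exact Finset.sum_nonneg fun a _ => (rho_pos hv0 a).le
      _ = CS k ^ 2 := by ring
  have h3 : ∀ s ∈ S, u ^ k * v ^ k * (‖z s‖ ^ 2 / (rho k u s.1 * rho k v s.2)) ≤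
      4 * (((4 : ℝ) ^ (s.1 + s.2)) ^ k *
        ((1 + x ^ 2 / 4 ^ s.1) * (1 + y ^ 2 / 4 ^ s.2) * ‖z s‖ ^ 2)) := by
    intro s _
    have key : ∀ (w t : ℝ) (a : ℕ), w = 1 + t ^ 2 → w ^ k / rho k w a ≤
        2 * (((4 : ℝ) ^ a) ^ k * (1 + t ^ 2 / 4 ^ a)) := by
      intro w t a hw
      have hw0 : 0 < w := by rw [hw]; positivity
      have h4 : (0 : ℝ) < 4 ^ a := by positivity
      have e1 : w ^ k / rho k w a = ((4 : ℝ) ^ a) ^ k * (1 + w / 4 ^ a) := by
        unfold rho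
        rw [Real.div_rpow hw0.le h4.le]
        have : 0 < w ^ k := Real.rpow_pos_of_pos hw0 k
        have : 0 < ((4 : ℝ) ^ a) ^ k := Real.rpow_pos_of_pos h4 k
        field_simp
      rw [e1]
      have h5 : (0 : ℝ) < ((4 : ℝ) ^ a) ^ k := Real.rpow_pos_of_pos h4 k
      have h6 : 1 + w / 4 ^ a ≤ 2 * (1 + t ^ 2 / 4 ^ a) := by
        have : (1 : ℝ) / 4 ^ a ≤ 1 := by
          rw [div_le_one h4]
          exact one_le_pow₀ (by norm_num)
        have h7 : w / 4 ^ a = 1 / 4 ^ a + t ^ 2 / 4 ^ a := by rw [hw, add_div]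
        have h8 : 0 ≤ t ^ 2 / 4 ^ a := by positivity
        rw [h7]
        linarith
      calc ((4 : ℝ) ^ a) ^ k * (1 + w / 4 ^ a) ≤ ((4 : ℝ) ^ a) ^ k * (2 * (1 + t ^ 2 / 4 ^ a)) :=
            mul_le_mul_of_nonneg_left h6 h5.le
        _ = _ := by ring
    have k1 := key u x s.1 hu
    have k2 := key v y s.2 hv
    have hr1 := rho_pos (k := k) hu0 s.1
    have hr2 := rho_pos (k := k) hv0 s.2
    have e2 : u ^ k * v ^ k * (‖z s‖ ^ 2 / (rho k u s.1 * rho k v s.2)) =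
        (u ^ k / rho k u s.1) * (v ^ k / rho k v s.2) * ‖z s‖ ^ 2 := by
      field_simp
    rw [e2]
    have e3 : ((4 : ℝ) ^ (s.1 + s.2)) ^ k = ((4 : ℝ) ^ s.1) ^ k * ((4 : ℝ) ^ s.2) ^ k := by
      rw [pow_add, Real.mul_rpow (by positivity) (by positivity)]
    rw [e3]
    calc (u ^ k / rho k u s.1) * (v ^ k / rho k v s.2) * ‖z s‖ ^ 2
        ≤ (2 * (((4 : ℝ) ^ s.1) ^ k * (1 + x ^ 2 / 4 ^ s.1))) *
          (2 * (((4 : ℝ) ^ s.2) ^ k * (1 + y ^ 2 / 4 ^ s.2))) * ‖z s‖ ^ 2 := by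
          apply mul_le_mul_of_nonneg_right _ (by positivity)
          apply mul_le_mul k1 k2 (by positivity) (by positivity)
      _ = _ := by ring
  calc u ^ k * v ^ k * ‖∑ s ∈ S, z s‖ ^ 2
      ≤ u ^ k * v ^ k * ((∑ s ∈ S, rho k u s.1 * rho k v s.2) *
        ∑ s ∈ S, ‖z s‖ ^ 2 / (rho k u s.1 * rho k v s.2)) := by
        apply mul_le_mul_of_nonneg_left h1 (by positivity)
    _ = (∑ s ∈ S, rho k u s.1 * rho k v s.2) *
        ∑ s ∈ S, u ^ k * v ^ k * (‖z s‖ ^ 2 / (rho k u s.1 * rho k v s.2)) := by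
        rw [← Finset.mul_sum]
        ring
    _ ≤ CS k ^ 2 * ∑ s ∈ S, 4 * (((4 : ℝ) ^ (s.1 + s.2)) ^ k *
        ((1 + x ^ 2 / 4 ^ s.1) * (1 + y ^ 2 / 4 ^ s.2) * ‖z s‖ ^ 2)) := by
        apply mul_le_mul h2 (Finset.sum_le_sum h3) _ (by positivity)
        apply Finset.sum_nonneg
        intro s _
        have := hw s
        positivity
    _ = _ := by
        rw [← Finset.mul_sum]
        ring

end Pool.Agent.Helper59.MixInt
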