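import Pool.Agent.Helper59.MixInt.Hat
import Pool.Agent.Helper59.MixInt.Schur

/-!
# Sums of tensor product bumps on the two-dimensional torus
-/

open MeasureTheory UnitAddTorus Filter Topology Set
open scoped ENNReal

noncomputable section

namespace Pool.Agent.Helper59.MixInt

/-- The Fourier coefficient with respect to the measure `unif`. -/
theorem mFourierCoeff_eq {d : ℕ} (f : Tor d → ℂ) (h : Fin d → ℤ) :
    mFourierCoeff f h = ∫ x, mFourier (-h) x * f x ∂(unif d) := rfl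

/-- bounded measurable real functions are integrable -/
theorem integrable_of_bdd {α : Type*} [MeasurableSpace α] {μ : Measure α} [IsFiniteMeasure μ]
    {G : α → ℝ} (hm : Measurable G) {B : ℝ} (hb : ∀ x, |G x| ≤ B) : Integrable G μ :=
  Integrable.of_bound hm.aestronglyMeasurable B (Eventually.of_forall hb)

theorem integrable_of_bdd_complex {α : Type*} [MeasurableSpace α] {μ : Measure α}
    [IsFiniteMeasure μ] {G : α → ℂ} (hm : Measurable G) {B : ℝ} (hb : ∀ x, ‖G x‖ ≤ B) :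
    Integrable G μ :=
  Integrable.of_bound hm.aestronglyMeasurable B (Eventually.of_forall hb)

theorem norm_mFourier_apply {d : ℕ} (h : Fin d → ℤ) (x : Tor d) : ‖mFourier h x‖ = 1 := by
  simp only [mFourier, ContinuousMap.coe_mk, norm_prod]
  refine Finset.prod_eq_one fun i _ => ?_
  rw [fourier_apply, Circle.norm_coe]

/-- Parseval for bounded measurable functions. -/
theorem tsum_sq_coeff {d : ℕ} {G : Tor d → ℝ} (hm : Measurable G) {B : ℝ}
    (hb : ∀ x, |G x| ≤ B) :
    ∑' h, ENNReal.ofReal (‖mFourierCoeff (fun x => (G x : ℂ)) h‖ ^ 2) =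
      ENNReal.ofReal (∫ x, G x ^ 2 ∂(unif d)) := by
  have hL : MemLp (fun x => (G x : ℂ)) 2 (unif d) := by
    refine MemLp.of_bound (Complex.measurable_ofReal.comp hm).aestronglyMeasurable B ?_
    refine Eventually.of_forall fun x => ?_
    rw [Complex.norm_real]
    exact hb x
  have h1 := hasSum_sq_mFourierCoeff (d := Fin d) (hL.toLp _)
  have hae : (hL.toLp _ : Tor d → ℂ) =ᵐ[unif d] fun x => (G x : ℂ) := hL.coeFn_toLp
  have h2 : ∀ h, mFourierCoeff (hL.toLp _ : Tor d → ℂ) h =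
      mFourierCoeff (fun x => (G x : ℂ)) h := by
    intro h
    rw [mFourierCoeff_eq, mFourierCoeff_eq]
    refine integral_congr_ae ?_
    filter_upwards [hae] with x hx
    rw [hx]
  have h3 : ∫ t, ‖(hL.toLp _ : Tor d → ℂ) t‖ ^ 2 ∂(unif d) = ∫ x, G x ^ 2 ∂(unif d) := by
    refine integral_congr_ae ?_
    filter_upwards [hae] with x hx
    rw [hx, Complex.norm_real, Real.norm_eq_abs, sq_abs]
  have h4 : HasSum (fun h => ‖mFourierCoeff (fun x => (G x : ℂ)) h‖ ^ 2)
      (∫ x, G x ^ 2 ∂(unif d)) := by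
    rw [← h3]
    refine HasSum.congr_fun h1 fun h => ?_
    rw [h2]
  rw [← h4.tsum_eq, ENNReal.ofReal_tsum_of_nonneg (fun h => by positivity) h4.summable]

/-- a translated tensor product -/
def prod2 (p q : UnitAddCircle → ℝ) (c x : Tor 2) : ℝ := p (x 0 - c 0) * q (x 1 - c 1)

theorem fourierCoeff_translate (p : UnitAddCircle → ℂ) (c : UnitAddCircle) (n : ℤ) :
    fourierCoeff (fun t => p (t - c)) n = fourier (-n) c * fourierCoeff p n := by
  unfold fourierCoeff
  have h1 : ∀ t : UnitAddCircle, fourier (-n) t • p (t - c) =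
      (fun s : UnitAddCircle => fourier (-n) c * (fourier (-n) s * p s)) (t - c) := by
    intro t
    simp only [smul_eq_mul]
    rw [← mul_assoc]
    congr 1
    rw [fourier_apply, fourier_apply, fourier_apply, ← Circle.coe_mul, ← AddCircle.toCircle_add,
      ← smul_add]
    congr 3
    abel
  rw [integral_congr_ae (Eventually.of_forall h1), integral_sub_right_eq_self
    (fun s : UnitAddCircle => fourier (-n) c * (fourier (-n) s * p s)) c, integral_const_mul]
  rfl

theorem mFourierCoeff_prod2 (p q : UnitAddCircle → ℝ) (c : Tor 2) (h : Fin 2 → ℤ) :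
    mFourierCoeff (fun x => (prod2 p q c x : ℂ)) h =
      mFourier (-h) c * (fourierCoeff (fun t => (p t : ℂ)) (h 0) *
        fourierCoeff (fun t => (q t : ℂ)) (h 1)) := by
  rw [mFourierCoeff_eq]
  have h1 : ∀ x : Tor 2, mFourier (-h) x * (prod2 p q c x : ℂ) =
      ∏ i : Fin 2, (![fun t => fourier (-(h 0)) t * (p (t - c 0) : ℂ),
        fun t => fourier (-(h 1)) t * (q (t - c 1) : ℂ)] i) (x i) := by
    intro x
    simp only [Fin.prod_univ_two, Matrix.cons_val_zero, Matrix.cons_val_one, prod2, mFourier,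
      ContinuousMap.coe_mk, Pi.neg_apply, Complex.ofReal_mul]
    ring
  rw [integral_congr_ae (Eventually.of_forall h1), integral_fintype_prod_eq_prod]
  simp only [Fin.prod_univ_two, Matrix.cons_val_zero, Matrix.cons_val_one]
  have h2 := fourierCoeff_translate (fun t => (p t : ℂ)) (c 0) (h 0)
  have h3 := fourierCoeff_translate (fun t => (q t : ℂ)) (c 1) (h 1)
  have e2 : ∫ t, fourier (-(h 0)) t * (p (t - c 0) : ℂ) ∂AddCircle.haarAddCircle =
      fourierCoeff (fun t => (p (t - c 0) : ℂ)) (h 0) := rfl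
  have e3 : ∫ t, fourier (-(h 1)) t * (q (t - c 1) : ℂ) ∂AddCircle.haarAddCircle =
      fourierCoeff (fun t => (q (t - c 1) : ℂ)) (h 1) := rfl
  rw [e2, e3, h2, h3]
  simp only [mFourier, ContinuousMap.coe_mk, Fin.prod_univ_two, Pi.neg_apply]
  ring

/-- one-dimensional profile: measurable, bounded by `B`, supported in a ball of radius
`2^{-(a+1)}` -/
structure Prof (a : ℕ) (B : ℝ) (p : UnitAddCircle → ℝ) : Prop where
  meas : Measurable p
  bdd : ∀ t, |p t| ≤ B
  supp : ∀ t, 1 / 2 ^ (a + 1) < ‖t‖ → p t = 0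

theorem prof_hat (a : ℕ) : Prof a 1 (hat a) where
  meas := (continuous_hat a).measurable
  bdd := fun t => by
    rw [abs_of_nonneg (hat_nonneg a t)]
    exact hat_le_one a t
  supp := fun _ ht => hat_eq_zero ht.le

theorem prof_dhat (a : ℕ) : Prof a (2 ^ (a + 1)) (dhat a) where
  meas := measurable_dhat a
  bdd := abs_dhat_le a
  supp := fun _ ht => dhat_eq_zero ht

/-- the box around `c` -/
def box (a b : ℕ) (c : Tor 2) : Set (Tor 2) :=
  {x | ‖x 0 - c 0‖ ≤ 1 / 2 ^ (a + 1) ∧ ‖x 1 - c 1‖ ≤ 1 / 2 ^ (b + 1)}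

/-- `x` and `y` are close with respect to the shape `(a, b)` -/
def near (a b : ℕ) (x y : Tor 2) : Prop :=
  ‖x 0 - y 0‖ ≤ 1 / 2 ^ a ∧ ‖x 1 - y 1‖ ≤ 1 / 2 ^ b

theorem haar_closedBall_le (c : UnitAddCircle) (r : ℝ) :
    (AddCircle.haarAddCircle : Measure UnitAddCircle) {t | ‖t - c‖ ≤ r} ≤
      ENNReal.ofReal (2 * r) := by
  have h1 : {t : UnitAddCircle | ‖t - c‖ ≤ r} = Metric.closedBall c r := by
    ext t
    simp [dist_eq_norm]
  have h2 : (AddCircle.haarAddCircle : Measure UnitAddCircle) = volume := by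
    rw [AddCircle.volume_eq_smul_haarAddCircle]
    simp
  rw [h1, h2, AddCircle.volume_closedBall]
  exact ENNReal.ofReal_le_ofReal (min_le_right _ _)

theorem unif_rect_le (c : Tor 2) {r s : ℝ} (hr : 0 ≤ r) :
    unif 2 {x | ‖x 0 - c 0‖ ≤ r ∧ ‖x 1 - c 1‖ ≤ s} ≤ ENNReal.ofReal (4 * (r * s)) := by
  have h1 : {x : Tor 2 | ‖x 0 - c 0‖ ≤ r ∧ ‖x 1 - c 1‖ ≤ s} =
      Set.pi Set.univ (fun i : Fin 2 => (![{t | ‖t - c 0‖ ≤ r}, {t | ‖t - c 1‖ ≤ s}] :
        Fin 2 → Set UnitAddCircle) i) := by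
    ext x
    simp [Set.mem_pi, Fin.forall_fin_two]
  rw [h1, Measure.pi_pi, Fin.prod_univ_two]
  simp only [Matrix.cons_val_zero, Matrix.cons_val_one]
  calc _ ≤ ENNReal.ofReal (2 * r) * ENNReal.ofReal (2 * s) :=
        mul_le_mul' (haar_closedBall_le _ r) (haar_closedBall_le _ s)
    _ = ENNReal.ofReal (4 * (r * s)) := by
        rw [← ENNReal.ofReal_mul (by positivity)]
        congr 1
        ring

theorem measurableSet_rect (c : Tor 2) (r s : ℝ) :
    MeasurableSet {x : Tor 2 | ‖x 0 - c 0‖ ≤ r ∧ ‖x 1 - c 1‖ ≤ s} := by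
  have h1 : IsClosed {x : Tor 2 | ‖x 0 - c 0‖ ≤ r} :=
    isClosed_le (by fun_prop) continuous_const
  have h2 : IsClosed {x : Tor 2 | ‖x 1 - c 1‖ ≤ s} :=
    isClosed_le (by fun_prop) continuous_const
  exact (h1.inter h2).measurableSet

section sums

variable {ι : Type*} (I : Finset ι) (c : ι → ℝ) (P : ι → Tor 2) {a b : ℕ}

/-- sum of translated tensor products -/
def bsum (p q : UnitAddCircle → ℝ) (x : Tor 2) : ℝ := ∑ i ∈ I, c i * prod2 p q (P i) x

theorem measurable_prod2 {p q : UnitAddCircle → ℝ} (hp : Measurable p) (hq : Measurable q)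
    (c : Tor 2) : Measurable (prod2 p q c) := by
  unfold prod2
  exact (hp.comp ((measurable_pi_apply 0).sub_const _)).mul
    (hq.comp ((measurable_pi_apply 1).sub_const _))

theorem measurable_bsum {p q : UnitAddCircle → ℝ} (hp : Measurable p) (hq : Measurable q) :
    Measurable (bsum I c P p q) := by
  unfold bsum
  exact Finset.measurable_fun_sum _ fun i _ => (measurable_prod2 hp hq (P i)).const_mul _

theorem abs_prod2_le {p q : UnitAddCircle → ℝ} {B B' : ℝ} (hp : ∀ t, |p t| ≤ B)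
    (hq : ∀ t, |q t| ≤ B') (c x : Tor 2) : |prod2 p q c x| ≤ B * B' := by
  unfold prod2
  rw [abs_mul]
  exact mul_le_mul (hp _) (hq _) (abs_nonneg _) ((abs_nonneg _).trans (hp 0))

theorem abs_bsum_le {p q : UnitAddCircle → ℝ} {B B' : ℝ} (hp : ∀ t, |p t| ≤ B)
    (hq : ∀ t, |q t| ≤ B') (x : Tor 2) :
    |bsum I c P p q x| ≤ ∑ i ∈ I, |c i| * (B * B') := by
  unfold bsum
  refine (Finset.abs_sum_le_sum_abs _ _).trans (Finset.sum_le_sum fun i _ => ?_)
  rw [abs_mul]
  exact mul_le_mul_of_nonneg_left (abs_prod2_le hp hq _ _) (abs_nonneg _)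

theorem mFourierCoeff_bsum {p q : UnitAddCircle → ℝ} {B B' : ℝ} (hp : Measurable p)
    (hq : Measurable q) (hpb : ∀ t, |p t| ≤ B) (hqb : ∀ t, |q t| ≤ B') (h : Fin 2 → ℤ) :
    mFourierCoeff (fun x => (bsum I c P p q x : ℂ)) h =
      (∑ i ∈ I, (c i : ℂ) * mFourier (-h) (P i)) *
        (fourierCoeff (fun t => (p t : ℂ)) (h 0) * fourierCoeff (fun t => (q t : ℂ)) (h 1)) := by
  rw [mFourierCoeff_eq]
  have h1 : ∀ x : Tor 2, mFourier (-h) x * (bsum I c P p q x : ℂ) =
      ∑ i ∈ I, (c i : ℂ) * (mFourier (-h) x * (prod2 p q (P i) x : ℂ)) := by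
    intro x
    unfold bsum
    rw [Complex.ofReal_sum, Finset.mul_sum]
    refine Finset.sum_congr rfl fun i _ => ?_
    rw [Complex.ofReal_mul]
    ring
  rw [integral_congr_ae (Eventually.of_forall h1), integral_finsetSum]
  · rw [Finset.sum_mul]
    refine Finset.sum_congr rfl fun i _ => ?_
    rw [integral_const_mul, ← mFourierCoeff_eq, mFourierCoeff_prod2]
    ring
  · intro i _
    refine Integrable.const_mul ?_ _
    refine integrable_of_bdd_complex (B := B * B') ?_ ?_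
    · exact (map_continuous (mFourier (-h))).measurable.mul
        (Complex.measurable_ofReal.comp (measurable_prod2 hp hq (P i)))
    · intro x
      rw [norm_mul, norm_mFourier_apply, one_mul, Complex.norm_real]
      exact abs_prod2_le hpb hqb _ _

/-- The square of a sum of separated bumps. -/
theorem bsum_sq_le {p q : UnitAddCircle → ℝ} {B B' : ℝ} (hp : Prof a B p) (hq : Prof b B' q)
    (hsep : ∀ i ∈ I, ∀ j ∈ I, i ≠ j → ¬ near a b (P i) (P j)) (x : Tor 2) :
    bsum I c P p q x ^ 2 ≤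
      ∑ i ∈ I, c i ^ 2 * (B * B') ^ 2 * (box a b (P i)).indicator (fun _ => (1 : ℝ)) x := by
  have hterm : ∀ i, x ∉ box a b (P i) → prod2 p q (P i) x = 0 := by
    intro i hi
    unfold prod2
    by_contra hne
    apply hi
    constructor
    · by_contra hcon
      exact hne (by rw [hp.supp _ (not_le.1 hcon), zero_mul])
    · by_contra hcon
      exact hne (by rw [hq.supp _ (not_le.1 hcon), mul_zero])
  have hnn : ∀ i ∈ I, 0 ≤ c i ^ 2 * (B * B') ^ 2 *
      (box a b (P i)).indicator (fun _ => (1 : ℝ)) x := by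
    intro i _
    apply mul_nonneg (by positivity)
    exact Set.indicator_nonneg (fun _ _ => zero_le_one) _
  by_cases hex : ∃ i ∈ I, x ∈ box a b (P i)
  · obtain ⟨i, hi, hxi⟩ := hex
    have huniq : ∀ j ∈ I, j ≠ i → c j * prod2 p q (P j) x = 0 := by
      intro j hj hji
      rw [hterm j, mul_zero]
      intro hxj
      apply hsep j hj i hi hji
      constructor
      · calc ‖P j 0 - P i 0‖ = ‖(x 0 - P i 0) - (x 0 - P j 0)‖ := by
              congr 1
              abel
          _ ≤ ‖x 0 - P i 0‖ + ‖x 0 - P j 0‖ := norm_sub_le _ _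
          _ ≤ 1 / 2 ^ (a + 1) + 1 / 2 ^ (a + 1) := add_le_add hxi.1 hxj.1
          _ = 1 / 2 ^ a := by
              rw [pow_succ]
              field_simp
              norm_num
      · calc ‖P j 1 - P i 1‖ = ‖(x 1 - P i 1) - (x 1 - P j 1)‖ := by
              congr 1
              abel
          _ ≤ ‖x 1 - P i 1‖ + ‖x 1 - P j 1‖ := norm_sub_le _ _
          _ ≤ 1 / 2 ^ (b + 1) + 1 / 2 ^ (b + 1) := add_le_add hxi.2 hxj.2
          _ = 1 / 2 ^ b := by
              rw [pow_succ]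
              field_simp
              norm_num
    have h1 : bsum I c P p q x = c i * prod2 p q (P i) x := by
      unfold bsum
      exact Finset.sum_eq_single i huniq (fun h => absurd hi h)
    rw [h1]
    refine le_trans ?_ (Finset.single_le_sum hnn hi)
    rw [Set.indicator_of_mem hxi, mul_one, mul_pow]
    apply mul_le_mul_of_nonneg_left _ (by positivity)
    rw [← sq_abs (prod2 p q (P i) x)]
    exact pow_le_pow_left₀ (abs_nonneg _) (abs_prod2_le hp.bdd hq.bdd _ _) 2
  · push Not at hex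
    have h1 : bsum I c P p q x = 0 := by
      unfold bsum
      refine Finset.sum_eq_zero fun i hi => ?_
      rw [hterm i (hex i hi), mul_zero]
    rw [h1]
    have := Finset.sum_nonneg hnn
    simpa using this

theorem integral_bsum_sq_le {p q : UnitAddCircle → ℝ} {B B' : ℝ} (hp : Prof a B p)
    (hq : Prof b B' q)
    (hsep : ∀ i ∈ I, ∀ j ∈ I, i ≠ j → ¬ near a b (P i) (P j)) :
    ∫ x, bsum I c P p q x ^ 2 ∂(unif 2) ≤
      (B * B') ^ 2 * (1 / 2 ^ (a + b)) * ∑ i ∈ I, c i ^ 2 := by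
  have hmeas : ∀ i, MeasurableSet (box a b (P i)) := fun i => measurableSet_rect _ _ _
  have hint : ∀ i ∈ I, Integrable (fun x => c i ^ 2 * (B * B') ^ 2 *
      (box a b (P i)).indicator (fun _ => (1 : ℝ)) x) (unif 2) := by
    intro i _
    refine Integrable.const_mul ?_ _
    exact (integrable_const (1 : ℝ)).indicator (hmeas i)
  calc ∫ x, bsum I c P p q x ^ 2 ∂(unif 2)
      ≤ ∫ x, ∑ i ∈ I, c i ^ 2 * (B * B') ^ 2 *
          (box a b (P i)).indicator (fun _ => (1 : ℝ)) x ∂(unif 2) := by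
        apply integral_mono_of_nonneg
        · exact Eventually.of_forall fun x => sq_nonneg _
        · exact integrable_finsetSum _ hint
        · exact Eventually.of_forall fun x => bsum_sq_le I c P hp hq hsep x
    _ = ∑ i ∈ I, c i ^ 2 * (B * B') ^ 2 * (unif 2).real (box a b (P i)) := by
        rw [integral_finsetSum _ hint]
        refine Finset.sum_congr rfl fun i _ => ?_
        rw [integral_const_mul, integral_indicator (hmeas i)]
        simp [Measure.real]
    _ ≤ ∑ i ∈ I, c i ^ 2 * (B * B') ^ 2 * (1 / 2 ^ (a + b)) := by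
        refine Finset.sum_le_sum fun i _ => ?_
        apply mul_le_mul_of_nonneg_left _ (by positivity)
        have h1 : unif 2 (box a b (P i)) ≤
            ENNReal.ofReal (4 * (1 / 2 ^ (a + 1) * (1 / 2 ^ (b + 1)))) :=
          unif_rect_le _ (by positivity)
        have h2 : (unif 2).real (box a b (P i)) ≤ 4 * (1 / 2 ^ (a + 1) * (1 / 2 ^ (b + 1))) :=
          ENNReal.toReal_le_of_le_ofReal (by positivity) h1
        refine h2.trans (le_of_eq ?_)
        rw [pow_succ, pow_succ, pow_add]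
        field_simp
        norm_num
    _ = _ := by
        rw [Finset.mul_sum]
        refine Finset.sum_congr rfl fun i _ => ?_
        ring

/-- Weighted sum of the squared Fourier coefficients of a separated sum of hats. -/
theorem shape_bound
    (hsep : ∀ i ∈ I, ∀ j ∈ I, i ≠ j → ¬ near a b (P i) (P j)) :
    ∑' h : Fin 2 → ℤ, ENNReal.ofReal ((1 + (h 0 : ℝ) ^ 2 / 4 ^ a) * (1 + (h 1 : ℝ) ^ 2 / 4 ^ b) *
      ‖mFourierCoeff (fun x => (bsum I c P (hat a) (hat b) x : ℂ)) h‖ ^ 2) ≤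
      ENNReal.ofReal (25 * (1 / 2 ^ (a + b)) * ∑ i ∈ I, c i ^ 2) := by
  set S := ∑ i ∈ I, c i ^ 2 with hS
  have hS0 : 0 ≤ S := Finset.sum_nonneg fun i _ => sq_nonneg _
  have pa := prof_hat a
  have pb := prof_hat b
  have da := prof_dhat a
  have db := prof_dhat b
  -- the four functions
  set F00 := bsum I c P (hat a) (hat b) with hF00
  set F10 := bsum I c P (dhat a) (hat b) with hF10
  set F01 := bsum I c P (hat a) (dhat b) with hF01
  set F11 := bsum I c P (dhat a) (dhat b) with hF11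
  have i00 := integral_bsum_sq_le I c P pa pb hsep
  have i10 := integral_bsum_sq_le I c P da pb hsep
  have i01 := integral_bsum_sq_le I c P pa db hsep
  have i11 := integral_bsum_sq_le I c P da db hsep
  have t00 := tsum_sq_coeff (measurable_bsum I c P pa.meas pb.meas)
    (abs_bsum_le I c P pa.bdd pb.bdd)
  have t10 := tsum_sq_coeff (measurable_bsum I c P da.meas pb.meas)
    (abs_bsum_le I c P da.bdd pb.bdd)
  have t01 := tsum_sq_coeff (measurable_bsum I c P pa.meas db.meas)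
    (abs_bsum_le I c P pa.bdd db.bdd)
  have t11 := tsum_sq_coeff (measurable_bsum I c P da.meas db.meas)
    (abs_bsum_le I c P da.bdd db.bdd)
  rw [← hF00] at i00 t00
  rw [← hF10] at i10 t10
  rw [← hF01] at i01 t01
  rw [← hF11] at i11 t11
  have hpt : ∀ h : Fin 2 → ℤ,
      (1 + (h 0 : ℝ) ^ 2 / 4 ^ a) * (1 + (h 1 : ℝ) ^ 2 / 4 ^ b) *
        ‖mFourierCoeff (fun x => (F00 x : ℂ)) h‖ ^ 2 ≤
      ‖mFourierCoeff (fun x => (F00 x : ℂ)) h‖ ^ 2 +
      1 / 4 ^ a * ‖mFourierCoeff (fun x => (F10 x : ℂ)) h‖ ^ 2 +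
      1 / 4 ^ b * ‖mFourierCoeff (fun x => (F01 x : ℂ)) h‖ ^ 2 +
      1 / 4 ^ (a + b) * ‖mFourierCoeff (fun x => (F11 x : ℂ)) h‖ ^ 2 := by
    intro h
    rw [hF00, hF10, hF01, hF11, mFourierCoeff_bsum I c P pa.meas pb.meas pa.bdd pb.bdd,
      mFourierCoeff_bsum I c P da.meas pb.meas da.bdd pb.bdd,
      mFourierCoeff_bsum I c P pa.meas db.meas pa.bdd db.bdd,
      mFourierCoeff_bsum I c P da.meas db.meas da.bdd db.bdd]
    simp only [norm_mul, mul_pow]
    have ka := fourierCoeff_hat_le a (h 0)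
    have kb := fourierCoeff_hat_le b (h 1)
    set E := ‖∑ i ∈ I, (c i : ℂ) * mFourier (-h) (P i)‖ ^ 2 with hE
    set α := ‖fourierCoeff (fun t : UnitAddCircle => (hat a t : ℂ)) (h 0)‖ ^ 2 with hα
    set β := ‖fourierCoeff (fun t : UnitAddCircle => (hat b t : ℂ)) (h 1)‖ ^ 2 with hβ
    set α' := ‖fourierCoeff (fun t : UnitAddCircle => (dhat a t : ℂ)) (h 0)‖ ^ 2 with hα'
    set β' := ‖fourierCoeff (fun t : UnitAddCircle => (dhat b t : ℂ)) (h 1)‖ ^ 2 with hβ'
    have hE0 : 0 ≤ E := by positivity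
    have hα0 : 0 ≤ α := by positivity
    have hβ0 : 0 ≤ β := by positivity
    have hα'0 : 0 ≤ α' := by positivity
    have hβ'0 : 0 ≤ β' := by positivity
    have h1 : α + (h 0 : ℝ) ^ 2 / 4 ^ a * α ≤ α + 1 / 4 ^ a * α' := by
      have : (h 0 : ℝ) ^ 2 / 4 ^ a * α = 1 / 4 ^ a * ((h 0 : ℝ) ^ 2 * α) := by ring
      rw [this]
      have := mul_le_mul_of_nonneg_left ka (by positivity : (0 : ℝ) ≤ 1 / 4 ^ a)
      linarith
    have h2 : β + (h 1 : ℝ) ^ 2 / 4 ^ b * β ≤ β + 1 / 4 ^ b * β' := by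
      have : (h 1 : ℝ) ^ 2 / 4 ^ b * β = 1 / 4 ^ b * ((h 1 : ℝ) ^ 2 * β) := by ring
      rw [this]
      have := mul_le_mul_of_nonneg_left kb (by positivity : (0 : ℝ) ≤ 1 / 4 ^ b)
      linarith
    have h3 : (α + (h 0 : ℝ) ^ 2 / 4 ^ a * α) * (β + (h 1 : ℝ) ^ 2 / 4 ^ b * β) ≤
        (α + 1 / 4 ^ a * α') * (β + 1 / 4 ^ b * β') :=
      mul_le_mul h1 h2 (by positivity) (by positivity)
    calc (1 + (h 0 : ℝ) ^ 2 / 4 ^ a) * (1 + (h 1 : ℝ) ^ 2 / 4 ^ b) * (E * (α * β))
        = E * ((α + (h 0 : ℝ) ^ 2 / 4 ^ a * α) * (β + (h 1 : ℝ) ^ 2 / 4 ^ b * β)) := by ring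
      _ ≤ E * ((α + 1 / 4 ^ a * α') * (β + 1 / 4 ^ b * β')) :=
          mul_le_mul_of_nonneg_left h3 hE0
      _ = _ := by
          rw [pow_add]
          ring
  calc ∑' h : Fin 2 → ℤ, ENNReal.ofReal ((1 + (h 0 : ℝ) ^ 2 / 4 ^ a) *
        (1 + (h 1 : ℝ) ^ 2 / 4 ^ b) * ‖mFourierCoeff (fun x => (F00 x : ℂ)) h‖ ^ 2)
      ≤ ∑' h : Fin 2 → ℤ, (ENNReal.ofReal (‖mFourierCoeff (fun x => (F00 x : ℂ)) h‖ ^ 2) +
        ENNReal.ofReal (1 / 4 ^ a) *
          ENNReal.ofReal (‖mFourierCoeff (fun x => (F10 x : ℂ)) h‖ ^ 2) +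
        ENNReal.ofReal (1 / 4 ^ b) *
          ENNReal.ofReal (‖mFourierCoeff (fun x => (F01 x : ℂ)) h‖ ^ 2) +
        ENNReal.ofReal (1 / 4 ^ (a + b)) *
          ENNReal.ofReal (‖mFourierCoeff (fun x => (F11 x : ℂ)) h‖ ^ 2)) := by
        refine ENNReal.tsum_le_tsum fun h => ?_
        refine (ENNReal.ofReal_le_ofReal (hpt h)).trans (le_of_eq ?_)
        rw [ENNReal.ofReal_add (by positivity) (by positivity),
          ENNReal.ofReal_add (by positivity) (by positivity),
          ENNReal.ofReal_add (by positivity) (by positivity),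
          ENNReal.ofReal_mul (by positivity), ENNReal.ofReal_mul (by positivity),
          ENNReal.ofReal_mul (by positivity)]
    _ = ENNReal.ofReal (∫ x, F00 x ^ 2 ∂(unif 2)) +
        ENNReal.ofReal (1 / 4 ^ a) * ENNReal.ofReal (∫ x, F10 x ^ 2 ∂(unif 2)) +
        ENNReal.ofReal (1 / 4 ^ b) * ENNReal.ofReal (∫ x, F01 x ^ 2 ∂(unif 2)) +
        ENNReal.ofReal (1 / 4 ^ (a + b)) * ENNReal.ofReal (∫ x, F11 x ^ 2 ∂(unif 2)) := by
        rw [ENNReal.tsum_add, ENNReal.tsum_add, ENNReal.tsum_add, ENNReal.tsum_mul_left,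
          ENNReal.tsum_mul_left, ENNReal.tsum_mul_left, t00, t10, t01, t11]
    _ = ENNReal.ofReal (∫ x, F00 x ^ 2 ∂(unif 2) + 1 / 4 ^ a * ∫ x, F10 x ^ 2 ∂(unif 2) +
          1 / 4 ^ b * ∫ x, F01 x ^ 2 ∂(unif 2) + 1 / 4 ^ (a + b) * ∫ x, F11 x ^ 2 ∂(unif 2)) := by
        have nn : ∀ F : Tor 2 → ℝ, 0 ≤ ∫ x, F x ^ 2 ∂(unif 2) := fun F =>
          integral_nonneg fun x => sq_nonneg _
        have n00 := nn F00
        have n10 := nn F10
        have n01 := nn F01
        have n11 := nn F11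
        rw [ENNReal.ofReal_add (by positivity) (by positivity),
          ENNReal.ofReal_add (by positivity) (by positivity),
          ENNReal.ofReal_add (by positivity) (by positivity),
          ENNReal.ofReal_mul (by positivity), ENNReal.ofReal_mul (by positivity),
          ENNReal.ofReal_mul (by positivity)]
    _ ≤ ENNReal.ofReal (25 * (1 / 2 ^ (a + b)) * S) := by
        apply ENNReal.ofReal_le_ofReal
        have e10 := mul_le_mul_of_nonneg_left i10 (by positivity : (0 : ℝ) ≤ 1 / 4 ^ a)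
        have e01 := mul_le_mul_of_nonneg_left i01 (by positivity : (0 : ℝ) ≤ 1 / 4 ^ b)
        have e11 := mul_le_mul_of_nonneg_left i11 (by positivity : (0 : ℝ) ≤ 1 / 4 ^ (a + b))
        have f00 : (1 * 1 : ℝ) ^ 2 * (1 / 2 ^ (a + b)) * S = (1 / 2 ^ (a + b)) * S := by ring
        have f10 : (1 / 4 ^ a : ℝ) * ((2 ^ (a + 1) * 1) ^ 2 * (1 / 2 ^ (a + b)) * S) =
            4 * ((1 / 2 ^ (a + b)) * S) := by
          have : ((2 : ℝ) ^ (a + 1) * 1) ^ 2 = 4 * 4 ^ a := by
            rw [mul_one, ← pow_mul, mul_comm (a + 1) 2, pow_mul, pow_succ]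
            norm_num
            ring
          rw [this]
          field_simp
        have f01 : (1 / 4 ^ b : ℝ) * ((1 * 2 ^ (b + 1)) ^ 2 * (1 / 2 ^ (a + b)) * S) =
            4 * ((1 / 2 ^ (a + b)) * S) := by
          have : (1 * (2 : ℝ) ^ (b + 1)) ^ 2 = 4 * 4 ^ b := by
            rw [one_mul, ← pow_mul, mul_comm (b + 1) 2, pow_mul, pow_succ]
            norm_num
            ring
          rw [this]
          field_simp
        have f11 : (1 / 4 ^ (a + b) : ℝ) *
            ((2 ^ (a + 1) * 2 ^ (b + 1)) ^ 2 * (1 / 2 ^ (a + b)) * S) =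
            16 * ((1 / 2 ^ (a + b)) * S) := by
          have : ((2 : ℝ) ^ (a + 1) * 2 ^ (b + 1)) ^ 2 = 16 * 4 ^ (a + b) := by
            rw [← pow_add, ← pow_mul, mul_comm _ 2, pow_mul]
            have : a + 1 + (b + 1) = (a + b) + 2 := by ring
            rw [this, pow_add]
            norm_num
            ring
          rw [this]
          field_simp
        rw [f10] at e10
        rw [f01] at e01
        rw [f11] at e11
        rw [f00] at i00
        linarith

end sums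

/-- The mixed norm of a sum over shapes of separated sums of hats. -/
theorem mixNormSq_shapes_le {k : ℝ} (hk : 1 / 2 < k) (hk1 : k < 1) {ι : Type*}
    (S : Finset (ℕ × ℕ)) (I : ℕ × ℕ → Finset ι) (c : ℕ × ℕ → ι → ℝ) (P : ι → Tor 2)
    (hsep : ∀ s ∈ S, ∀ i ∈ I s, ∀ j ∈ I s, i ≠ j → ¬ near s.1 s.2 (P i) (P j)) :
    mixNormSq k (fun x => ∑ s ∈ S, bsum (I s) (c s) P (hat s.1) (hat s.2) x) ≤
      ENNReal.ofReal (100 * CS k ^ 2 * ∑ s ∈ S, ((4 : ℝ) ^ (s.1 + s.2)) ^ k *
        (1 / 2 ^ (s.1 + s.2) * ∑ i ∈ I s, c s i ^ 2)) := by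
  have hlin : ∀ h, mFourierCoeff
      (fun x => ((∑ s ∈ S, bsum (I s) (c s) P (hat s.1) (hat s.2) x : ℝ) : ℂ)) h =
      ∑ s ∈ S, mFourierCoeff (fun x => (bsum (I s) (c s) P (hat s.1) (hat s.2) x : ℂ)) h := by
    intro h
    simp only [mFourierCoeff_eq]
    rw [← integral_finsetSum]
    · refine integral_congr_ae (Eventually.of_forall fun x => ?_)
      simp only
      rw [Complex.ofReal_sum, Finset.mul_sum]
    · intro s _
      refine integrable_of_bdd_complex (B := ∑ i ∈ I s, |c s i| * (1 * 1)) ?_ ?_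
      · exact (map_continuous (mFourier (-h))).measurable.mul
          (Complex.measurable_ofReal.comp
            (measurable_bsum (I s) (c s) P (prof_hat s.1).meas (prof_hat s.2).meas))
      · intro x
        rw [norm_mul, norm_mFourier_apply, one_mul, Complex.norm_real]
        exact abs_bsum_le _ _ _ (prof_hat s.1).bdd (prof_hat s.2).bdd x
  unfold mixNormSq
  have hCS := CS_pos hk1
  calc ∑' h : Fin 2 → ℤ, ENNReal.ofReal (‖mFourierCoeff (fun x =>
        ((∑ s ∈ S, bsum (I s) (c s) P (hat s.1) (hat s.2) x : ℝ) : ℂ)) h‖ ^ 2 *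
          ∏ j, (1 + (h j : ℝ) ^ 2) ^ k)
      ≤ ∑' h : Fin 2 → ℤ, ∑ s ∈ S, ENNReal.ofReal (4 * CS k ^ 2 * ((4 : ℝ) ^ (s.1 + s.2)) ^ k) *
          ENNReal.ofReal ((1 + (h 0 : ℝ) ^ 2 / 4 ^ s.1) * (1 + (h 1 : ℝ) ^ 2 / 4 ^ s.2) *
          ‖mFourierCoeff (fun x => (bsum (I s) (c s) P (hat s.1) (hat s.2) x : ℂ)) h‖ ^ 2) := by
        refine ENNReal.tsum_le_tsum fun h => ?_
        rw [hlin, Fin.prod_univ_two, mul_comm]
        have := schur_two hk hk1 S (fun s => mFourierCoeff
          (fun x => (bsum (I s) (c s) P (hat s.1) (hat s.2) x : ℂ)) h) (h 0 : ℝ) (h 1 : ℝ)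
        refine (ENNReal.ofReal_le_ofReal this).trans (le_of_eq ?_)
        rw [Finset.mul_sum, ENNReal.ofReal_sum_of_nonneg (fun s _ => by positivity)]
        refine Finset.sum_congr rfl fun s _ => ?_
        rw [← ENNReal.ofReal_mul (by positivity)]
        congr 1
        ring
    _ = ∑ s ∈ S, ENNReal.ofReal (4 * CS k ^ 2 * ((4 : ℝ) ^ (s.1 + s.2)) ^ k) *
          ∑' h : Fin 2 → ℤ, ENNReal.ofReal ((1 + (h 0 : ℝ) ^ 2 / 4 ^ s.1) *
          (1 + (h 1 : ℝ) ^ 2 / 4 ^ s.2) *
          ‖mFourierCoeff (fun x => (bsum (I s) (c s) P (hat s.1) (hat s.2) x : ℂ)) h‖ ^ 2) := by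
        rw [Summable.tsum_finsetSum (fun _ _ => ENNReal.summable)]
        refine Finset.sum_congr rfl fun s _ => ?_
        rw [ENNReal.tsum_mul_left]
    _ ≤ ∑ s ∈ S, ENNReal.ofReal (4 * CS k ^ 2 * ((4 : ℝ) ^ (s.1 + s.2)) ^ k) *
          ENNReal.ofReal (25 * (1 / 2 ^ (s.1 + s.2)) * ∑ i ∈ I s, c s i ^ 2) := by
        refine Finset.sum_le_sum fun s hs => ?_
        exact mul_le_mul_right (shape_bound (I s) (c s) P (hsep s hs)) _
    _ = _ := by
        rw [Finset.mul_sum, ENNReal.ofReal_sum_of_nonneg (fun s _ => by positivity)]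
        refine Finset.sum_congr rfl fun s _ => ?_
        rw [← ENNReal.ofReal_mul (by positivity)]
        congr 1
        ring

end Pool.Agent.Helper59.MixInt
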