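import Mathlib

/-!
# Integration with random points on spaces of dominating mixed smoothness: definitions
-/

open MeasureTheory UnitAddTorus
open scoped ENNReal

noncomputable section

namespace Pool.Agent.Helper59.MixInt

/-- The `d`-dimensional torus `(ℝ/ℤ)^d`. -/
abbrev Tor (d : ℕ) := UnitAddTorus (Fin d)

/-- The uniform distribution (normalised Haar measure, `d`-fold product) on the torus. -/
abbrev unif (d : ℕ) : Measure (Tor d) := Measure.pi fun _ => AddCircle.haarAddCircle

/-- The law of `n` independent points, each uniformly distributed on the torus. -/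
abbrev iidLaw (d n : ℕ) : Measure (Fin n → Tor d) := Measure.pi fun _ => unif d

/-- The integration functional. -/
def integ {d : ℕ} (f : Tor d → ℝ) : ℝ := ∫ x, f x ∂(unif d)

/-- The squared norm of the space `H^{k,mix}(𝕋^d)` of functions with dominating mixed
smoothness `k`: `∑_h |f̂(h)|² ∏_j (1 + h_j²)^k`. -/
def mixNormSq {d : ℕ} (k : ℝ) (f : Tor d → ℝ) : ℝ≥0∞ :=
  ∑' h : Fin d → ℤ, ENNReal.ofReal
    (‖mFourierCoeff (fun x => (f x : ℂ)) h‖ ^ 2 * ∏ j, (1 + (h j : ℝ) ^ 2) ^ k)

/-- The unit ball of `H^{k,mix}(𝕋^d)`, `k > 1/2` (continuous representatives). -/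
def mixBall (d : ℕ) (k : ℝ) : Set (Tor d → ℝ) := {f | Continuous f ∧ mixNormSq k f ≤ 1}

/-- Upper integral. -/
def upperInt {Ω : Type*} [MeasurableSpace Ω] (μ : Measure Ω) (g : Ω → ℝ≥0∞) : ℝ≥0∞ :=
  ⨅ (G : Ω → ℝ≥0∞) (_ : Measurable G) (_ : ∀ ω, g ω ≤ G ω), ∫⁻ ω, G ω ∂μ

/-- A randomized algorithm using at most `n` function values: a probability space, a random
tuple `pts` of `n` points (repetitions are allowed, so that this is a random point set of at
most `n` points) and a random mapping `φ` that is applied to the function values. -/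
structure RandAlg (d n : ℕ) where
  /-- sample space -/
  Ω : Type
  /-- its sigma-algebra -/
  mΩ : MeasurableSpace Ω
  /-- its probability measure -/
  μ : Measure Ω
  /-- it is a probability measure -/
  prob : IsProbabilityMeasure μ
  /-- the random points -/
  pts : Ω → Fin n → Tor d
  /-- they are random variables -/
  meas : Measurable pts
  /-- the random mapping applied to the function values -/
  φ : Ω → (Fin n → ℝ) → ℝ

attribute [instance] RandAlg.mΩ RandAlg.prob

/-- The output `A(f)` of the algorithm. -/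
def RandAlg.out {d n : ℕ} (A : RandAlg d n) (ω : A.Ω) (f : Tor d → ℝ) : ℝ :=
  A.φ ω fun i => f (A.pts ω i)

/-- The uniform error `𝔼 sup_{‖f‖ ≤ 1} |S(f) - A(f)|` (upper integral). -/
def RandAlg.errUnif {d n : ℕ} (k : ℝ) (A : RandAlg d n) : ℝ≥0∞ :=
  upperInt A.μ fun ω => ⨆ f ∈ mixBall d k, ENNReal.ofReal |integ f - A.out ω f|

/-- The algorithm uses `n` independent uniformly distributed points. -/
def RandAlg.IsIID {d n : ℕ} (A : RandAlg d n) : Prop := A.μ.map A.pts = iidLaw d n

/-- `e^unif(n)`: the smallest uniform error over all random point sets with at most `n` points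
and all algorithms. -/
def eUnif (d : ℕ) (k : ℝ) (n : ℕ) : ℝ≥0∞ := ⨅ A : RandAlg d n, A.errUnif k

/-- `e^unif(𝒫_n)`: the smallest uniform error of algorithms that use `n` independent uniformly
distributed points. -/
def eUnifIID (d : ℕ) (k : ℝ) (n : ℕ) : ℝ≥0∞ := ⨅ (A : RandAlg d n) (_ : A.IsIID), A.errUnif k

end Pool.Agent.Helper59.MixInt
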