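import Pool.Agent.Helper59.MixInt.Prob

/-!
# Expectation bounds and the good event
-/

open MeasureTheory UnitAddTorus Filter Topology Set
open scoped ENNReal

noncomputable section

namespace Pool.Agent.Helper59.MixInt

variable {n : ℕ}

/-- `E e_i² ≤ n / R`. -/
theorem integral_ee_sq_le {r : ℕ} (hR : 0 < (Lam r).card) (i : Fin n) :
    ∫ P, ee r P i ^ 2 ∂(iidLaw 2 n) ≤ n / (Lam r).card := by
  have hR' : (0 : ℝ) < (Lam r).card := by exact_mod_cast hR
  have h1 := integral_ee_sq_mul r i (G := fun _ => (1 : ℝ)) measurable_const (B := 1)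
    (fun _ => by simp) i (fun l _ _ => indep_const 1)
  have h2 : ∀ l ∈ Finset.univ.erase i, ∫ P, KK r (P i - P l) ^ 2 * (1 : ℝ) ∂(iidLaw 2 n) =
      (Lam r).card := by
    intro l hl
    rw [integral_KK_sq r (Finset.ne_of_mem_erase hl).symm (indep_const 1) measurable_const
      (B := 1) (fun _ => by simp)]
    simp
  rw [Finset.sum_congr rfl h2] at h1
  simp only [mul_one, Finset.sum_const, nsmul_eq_mul] at h1
  have h3 : ((Finset.univ.erase i).card : ℝ) ≤ n := by
    have := Finset.card_le_univ (Finset.univ.erase i)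
    rw [Fintype.card_fin] at this
    exact_mod_cast this
  rw [le_div_iff₀ hR']
  have h4 : ((Lam r).card : ℝ) * ((∫ P, ee r P i ^ 2 ∂(iidLaw 2 n)) * (Lam r).card) =
      (Lam r).card * (Finset.univ.erase i).card := by
    linarith
  have h5 := mul_left_cancel₀ hR'.ne' h4
  linarith

theorem integral_KK_sq_one (r : ℕ) {i l : Fin n} (hil : i ≠ l) :
    ∫ P, KK r (P i - P l) ^ 2 ∂(iidLaw 2 n) = (Lam r).card := by
  have := integral_KK_sq r hil (indep_const 1) measurable_const (B := 1) (fun _ => by simp)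
  simpa using this

/-- `E[e_i² 1(near)]` -/
theorem integral_ee_sq_near_le {r : ℕ} (hR : 0 < (Lam r).card) (a b : ℕ) {i j : Fin n}
    (hij : i ≠ j) :
    ∫ P, ee r P i ^ 2 * nearI a b (P i) (P j) ∂(iidLaw 2 n) ≤
      n / (Lam r).card * (4 / 2 ^ (a + b)) + min (1 / ((Lam r).card : ℝ)) (4 / 2 ^ (a + b)) := by
  have hR' : (0 : ℝ) < (Lam r).card := by exact_mod_cast hR
  set R : ℝ := ((Lam r).card : ℝ) with hRdef
  set p : ℝ := 4 / 2 ^ (a + b) with hp
  have hp0 : 0 ≤ p := by positivity
  have hnm := measurable_nearI (n := n) a b i j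
  have hnb : ∀ P : Fin n → Tor 2, |nearI a b (P i) (P j)| ≤ 1 := fun P => by
    rw [abs_of_nonneg (nearI_nonneg _ _ _ _)]
    exact nearI_le_one _ _ _ _
  have hind : ∀ l, l ≠ i → l ≠ j → Indep l (fun P : Fin n → Tor 2 => nearI a b (P i) (P j)) :=
    fun l hli hlj => indep_of_ne hli.symm hlj.symm (nearI a b)
  have h1 := integral_ee_sq_mul r i hnm hnb j hind
  have hjm : j ∈ Finset.univ.erase i := Finset.mem_erase.2 ⟨hij.symm, Finset.mem_univ j⟩
  rw [← Finset.sum_erase_add _ _ hjm] at h1
  have h2 : ∀ l ∈ (Finset.univ.erase i).erase j,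
      ∫ P, KK r (P i - P l) ^ 2 * nearI a b (P i) (P j) ∂(iidLaw 2 n) ≤ R * p := by
    intro l hl
    have hlj := Finset.ne_of_mem_erase hl
    have hli := Finset.ne_of_mem_erase (Finset.mem_of_mem_erase hl)
    rw [integral_KK_sq r hli.symm (hind l hli hlj) hnm hnb]
    exact mul_le_mul_of_nonneg_left (integral_nearI_le a b hij) hR'.le
  have h3 : ∫ P, KK r (P i - P j) ^ 2 * nearI a b (P i) (P j) ∂(iidLaw 2 n) ≤ R := by
    rw [hRdef, ← integral_KK_sq_one r hij]
    refine integral_mono_of_nonneg (Eventually.of_forall fun P => ?_) ?_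
      (Eventually.of_forall fun P => ?_)
    · exact mul_nonneg (sq_nonneg _) (nearI_nonneg _ _ _ _)
    · refine integrable_of_bdd ((measurable_KK r i j).pow_const 2) (B := (Lam r).card ^ 2) ?_
      intro P
      rw [abs_pow]
      exact pow_le_pow_left₀ (abs_nonneg _) (abs_KK_le r _) 2
    · simp only
      have := nearI_le_one a b (P i) (P j)
      nlinarith [sq_nonneg (KK r (P i - P j))]
  have h4 : ∫ P, KK r (P i - P j) ^ 2 * nearI a b (P i) (P j) ∂(iidLaw 2 n) ≤ R ^ 2 * p := by
    calc ∫ P, KK r (P i - P j) ^ 2 * nearI a b (P i) (P j) ∂(iidLaw 2 n)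
        ≤ ∫ P, R ^ 2 * nearI a b (P i) (P j) ∂(iidLaw 2 n) := by
          refine integral_mono_of_nonneg (Eventually.of_forall fun P => ?_) ?_
            (Eventually.of_forall fun P => ?_)
          · exact mul_nonneg (sq_nonneg _) (nearI_nonneg _ _ _ _)
          · exact (integrable_of_bdd hnm hnb).const_mul _
          · refine mul_le_mul_of_nonneg_right ?_ (nearI_nonneg _ _ _ _)
            rw [← sq_abs]
            exact pow_le_pow_left₀ (abs_nonneg _) (abs_KK_le r _) 2
      _ = R ^ 2 * ∫ P, nearI a b (P i) (P j) ∂(iidLaw 2 n) := integral_const_mul _ _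
      _ ≤ R ^ 2 * p := mul_le_mul_of_nonneg_left (integral_nearI_le a b hij) (by positivity)
  have h5 : ∑ l ∈ (Finset.univ.erase i).erase j,
      ∫ P, KK r (P i - P l) ^ 2 * nearI a b (P i) (P j) ∂(iidLaw 2 n) ≤ n * (R * p) := by
    refine (Finset.sum_le_sum h2).trans ?_
    rw [Finset.sum_const, nsmul_eq_mul]
    apply mul_le_mul_of_nonneg_right _ (by positivity)
    have := Finset.card_le_univ ((Finset.univ.erase i).erase j)
    rw [Fintype.card_fin] at this
    exact_mod_cast this
  set Y := ∫ P, ee r P i ^ 2 * nearI a b (P i) (P j) ∂(iidLaw 2 n) with hY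
  have h6 : R ^ 2 * Y ≤ n * (R * p) + min R (R ^ 2 * p) := by
    rw [h1]
    exact add_le_add h5 (le_min h3 h4)
  have h7 : R ^ 2 * (n / R * p + min (1 / R) p) = n * (R * p) + min R (R ^ 2 * p) := by
    rw [mul_add, mul_min_of_nonneg _ _ (by positivity : 0 ≤ R ^ 2)]
    congr 1
    · field_simp
    · congr 1
      field_simp
  rw [← h7] at h6
  exact le_of_mul_le_mul_left h6 (by positivity)

/-- the shapes of level `m` -/
def shapes (m : ℕ) : Finset (ℕ × ℕ) := Finset.HasAntidiagonal.antidiagonal m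

theorem mem_shapes {m : ℕ} {s : ℕ × ℕ} : s ∈ shapes m ↔ s.1 + s.2 = m :=
  Finset.HasAntidiagonal.mem_antidiagonal

theorem card_shapes (m : ℕ) : (shapes m).card = m + 1 := Finset.Nat.card_antidiagonal m

open Classical in
/-- isolating shapes of level `m` -/
def iso (P : Fin n → Tor 2) (i : Fin n) (m : ℕ) : Finset (ℕ × ℕ) :=
  (shapes m).filter fun s => ∀ j, j ≠ i → ¬ near s.1 s.2 (P i) (P j)

/-- fewer than half of the shapes of level `m` are isolating -/
def bad (P : Fin n → Tor 2) (i : Fin n) (m : ℕ) : Prop := 2 * (iso P i m).card < m + 1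

open Classical in
/-- indicator of `bad` -/
def badI (P : Fin n → Tor 2) (i : Fin n) (m : ℕ) : ℝ := if bad P i m then 1 else 0

theorem badI_nonneg (P : Fin n → Tor 2) (i : Fin n) (m : ℕ) : 0 ≤ badI P i m := by
  unfold badI
  split_ifs <;> norm_num

theorem badI_le_one (P : Fin n → Tor 2) (i : Fin n) (m : ℕ) : badI P i m ≤ 1 := by
  unfold badI
  split_ifs <;> norm_num

/-- number of pairs (shape, close point) -/
def cnt (P : Fin n → Tor 2) (i : Fin n) (m : ℕ) : ℝ :=
  ∑ s ∈ shapes m, ∑ j ∈ Finset.univ.erase i, nearI s.1 s.2 (P i) (P j)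

theorem badI_le (P : Fin n → Tor 2) (i : Fin n) (m : ℕ) :
    badI P i m ≤ 2 / (m + 1) * cnt P i m := by
  classical
  have hcnt : 0 ≤ cnt P i m :=
    Finset.sum_nonneg fun s _ => Finset.sum_nonneg fun j _ => nearI_nonneg _ _ _ _
  unfold badI
  split_ifs with hb
  · have h1 : ((shapes m).card : ℝ) ≤ (iso P i m).card + cnt P i m := by
      have h2 : ∀ s ∈ shapes m, (1 : ℝ) ≤
          (if ∀ j, j ≠ i → ¬ near s.1 s.2 (P i) (P j) then 1 else 0) +
            ∑ j ∈ Finset.univ.erase i, nearI s.1 s.2 (P i) (P j) := by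
        intro s _
        split_ifs with h3
        · have : 0 ≤ ∑ j ∈ Finset.univ.erase i, nearI s.1 s.2 (P i) (P j) :=
            Finset.sum_nonneg fun j _ => nearI_nonneg _ _ _ _
          linarith
        · push Not at h3
          obtain ⟨j, hji, hj⟩ := h3
          have h4 : nearI s.1 s.2 (P i) (P j) ≤
              ∑ j ∈ Finset.univ.erase i, nearI s.1 s.2 (P i) (P j) :=
            Finset.single_le_sum (f := fun j => nearI s.1 s.2 (P i) (P j))
              (fun j _ => nearI_nonneg _ _ _ _)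
              (Finset.mem_erase.2 ⟨hji, Finset.mem_univ j⟩)
          have h5 : nearI s.1 s.2 (P i) (P j) = 1 := by
            unfold nearI
            rw [if_pos hj]
          linarith
      have h6 := Finset.sum_le_sum h2
      rw [Finset.sum_add_distrib] at h6
      simp only [Finset.sum_const, nsmul_eq_mul, mul_one] at h6
      refine h6.trans (le_of_eq ?_)
      congr 1
      unfold iso
      rw [Finset.sum_boole]
    rw [card_shapes] at h1
    have h3 : 2 * ((iso P i m).card : ℝ) < m + 1 := by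
      unfold bad at hb
      exact_mod_cast hb
    push_cast at h1
    rw [div_mul_eq_mul_div, le_div_iff₀ (by positivity)]
    linarith
  · positivity

theorem measurable_cnt (i : Fin n) (m : ℕ) : Measurable fun P : Fin n → Tor 2 => cnt P i m := by
  unfold cnt
  exact Finset.measurable_fun_sum _ fun s _ => Finset.measurable_fun_sum _ fun j _ =>
    measurable_nearI _ _ _ _

theorem measurable_badI (i : Fin n) (m : ℕ) :
    Measurable fun P : Fin n → Tor 2 => badI P i m := by
  classical
  have h1 : ∀ s : ℕ × ℕ, MeasurableSet {P : Fin n → Tor 2 |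
      ∀ j, j ≠ i → ¬ near s.1 s.2 (P i) (P j)} := by
    intro s
    have : {P : Fin n → Tor 2 | ∀ j, j ≠ i → ¬ near s.1 s.2 (P i) (P j)} =
        ⋂ j : Fin n, ⋂ (_ : j ≠ i), {P : Fin n → Tor 2 | near s.1 s.2 (P i) (P j)}ᶜ := by
      ext P
      simp
    rw [this]
    exact MeasurableSet.iInter fun j => MeasurableSet.iInter fun _ =>
      (measurableSet_near _ _ _ _).compl
  have h2 : Measurable fun P : Fin n → Tor 2 => (iso P i m).card := by
    have : (fun P : Fin n → Tor 2 => (iso P i m).card) = fun P => ∑ s ∈ shapes m,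
        if ∀ j, j ≠ i → ¬ near s.1 s.2 (P i) (P j) then 1 else 0 := by
      ext P
      unfold iso
      rw [Finset.card_filter]
    rw [this]
    refine Finset.measurable_fun_sum _ fun s _ => ?_
    exact Measurable.ite (h1 s) measurable_const measurable_const
  have h3 : MeasurableSet {P : Fin n → Tor 2 | bad P i m} := by
    unfold bad
    exact measurableSet_lt (h2.const_mul 2) measurable_const
  unfold badI
  exact Measurable.ite h3 measurable_const measurable_const

theorem integrable_nearI (a b : ℕ) (i j : Fin n) :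
    Integrable (fun P : Fin n → Tor 2 => nearI a b (P i) (P j)) (iidLaw 2 n) :=
  integrable_of_bdd (measurable_nearI a b i j) (B := 1) fun P => by
    rw [abs_of_nonneg (nearI_nonneg _ _ _ _)]
    exact nearI_le_one _ _ _ _

theorem integrable_ee_sq_mul (r : ℕ) (i : Fin n) {G : (Fin n → Tor 2) → ℝ} (hm : Measurable G)
    {B : ℝ} (hB : ∀ P, |G P| ≤ B) :
    Integrable (fun P => ee r P i ^ 2 * G P) (iidLaw 2 n) := by
  refine integrable_of_bdd (((measurable_ee r i).pow_const 2).mul hm) (B := (n : ℝ) ^ 2 * B) ?_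
  intro P
  rw [abs_mul, abs_pow]
  exact mul_le_mul (pow_le_pow_left₀ (abs_nonneg _) (abs_ee_le r P i) 2) (hB P) (abs_nonneg _)
    (by positivity)

/-- `E[1(bad)]` -/
theorem integral_badI_le (i : Fin n) (m : ℕ) :
    ∫ P, badI P i m ∂(iidLaw 2 n) ≤ 2 * n * (4 / 2 ^ m) := by
  calc ∫ P, badI P i m ∂(iidLaw 2 n) ≤ ∫ P, 2 / (m + 1) * cnt P i m ∂(iidLaw 2 n) := by
        refine integral_mono_of_nonneg (Eventually.of_forall fun P => badI_nonneg _ _ _) ?_
          (Eventually.of_forall fun P => badI_le P i m)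
        refine Integrable.const_mul ?_ _
        exact integrable_finsetSum _ fun s _ => integrable_finsetSum _ fun j _ =>
          integrable_nearI _ _ _ _
    _ = 2 / (m + 1) * ∑ s ∈ shapes m, ∑ j ∈ Finset.univ.erase i,
          ∫ P, nearI s.1 s.2 (P i) (P j) ∂(iidLaw 2 n) := by
        rw [integral_const_mul]
        congr 1
        unfold cnt
        rw [integral_finsetSum _ fun s _ => integrable_finsetSum _ fun j _ =>
          integrable_nearI _ _ _ _]
        refine Finset.sum_congr rfl fun s _ => ?_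
        rw [integral_finsetSum _ fun j _ => integrable_nearI _ _ _ _]
    _ ≤ 2 / (m + 1) * ∑ s ∈ shapes m, ∑ j ∈ Finset.univ.erase i, (4 / 2 ^ m : ℝ) := by
        apply mul_le_mul_of_nonneg_left _ (by positivity)
        refine Finset.sum_le_sum fun s hs => Finset.sum_le_sum fun j hj => ?_
        have := integral_nearI_le (n := n) s.1 s.2 (Finset.ne_of_mem_erase hj).symm
        rwa [mem_shapes.1 hs] at this
    _ = 2 * ((Finset.univ.erase i).card : ℝ) * (4 / 2 ^ m) := by
        simp only [Finset.sum_const, nsmul_eq_mul, card_shapes]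
        push_cast
        field_simp
    _ ≤ 2 * n * (4 / 2 ^ m) := by
        have := Finset.card_le_univ (Finset.univ.erase i)
        rw [Fintype.card_fin] at this
        have h : ((Finset.univ.erase i).card : ℝ) ≤ n := by exact_mod_cast this
        gcongr

/-- `E[e_i² 1(bad)]` -/
theorem integral_ee_sq_badI_le {r : ℕ} (hR : 0 < (Lam r).card) (i : Fin n) (m : ℕ) :
    ∫ P, ee r P i ^ 2 * badI P i m ∂(iidLaw 2 n) ≤
      2 * n * (n / (Lam r).card * (4 / 2 ^ m) + min (1 / ((Lam r).card : ℝ)) (4 / 2 ^ m)) := by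
  set T : ℝ := n / (Lam r).card * (4 / 2 ^ m) + min (1 / ((Lam r).card : ℝ)) (4 / 2 ^ m) with hT
  have hT0 : 0 ≤ T := by positivity
  have hint : ∀ (s : ℕ × ℕ) (j : Fin n), Integrable (fun P : Fin n → Tor 2 =>
      ee r P i ^ 2 * nearI s.1 s.2 (P i) (P j)) (iidLaw 2 n) := fun s j =>
    integrable_ee_sq_mul r i (measurable_nearI _ _ _ _) (B := 1) fun P => by
      rw [abs_of_nonneg (nearI_nonneg _ _ _ _)]
      exact nearI_le_one _ _ _ _
  have hexp : ∀ P : Fin n → Tor 2, ee r P i ^ 2 * (2 / (m + 1) * cnt P i m) =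
      2 / (m + 1) * ∑ s ∈ shapes m, ∑ j ∈ Finset.univ.erase i,
        ee r P i ^ 2 * nearI s.1 s.2 (P i) (P j) := by
    intro P
    unfold cnt
    simp only [Finset.mul_sum]
    refine Finset.sum_congr rfl fun s _ => Finset.sum_congr rfl fun j _ => ?_
    ring
  calc ∫ P, ee r P i ^ 2 * badI P i m ∂(iidLaw 2 n)
      ≤ ∫ P, ee r P i ^ 2 * (2 / (m + 1) * cnt P i m) ∂(iidLaw 2 n) := by
        refine integral_mono_of_nonneg (Eventually.of_forall fun P => ?_) ?_
          (Eventually.of_forall fun P => ?_)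
        · exact mul_nonneg (sq_nonneg _) (badI_nonneg _ _ _)
        · simp only [hexp]
          refine Integrable.const_mul ?_ _
          exact integrable_finsetSum _ fun s _ => integrable_finsetSum _ fun j _ => hint s j
        · exact mul_le_mul_of_nonneg_left (badI_le P i m) (sq_nonneg _)
    _ = 2 / (m + 1) * ∑ s ∈ shapes m, ∑ j ∈ Finset.univ.erase i,
          ∫ P, ee r P i ^ 2 * nearI s.1 s.2 (P i) (P j) ∂(iidLaw 2 n) := by
        simp only [hexp]
        rw [integral_const_mul]
        congr 1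
        rw [integral_finsetSum _ fun s _ => integrable_finsetSum _ fun j _ => hint s j]
        refine Finset.sum_congr rfl fun s _ => ?_
        rw [integral_finsetSum _ fun j _ => hint s j]
    _ ≤ 2 / (m + 1) * ∑ s ∈ shapes m, ∑ j ∈ Finset.univ.erase i, T := by
        apply mul_le_mul_of_nonneg_left _ (by positivity)
        refine Finset.sum_le_sum fun s hs => Finset.sum_le_sum fun j hj => ?_
        have := integral_ee_sq_near_le (n := n) hR s.1 s.2 (Finset.ne_of_mem_erase hj).symm
        rwa [mem_shapes.1 hs] at this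
    _ = 2 * ((Finset.univ.erase i).card : ℝ) * T := by
        simp only [Finset.sum_const, nsmul_eq_mul, card_shapes]
        push_cast
        field_simp
    _ ≤ 2 * n * T := by
        have := Finset.card_le_univ (Finset.univ.erase i)
        rw [Fintype.card_fin] at this
        have h : ((Finset.univ.erase i).card : ℝ) ≤ n := by exact_mod_cast this
        gcongr

/-- Fourier coefficients of the first approximation. -/
def cc (r : ℕ) (P : Fin n → Tor 2) (h : Fin 2 → ℤ) : ℂ :=
  (∑ i, mFourier (-h) (P i)) / (Lam r).card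

theorem norm_sq_cc (r : ℕ) (P : Fin n → Tor 2) (h : Fin 2 → ℤ) :
    ‖cc r P h‖ ^ 2 = (∑ i, ∑ j, (mFourier (-h) (P i - P j)).re) / (Lam r).card ^ 2 := by
  unfold cc
  rw [norm_div, div_pow, Complex.norm_natCast]
  congr 1
  have h1 : ((‖∑ i, mFourier (-h) (P i)‖ ^ 2 : ℝ) : ℂ) =
      ∑ i, ∑ j, mFourier (-h) (P i - P j) := by
    rw [← Complex.normSq_eq_norm_sq, ← Complex.mul_conj, map_sum, Finset.sum_mul_sum]
    refine Finset.sum_congr rfl fun i _ => Finset.sum_congr rfl fun j _ => ?_
    rw [mFourier_sub_apply, ← mFourier_neg]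
  have h2 := congrArg Complex.re h1
  rw [Complex.ofReal_re] at h2
  rw [h2, Complex.re_sum]
  refine Finset.sum_congr rfl fun i _ => ?_
  rw [Complex.re_sum]

theorem integral_norm_sq_cc (r : ℕ) {h : Fin 2 → ℤ} (hh : h ≠ 0) :
    ∫ P : Fin n → Tor 2, ‖cc r P h‖ ^ 2 ∂(iidLaw 2 n) = n / (Lam r).card ^ 2 := by
  simp only [norm_sq_cc]
  rw [integral_div]
  congr 1
  have hint : ∀ i j : Fin n, Integrable (fun P : Fin n → Tor 2 =>
      (mFourier (-h) (P i - P j)).re) (iidLaw 2 n) := fun i j =>
    integrable_of_bdd (measurable_char _ _ _) (B := 1) fun P => abs_re_mFourier_le _ _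
  rw [integral_finsetSum _ fun i _ => integrable_finsetSum _ fun j _ => hint i j]
  have h1 : ∀ i ∈ Finset.univ, ∫ P : Fin n → Tor 2, ∑ j, (mFourier (-h) (P i - P j)).re
      ∂(iidLaw 2 n) = 1 := by
    intro i _
    rw [integral_finsetSum _ fun j _ => hint i j, Finset.sum_eq_single i]
    · simp [mFourier_zero_apply]
    · intro j _ hj
      have := integral_char_eq_zero (n := n) (m := -h) (neg_ne_zero.2 hh) hj.symm
        (indep_const (l := j) 1)
      simpa using this
    · simp
  rw [Finset.sum_congr rfl h1]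
  simp

/-- first statistic -/
def X1 (r : ℕ) (P : Fin n → Tor 2) : ℝ := ∑ h ∈ Lam r, ‖cc r P h‖ ^ 2

/-- weights -/
def VV (q : ℝ) (m₀ M : ℕ) (P : Fin n → Tor 2) (i : Fin n) : ℝ :=
  ((2 : ℝ) ^ m₀) ^ q + ∑ m ∈ Finset.Ico m₀ M, ((2 : ℝ) ^ (m + 1)) ^ q * badI P i m

/-- second statistic -/
def X2 (r : ℕ) (q : ℝ) (m₀ M : ℕ) (P : Fin n → Tor 2) : ℝ :=
  ∑ i, ee r P i ^ 2 * VV q m₀ M P i

/-- third statistic -/
def X3 (r : ℕ) (P : Fin n → Tor 2) : ℝ := ∑ i, ee r P i ^ 2

/-- fourth statistic -/
def X4 (M : ℕ) (P : Fin n → Tor 2) : ℝ := ∑ i, badI P i M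

/-- bound for the expectation of the second statistic -/
def B2 (n r : ℕ) (q : ℝ) (m₀ M : ℕ) : ℝ :=
  n * (((2 : ℝ) ^ m₀) ^ q * (n / (Lam r).card) + ∑ m ∈ Finset.Ico m₀ M, ((2 : ℝ) ^ (m + 1)) ^ q *
    (2 * n * (n / (Lam r).card * (4 / 2 ^ m) + min (1 / ((Lam r).card : ℝ)) (4 / 2 ^ m))))

theorem integral_X1 {r : ℕ} (hR : 0 < (Lam r).card) :
    ∫ P : Fin n → Tor 2, X1 r P ∂(iidLaw 2 n) = n / (Lam r).card := by
  have hR' : (0 : ℝ) < (Lam r).card := by exact_mod_cast hR
  unfold X1
  rw [integral_finsetSum]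
  · have h1 : ∀ h ∈ Lam r, ∫ P : Fin n → Tor 2, ‖cc r P h‖ ^ 2 ∂(iidLaw 2 n) =
        n / (Lam r).card ^ 2 := by
      intro h hh
      apply integral_norm_sq_cc
      rintro rfl
      exact zero_notMem_Lam r hh
    rw [Finset.sum_congr rfl h1]
    simp only [Finset.sum_const, nsmul_eq_mul]
    field_simp
  · intro h _
    simp only [norm_sq_cc]
    refine Integrable.div_const ?_ _
    exact integrable_finsetSum _ fun i _ => integrable_finsetSum _ fun j _ =>
      integrable_of_bdd (measurable_char _ _ _) (B := 1) fun P => abs_re_mFourier_le _ _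

theorem integrable_X1 (r : ℕ) : Integrable (fun P : Fin n → Tor 2 => X1 r P) (iidLaw 2 n) := by
  unfold X1
  refine integrable_finsetSum _ fun h _ => ?_
  simp only [norm_sq_cc]
  refine Integrable.div_const ?_ _
  exact integrable_finsetSum _ fun i _ => integrable_finsetSum _ fun j _ =>
    integrable_of_bdd (measurable_char _ _ _) (B := 1) fun P => abs_re_mFourier_le _ _

theorem integrable_ee_sq (r : ℕ) (i : Fin n) :
    Integrable (fun P : Fin n → Tor 2 => ee r P i ^ 2) (iidLaw 2 n) := by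
  have := integrable_ee_sq_mul (n := n) r i (G := fun _ => (1 : ℝ)) measurable_const (B := 1)
    (fun _ => by simp)
  simpa using this

theorem integrable_ee_sq_badI (r : ℕ) (i : Fin n) (m : ℕ) :
    Integrable (fun P : Fin n → Tor 2 => ee r P i ^ 2 * badI P i m) (iidLaw 2 n) :=
  integrable_ee_sq_mul (n := n) r i (measurable_badI i m) (B := 1) fun P => by
    rw [abs_of_nonneg (badI_nonneg _ _ _)]
    exact badI_le_one _ _ _

theorem X2_eq (r : ℕ) (q : ℝ) (m₀ M : ℕ) (P : Fin n → Tor 2) :
    X2 r q m₀ M P = ∑ i, (((2 : ℝ) ^ m₀) ^ q * ee r P i ^ 2 +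
      ∑ m ∈ Finset.Ico m₀ M, ((2 : ℝ) ^ (m + 1)) ^ q * (ee r P i ^ 2 * badI P i m)) := by
  unfold X2 VV
  refine Finset.sum_congr rfl fun i _ => ?_
  rw [mul_add, Finset.mul_sum]
  congr 1
  · ring
  · refine Finset.sum_congr rfl fun m _ => ?_
    ring

theorem integrable_X2 (r : ℕ) (q : ℝ) (m₀ M : ℕ) :
    Integrable (fun P : Fin n → Tor 2 => X2 r q m₀ M P) (iidLaw 2 n) := by
  simp only [X2_eq]
  refine integrable_finsetSum _ fun i _ => ((integrable_ee_sq r i).const_mul _).add ?_
  exact integrable_finsetSum _ fun m _ => (integrable_ee_sq_badI r i m).const_mul _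

theorem integral_X2_le {r : ℕ} (hR : 0 < (Lam r).card) (q : ℝ) (m₀ M : ℕ) :
    ∫ P : Fin n → Tor 2, X2 r q m₀ M P ∂(iidLaw 2 n) ≤ B2 n r q m₀ M := by
  simp only [X2_eq]
  rw [integral_finsetSum]
  · unfold B2
    have h1 : ∀ i : Fin n, ∫ P : Fin n → Tor 2, (((2 : ℝ) ^ m₀) ^ q * ee r P i ^ 2 +
        ∑ m ∈ Finset.Ico m₀ M, ((2 : ℝ) ^ (m + 1)) ^ q * (ee r P i ^ 2 * badI P i m))
          ∂(iidLaw 2 n) ≤
        (((2 : ℝ) ^ m₀) ^ q * (n / (Lam r).card) + ∑ m ∈ Finset.Ico m₀ M,
          ((2 : ℝ) ^ (m + 1)) ^ q *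
          (2 * n * (n / (Lam r).card * (4 / 2 ^ m) + min (1 / ((Lam r).card : ℝ)) (4 / 2 ^ m)))) := by
      intro i
      rw [integral_add ((integrable_ee_sq r i).const_mul _)
        (integrable_finsetSum _ fun m _ => (integrable_ee_sq_badI r i m).const_mul _),
        integral_const_mul, integral_finsetSum _ fun m _ =>
          (integrable_ee_sq_badI r i m).const_mul _]
      refine add_le_add ?_ (Finset.sum_le_sum fun m _ => ?_)
      · exact mul_le_mul_of_nonneg_left (integral_ee_sq_le hR i) (by positivity)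
      · rw [integral_const_mul]
        exact mul_le_mul_of_nonneg_left (integral_ee_sq_badI_le hR i m) (by positivity)
    refine (Finset.sum_le_sum fun i _ => h1 i).trans (le_of_eq ?_)
    simp only [Finset.sum_const, Finset.card_univ, Fintype.card_fin, nsmul_eq_mul]
  · intro i _
    refine ((integrable_ee_sq r i).const_mul _).add ?_
    exact integrable_finsetSum _ fun m _ => (integrable_ee_sq_badI r i m).const_mul _

theorem integral_X3_le {r : ℕ} (hR : 0 < (Lam r).card) :
    ∫ P : Fin n → Tor 2, X3 r P ∂(iidLaw 2 n) ≤ n * (n / (Lam r).card) := by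
  unfold X3
  rw [integral_finsetSum _ fun i _ => integrable_ee_sq r i]
  refine (Finset.sum_le_sum fun i _ => integral_ee_sq_le hR i).trans (le_of_eq ?_)
  simp

theorem integrable_badI (i : Fin n) (m : ℕ) :
    Integrable (fun P : Fin n → Tor 2 => badI P i m) (iidLaw 2 n) :=
  integrable_of_bdd (measurable_badI i m) (B := 1) fun P => by
    rw [abs_of_nonneg (badI_nonneg _ _ _)]
    exact badI_le_one _ _ _

theorem integral_X4_le (M : ℕ) :
    ∫ P : Fin n → Tor 2, X4 M P ∂(iidLaw 2 n) ≤ n * (2 * n * (4 / 2 ^ M)) := by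
  unfold X4
  rw [integral_finsetSum _ fun i _ => integrable_badI i M]
  refine (Finset.sum_le_sum fun i _ => integral_badI_le i M).trans (le_of_eq ?_)
  simp

theorem X1_nonneg (r : ℕ) (P : Fin n → Tor 2) : 0 ≤ X1 r P :=
  Finset.sum_nonneg fun _ _ => by positivity

theorem VV_nonneg (q : ℝ) (m₀ M : ℕ) (P : Fin n → Tor 2) (i : Fin n) : 0 ≤ VV q m₀ M P i := by
  unfold VV
  refine add_nonneg (by positivity) (Finset.sum_nonneg fun m _ => ?_)
  exact mul_nonneg (by positivity) (badI_nonneg _ _ _)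

theorem X2_nonneg (r : ℕ) (q : ℝ) (m₀ M : ℕ) (P : Fin n → Tor 2) : 0 ≤ X2 r q m₀ M P :=
  Finset.sum_nonneg fun _ _ => mul_nonneg (sq_nonneg _) (VV_nonneg _ _ _ _ _)

theorem X3_nonneg (r : ℕ) (P : Fin n → Tor 2) : 0 ≤ X3 r P :=
  Finset.sum_nonneg fun _ _ => sq_nonneg _

theorem X4_nonneg (M : ℕ) (P : Fin n → Tor 2) : 0 ≤ X4 M P :=
  Finset.sum_nonneg fun _ _ => badI_nonneg _ _ _

/-- The good event. -/
def Good (n r : ℕ) (q : ℝ) (m₀ M : ℕ) : Set (Fin n → Tor 2) :=
  {P | X1 r P ≤ 9 * (n / (Lam r).card) ∧ X2 r q m₀ M P ≤ 9 * B2 n r q m₀ M ∧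
    X3 r P ≤ 9 * (n * (n / (Lam r).card)) ∧ ∀ i, ¬ bad P i M}

theorem exists_good {r : ℕ} (hn : 0 < n) (hR : 0 < (Lam r).card) (q : ℝ) (m₀ M : ℕ)
    (hM : 72 * n ^ 2 < 2 ^ M) :
    ∃ G : Set (Fin n → Tor 2), MeasurableSet G ∧ G ⊆ Good n r q m₀ M ∧
      ENNReal.ofReal (1 / 2) ≤ iidLaw 2 n G := by
  have hn' : (0 : ℝ) < n := by exact_mod_cast hn
  have hR' : (0 : ℝ) < (Lam r).card := by exact_mod_cast hR
  set b1 : ℝ := n / (Lam r).card with hb1
  set b2 : ℝ := B2 n r q m₀ M with hb2
  set b3 : ℝ := n * (n / (Lam r).card) with hb3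
  set b4 : ℝ := n * (2 * n * (4 / 2 ^ M)) with hb4
  have hb1p : 0 < b1 := by positivity
  have hb2p : 0 < b2 := by
    rw [hb2]
    unfold B2
    apply mul_pos hn'
    apply add_pos_of_pos_of_nonneg
    · positivity
    · refine Finset.sum_nonneg fun m _ => ?_
      positivity
  have hb3p : 0 < b3 := by positivity
  have hb4p : 0 < b4 := by positivity
  set T : (Fin n → Tor 2) → ℝ := fun P =>
    X1 r P / b1 + X2 r q m₀ M P / b2 + X3 r P / b3 + X4 M P / b4 with hT
  have hX3i : Integrable (fun P : Fin n → Tor 2 => X3 r P) (iidLaw 2 n) :=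
    integrable_finsetSum _ fun i _ => integrable_ee_sq r i
  have hX4i : Integrable (fun P : Fin n → Tor 2 => X4 M P) (iidLaw 2 n) :=
    integrable_finsetSum _ fun i _ => integrable_badI i M
  have hX2i := integrable_X2 (n := n) r q m₀ M
  have hX1i := integrable_X1 (n := n) r
  have hTint : Integrable T (iidLaw 2 n) :=
    ((((hX1i.div_const b1).add (hX2i.div_const b2)).add (hX3i.div_const b3)).add
      (hX4i.div_const b4))
  have hTnn : ∀ P, 0 ≤ T P := fun P => by
    have := X1_nonneg r P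
    have := X2_nonneg r q m₀ M P
    have := X3_nonneg r P
    have := X4_nonneg M P
    rw [hT]
    positivity
  have i12 : Integrable (fun P : Fin n → Tor 2 => X1 r P / b1 + X2 r q m₀ M P / b2)
      (iidLaw 2 n) := (hX1i.div_const b1).add (hX2i.div_const b2)
  have i123 : Integrable (fun P : Fin n → Tor 2 => X1 r P / b1 + X2 r q m₀ M P / b2 +
      X3 r P / b3) (iidLaw 2 n) := i12.add (hX3i.div_const b3)
  have hTE : ∫ P, T P ∂(iidLaw 2 n) ≤ 4 := by
    simp only [hT]
    rw [integral_add i123 (hX4i.div_const b4), integral_add i12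
      (hX3i.div_const b3), integral_add (hX1i.div_const b1) (hX2i.div_const b2),
      integral_div, integral_div, integral_div, integral_div]
    have e1 : (∫ P : Fin n → Tor 2, X1 r P ∂(iidLaw 2 n)) / b1 ≤ 1 := by
      rw [div_le_one hb1p, integral_X1 hR]
    have e2 : (∫ P : Fin n → Tor 2, X2 r q m₀ M P ∂(iidLaw 2 n)) / b2 ≤ 1 := by
      rw [div_le_one hb2p]
      exact integral_X2_le hR q m₀ M
    have e3 : (∫ P : Fin n → Tor 2, X3 r P ∂(iidLaw 2 n)) / b3 ≤ 1 := by
      rw [div_le_one hb3p]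
      exact integral_X3_le hR
    have e4 : (∫ P : Fin n → Tor 2, X4 M P ∂(iidLaw 2 n)) / b4 ≤ 1 := by
      rw [div_le_one hb4p]
      exact integral_X4_le M
    linarith
  have hTmeas : Measurable T := by
    have m1 : Measurable fun P : Fin n → Tor 2 => X1 r P := by
      unfold X1
      refine Finset.measurable_fun_sum _ fun h _ => ?_
      simp only [norm_sq_cc]
      refine Measurable.div_const ?_ _
      exact Finset.measurable_fun_sum _ fun i _ => Finset.measurable_fun_sum _ fun j _ =>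
        measurable_char _ _ _
    have m2 : Measurable fun P : Fin n → Tor 2 => X2 r q m₀ M P := by
      unfold X2 VV
      refine Finset.measurable_fun_sum _ fun i _ => ((measurable_ee r i).pow_const 2).mul ?_
      refine measurable_const.add ?_
      exact Finset.measurable_fun_sum _ fun m _ => (measurable_badI i m).const_mul _
    have m3 : Measurable fun P : Fin n → Tor 2 => X3 r P := by
      unfold X3
      exact Finset.measurable_fun_sum _ fun i _ => (measurable_ee r i).pow_const 2
    have m4 : Measurable fun P : Fin n → Tor 2 => X4 M P := by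
      unfold X4
      exact Finset.measurable_fun_sum _ fun i _ => measurable_badI i M
    exact (((m1.div_const b1).add (m2.div_const b2)).add (m3.div_const b3)).add (m4.div_const b4)
  refine ⟨{P | T P < 9}, measurableSet_lt hTmeas measurable_const, ?_, ?_⟩
  · intro P hP
    have hP' : T P < 9 := hP
    have n1 : 0 ≤ X1 r P / b1 := div_nonneg (X1_nonneg r P) hb1p.le
    have n2 : 0 ≤ X2 r q m₀ M P / b2 := div_nonneg (X2_nonneg r q m₀ M P) hb2p.le
    have n3 : 0 ≤ X3 r P / b3 := div_nonneg (X3_nonneg r P) hb3p.le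
    have n4 : 0 ≤ X4 M P / b4 := div_nonneg (X4_nonneg M P) hb4p.le
    have hsum : X1 r P / b1 + X2 r q m₀ M P / b2 + X3 r P / b3 + X4 M P / b4 < 9 := hP'
    refine ⟨?_, ?_, ?_, ?_⟩
    · rw [← div_le_iff₀ hb1p]
      linarith
    · rw [← div_le_iff₀ hb2p]
      linarith
    · rw [← div_le_iff₀ hb3p]
      linarith
    · have h4 : X4 M P < 9 * b4 := by
        rw [← div_lt_iff₀ hb4p]
        linarith
      have h5 : 9 * b4 < 1 := by
        rw [hb4]
        have hM' : (72 : ℝ) * n ^ 2 < 2 ^ M := by exact_mod_cast hM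
        have h2M : (0 : ℝ) < 2 ^ M := by positivity
        have : 9 * ((n : ℝ) * (2 * n * (4 / 2 ^ M))) = 72 * n ^ 2 / 2 ^ M := by
          field_simp
          ring
        rw [this, div_lt_one h2M]
        exact hM'
      intro i hi
      have h6 : badI P i M ≤ X4 M P :=
        Finset.single_le_sum (f := fun i => badI P i M) (fun i _ => badI_nonneg _ _ _)
          (Finset.mem_univ i)
      have h7 : badI P i M = 1 := by
        unfold badI
        rw [if_pos hi]
      linarith
  · have hmk := mul_meas_ge_le_integral_of_nonneg (Eventually.of_forall hTnn) hTint 9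
    have h1 : (iidLaw 2 n).real {P | 9 ≤ T P} ≤ 1 / 2 := by linarith
    have h2 : {P | T P < 9} = {P | 9 ≤ T P}ᶜ := by
      ext P
      simp
    have h3 : (iidLaw 2 n).real {P | T P < 9} = 1 - (iidLaw 2 n).real {P | 9 ≤ T P} := by
      rw [h2, probReal_compl_eq_one_sub (measurableSet_le measurable_const hTmeas)]
    rw [← ENNReal.ofReal_toReal (measure_ne_top (iidLaw 2 n) {P | T P < 9})]
    apply ENNReal.ofReal_le_ofReal
    change 1 / 2 ≤ (iidLaw 2 n).real {P | T P < 9}
    rw [h3]
    linarith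

end Pool.Agent.Helper59.MixInt
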