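import Pool.Agent.Helper59.MixInt.Trig

/-!
# The dual of the Fibonacci lattice
-/

open MeasureTheory UnitAddTorus Filter Topology Set
open scoped ENNReal

noncomputable section

namespace Pool.Agent.Helper59.MixInt

/-- number of points of the Fibonacci lattice -/
def NN (m : ℕ) : ℕ := Nat.fib (m + 1)

/-- generator of the Fibonacci lattice -/
def ga (m : ℕ) : ℕ := Nat.fib m

theorem NN_pos (m : ℕ) : 0 < NN m := Nat.fib_pos.2 (by omega)

theorem ga_le (m : ℕ) : ga m ≤ NN m := Nat.fib_le_fib_succ

theorem cassini_form (m : ℕ) :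
    ((ga m : ℤ)) ^ 2 + ga m * NN m - (NN m : ℤ) ^ 2 = (-1) ^ (m + 1) := by
  induction m with
  | zero => simp [ga, NN]
  | succ m ih =>
    have h1 : ga (m + 1) = NN m := rfl
    have h2 : (NN (m + 1) : ℤ) = ga m + NN m := by
      unfold NN ga
      rw [Nat.fib_add_two]
      push_cast
      ring
    rw [h1, h2, pow_succ (-1) (m + 1)]
    linear_combination -ih

theorem coprime_ga (m : ℕ) : IsCoprime (ga m : ℤ) (NN m : ℤ) := by
  rw [Nat.isCoprime_iff_coprime]
  exact Nat.fib_coprime_fib_succ m

theorem normform_ne_zero {z y : ℤ} (hy : y ≠ 0) : z ^ 2 + z * y - y ^ 2 ≠ 0 := by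
  intro h
  have h1 : (2 * z + y) ^ 2 = 5 * y ^ 2 := by linear_combination 4 * h
  have h2 : ((2 * z + y : ℤ) : ℝ) ^ 2 = 5 * (y : ℝ) ^ 2 := by exact_mod_cast h1
  have hy' : (y : ℝ) ≠ 0 := by exact_mod_cast hy
  have h3 : (((2 * z + y : ℤ) : ℝ) / y) ^ 2 = 5 := by
    rw [div_pow, h2]
    field_simp
  have h4 : Real.sqrt 5 = |((2 * z + y : ℤ) : ℝ) / y| := by
    rw [← h3, Real.sqrt_sq_eq_abs]
  have h5 : Irrational (Real.sqrt 5) := by
    have := Nat.Prime.irrational_sqrt (p := 5) (by norm_num)
    exact_mod_cast this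
  apply h5
  refine ⟨|((2 * z + y : ℤ) : ℚ) / y|, ?_⟩
  rw [h4]
  push_cast
  rfl

/-- membership in the dual lattice -/
def inD (m : ℕ) (h : Fin 2 → ℤ) : Prop := (NN m : ℤ) ∣ h 0 + ga m * h 1

/-- Hyperbolic separation of the dual lattice. -/
theorem sep_dual {m : ℕ} {x y : ℤ} (h : (NN m : ℤ) ∣ x + ga m * y) (hx : x ≠ 0) (hy : y ≠ 0) :
    (NN m : ℤ) ≤ 6 * (|x| * |y|) := by
  have hN := NN_pos m
  have hN' : (0 : ℤ) < NN m := by exact_mod_cast hN
  have hx1 : 1 ≤ |x| := Int.one_le_abs hx
  have hy1 : 1 ≤ |y| := Int.one_le_abs hy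
  by_cases c1 : (NN m : ℤ) ≤ 2 * |x|
  · nlinarith
  by_cases c2 : (NN m : ℤ) ≤ 2 * |y|
  · nlinarith
  push Not at c1 c2
  obtain ⟨z, hz⟩ := h
  have hΔ : z ^ 2 + z * y - y ^ 2 ≠ 0 := normform_ne_zero hy
  have hΔ1 : 1 ≤ |z ^ 2 + z * y - y ^ 2| := Int.one_le_abs hΔ
  have hc := cassini_form m
  set N : ℤ := (NN m : ℤ) with hNdef
  set a : ℤ := (ga m : ℤ) with ha
  have haN : a ≤ N := by
    rw [ha, hNdef]
    exact_mod_cast ga_le m
  have ha0 : 0 ≤ a := by positivity
  have key : N ^ 2 * (z ^ 2 + z * y - y ^ 2) = x ^ 2 + (2 * a + N) * (x * y) +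
      (-1) ^ (m + 1) * y ^ 2 := by
    rw [← hc]
    have : N * z = x + a * y := hz.symm
    have e : N ^ 2 * (z ^ 2 + z * y - y ^ 2) = (N * z) ^ 2 + (N * z) * (N * y) - (N * y) ^ 2 := by
      ring
    rw [e, this]
    ring
  have h1 : N ^ 2 ≤ |N ^ 2 * (z ^ 2 + z * y - y ^ 2)| := by
    rw [abs_mul, abs_of_nonneg (sq_nonneg N)]
    nlinarith [sq_nonneg N]
  have h2 : |x ^ 2 + (2 * a + N) * (x * y) + (-1) ^ (m + 1) * y ^ 2| ≤
      |x| ^ 2 + 3 * N * (|x| * |y|) + |y| ^ 2 := by
    calc |x ^ 2 + (2 * a + N) * (x * y) + (-1) ^ (m + 1) * y ^ 2|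
        ≤ |x ^ 2| + |(2 * a + N) * (x * y)| + |(-1) ^ (m + 1) * y ^ 2| := abs_add_three _ _ _
      _ = |x| ^ 2 + (2 * a + N) * (|x| * |y|) + |y| ^ 2 := by
          rw [abs_mul, abs_mul, abs_mul, abs_pow, abs_pow, abs_pow, abs_neg, abs_one, one_pow,
            one_mul, abs_of_nonneg (by positivity : 0 ≤ 2 * a + N)]
      _ ≤ _ := by
          have : 0 ≤ |x| * |y| := by positivity
          nlinarith
  rw [key] at h1
  have h3 := h1.trans h2
  nlinarith [abs_nonneg x, abs_nonneg y]

/-- Number of points of the dual lattice in a box. -/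
theorem card_dual_box_le (m : ℕ) (x₀ y₀ : ℤ) (X Y : ℕ) (hX : 0 < X) (hY : 0 < Y)
    (S : Finset (ℤ × ℤ)) (hS : ∀ p ∈ S, (NN m : ℤ) ∣ p.1 + ga m * p.2 ∧
      x₀ ≤ p.1 ∧ p.1 < x₀ + X ∧ y₀ ≤ p.2 ∧ p.2 < y₀ + Y) :
    NN m * S.card ≤ NN m + 6 * (X * Y) := by
  have hN := NN_pos m
  set N := NN m with hNdef
  by_cases hYN : Y ≤ N
  · -- subdivide the first side
    set K := 6 * X * Y / N + 1 with hK
    have hK0 : 0 < K := Nat.succ_pos _
    have hKN : 6 * X * Y < K * N := by
      rw [hK]
      have := Nat.div_add_mod (6 * X * Y) N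
      have := Nat.mod_lt (6 * X * Y) hN
      nlinarith
    have hcard : S.card ≤ K := by
      have : S.card ≤ (Finset.range K).card := by
        refine Finset.card_le_card_of_injOn (fun p => ((p.1 - x₀).toNat * K) / X) ?_ ?_
        · intro p hp
          obtain ⟨_, h1, h2, _, _⟩ := hS p hp
          rw [Finset.mem_coe, Finset.mem_range]
          apply Nat.div_lt_of_lt_mul
          have h3 : (p.1 - x₀).toNat < X := by omega
          exact Nat.mul_lt_mul_of_pos_right h3 hK0
        · intro p hp p' hp' heq
          obtain ⟨d1, h1, h2, h3, h4⟩ := hS p hp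
          obtain ⟨d2, h1', h2', h3', h4'⟩ := hS p' hp'
          simp only at heq
          -- the first coordinates are close
          have hclose : |p.1 - p'.1| * K < X := by
            set u := (p.1 - x₀).toNat with hu
            set v := (p'.1 - x₀).toNat with hv
            have hu' : (u : ℤ) = p.1 - x₀ := by omega
            have hv' : (v : ℤ) = p'.1 - x₀ := by omega
            have e1 := Nat.div_add_mod (u * K) X
            have e2 := Nat.div_add_mod (v * K) X
            have l1 := Nat.mod_lt (u * K) hX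
            have l2 := Nat.mod_lt (v * K) hX
            rw [heq] at e1
            have f1 : ((u * K : ℕ) : ℤ) - ((v * K : ℕ) : ℤ) =
                ((u * K % X : ℕ) : ℤ) - ((v * K % X : ℕ) : ℤ) := by
              have e1' : ((u * K : ℕ) : ℤ) = ((X * (v * K / X) : ℕ) : ℤ) + ((u * K % X : ℕ) : ℤ) := by
                rw [← Nat.cast_add, e1]
              have e2' : ((v * K : ℕ) : ℤ) = ((X * (v * K / X) : ℕ) : ℤ) + ((v * K % X : ℕ) : ℤ) := by
                rw [← Nat.cast_add, e2]
              rw [e1', e2']
              ring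
            have f2 : (p.1 - p'.1) * K = ((u * K : ℕ) : ℤ) - ((v * K : ℕ) : ℤ) := by
              push_cast
              rw [hu', hv']
              ring
            have f3 : |p.1 - p'.1| * K = |(p.1 - p'.1) * K| := by
              rw [abs_mul, Nat.abs_cast]
            rw [f3, f2, f1, abs_lt]
            constructor <;> omega
          have hdvd : (N : ℤ) ∣ (p.1 - p'.1) + ga m * (p.2 - p'.2) := by
            have : (p.1 - p'.1) + (ga m : ℤ) * (p.2 - p'.2) =
                (p.1 + ga m * p.2) - (p'.1 + ga m * p'.2) := by ring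
            rw [this]
            exact dvd_sub d1 d2
          have hdy : |p.2 - p'.2| < Y := by
            rw [abs_lt]
            constructor <;> omega
          have hKpos : (0 : ℤ) < K := by exact_mod_cast hK0
          have hKN' : 6 * (X : ℤ) * Y < K * N := by exact_mod_cast hKN
          have hYN' : (Y : ℤ) ≤ N := by exact_mod_cast hYN
          have hY' : (0 : ℤ) < Y := by exact_mod_cast hY
          have hX' : (0 : ℤ) < X := by exact_mod_cast hX
          have hN' : (0 : ℤ) < N := by exact_mod_cast hN
          -- dy = 0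
          have hdy0 : p.2 - p'.2 = 0 ∨ p.1 - p'.1 = 0 := by
            by_contra hcon
            push Not at hcon
            have hsep := sep_dual hdvd hcon.2 hcon.1
            -- N K ≤ 6 |dx| K |dy| < 6 X Y
            have g1 : (N : ℤ) * K ≤ 6 * ((|p.1 - p'.1| * K) * |p.2 - p'.2|) := by
              calc (N : ℤ) * K ≤ 6 * (|p.1 - p'.1| * |p.2 - p'.2|) * K :=
                    mul_le_mul_of_nonneg_right hsep hKpos.le
                _ = _ := by ring
            have g2 : (|p.1 - p'.1| * K) * |p.2 - p'.2| ≤ X * Y :=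
              mul_le_mul hclose.le hdy.le (abs_nonneg _) hX'.le
            nlinarith
          rcases hdy0 with hy0 | hx0
          · -- N ∣ dx, |dx| < N
            rw [hy0, mul_zero, add_zero] at hdvd
            have hdx : |p.1 - p'.1| < N := by
              by_contra hcon
              push Not at hcon
              have g1 : (N : ℤ) * K ≤ |p.1 - p'.1| * K := mul_le_mul_of_nonneg_right hcon hKpos.le
              nlinarith
            have := Int.eq_zero_of_abs_lt_dvd hdvd hdx
            ext
            · omega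
            · omega
          · rw [hx0, zero_add] at hdvd
            have hdvd2 : (N : ℤ) ∣ p.2 - p'.2 :=
              (coprime_ga m).symm.dvd_of_dvd_mul_left hdvd
            have := Int.eq_zero_of_abs_lt_dvd hdvd2 (lt_of_lt_of_le hdy hYN')
            ext
            · omega
            · omega
      simpa using this
    calc N * S.card ≤ N * K := Nat.mul_le_mul_left N hcard
      _ ≤ N + 6 * (X * Y) := by
          rw [hK, mul_add, mul_one]
          have := Nat.mul_div_le (6 * X * Y) N
          have e : 6 * X * Y = 6 * (X * Y) := by ring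
          omega
  · -- rows
    push Not at hYN
    have hcard : S.card ≤ X * (Y / N + 1) := by
      have : S.card ≤ (Finset.range X ×ˢ Finset.range (Y / N + 1)).card := by
        refine Finset.card_le_card_of_injOn
          (fun p => ((p.1 - x₀).toNat, (p.2 - y₀).toNat / N)) ?_ ?_
        · intro p hp
          obtain ⟨_, h1, h2, h3, h4⟩ := hS p hp
          rw [Finset.mem_coe, Finset.mem_product, Finset.mem_range, Finset.mem_range]
          constructor
          · simp only
            omega
          · simp only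
            have h5 : (p.2 - y₀).toNat ≤ Y := by omega
            exact Nat.lt_succ_of_le (Nat.div_le_div_right h5)
        · intro p hp p' hp' heq
          obtain ⟨d1, h1, h2, h3, h4⟩ := hS p hp
          obtain ⟨d2, h1', h2', h3', h4'⟩ := hS p' hp'
          simp only [Prod.mk.injEq] at heq
          obtain ⟨e1, e2⟩ := heq
          have hx : p.1 = p'.1 := by omega
          have hdvd : (N : ℤ) ∣ ga m * (p.2 - p'.2) := by
            have : (ga m : ℤ) * (p.2 - p'.2) =
                (p.1 + ga m * p.2) - (p'.1 + ga m * p'.2) := by rw [hx]; ring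
            rw [this]
            exact dvd_sub d1 d2
          have hdvd2 : (N : ℤ) ∣ p.2 - p'.2 := (coprime_ga m).symm.dvd_of_dvd_mul_left hdvd
          have hlt : |p.2 - p'.2| < N := by
            set u := (p.2 - y₀).toNat with hu
            set v := (p'.2 - y₀).toNat with hv
            have hu' : (u : ℤ) = p.2 - y₀ := by omega
            have hv' : (v : ℤ) = p'.2 - y₀ := by omega
            have q1 := Nat.div_add_mod u N
            have q2 := Nat.div_add_mod v N
            have l1 := Nat.mod_lt u hN
            have l2 := Nat.mod_lt v hN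
            rw [e2] at q1
            have f2 : p.2 - p'.2 = ((u % N : ℕ) : ℤ) - ((v % N : ℕ) : ℤ) := by
              have e1' : (u : ℤ) = ((N * (v / N) : ℕ) : ℤ) + ((u % N : ℕ) : ℤ) := by
                rw [← Nat.cast_add, q1]
              have e2' : (v : ℤ) = ((N * (v / N) : ℕ) : ℤ) + ((v % N : ℕ) : ℤ) := by
                rw [← Nat.cast_add, q2]
              have : p.2 - p'.2 = (u : ℤ) - v := by rw [hu', hv']; ring
              rw [this, e1', e2']
              ring
            rw [f2, abs_lt]
            constructor <;> omega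
          have := Int.eq_zero_of_abs_lt_dvd hdvd2 hlt
          ext
          · exact hx
          · omega
      simpa using this
    have h1 : N * (Y / N + 1) ≤ 2 * Y := by
      have := Nat.mul_div_le Y N
      nlinarith
    calc N * S.card ≤ N * (X * (Y / N + 1)) := Nat.mul_le_mul_left N hcard
      _ = X * (N * (Y / N + 1)) := by ring
      _ ≤ X * (2 * Y) := Nat.mul_le_mul_left X h1
      _ ≤ N + 6 * (X * Y) := by nlinarith

end Pool.Agent.Helper59.MixInt
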