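import Pool.Agent.Helper59.MixInt.Expect

/-!
# The fooling function
-/

open MeasureTheory UnitAddTorus Filter Topology Set
open scoped ENNReal

noncomputable section

namespace Pool.Agent.Helper59.MixInt

section norm

variable {d : ℕ}

theorem integrable_mFourier_mul {f : Tor d → ℝ} (hf : Continuous f) (h : Fin d → ℤ) :
    Integrable (fun x => mFourier h x * (f x : ℂ)) (unif d) := by
  have hc : Continuous fun x => mFourier h x * (f x : ℂ) :=
    (map_continuous (mFourier h)).mul (Complex.continuous_ofReal.comp hf)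
  obtain ⟨B, hB⟩ := IsCompact.exists_bound_of_continuousOn (isCompact_univ)
    hc.continuousOn
  exact integrable_of_bdd_complex hc.measurable (fun x => hB x (Set.mem_univ x))

theorem mFourierCoeff_sub {f g : Tor d → ℝ} (hf : Continuous f) (hg : Continuous g)
    (h : Fin d → ℤ) :
    mFourierCoeff (fun x => ((f x - g x : ℝ) : ℂ)) h =
      mFourierCoeff (fun x => (f x : ℂ)) h - mFourierCoeff (fun x => (g x : ℂ)) h := by
  simp only [mFourierCoeff_eq]
  rw [← integral_sub (integrable_mFourier_mul hf _) (integrable_mFourier_mul hg _)]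
  refine integral_congr_ae (Eventually.of_forall fun x => ?_)
  simp only
  push_cast
  ring

theorem mixNormSq_sub_le {k : ℝ} {f g : Tor d → ℝ} (hf : Continuous f) (hg : Continuous g) :
    mixNormSq k (fun x => f x - g x) ≤ 2 * (mixNormSq k f + mixNormSq k g) := by
  unfold mixNormSq
  rw [← ENNReal.tsum_add, ← ENNReal.tsum_mul_left]
  refine ENNReal.tsum_le_tsum fun h => ?_
  rw [mFourierCoeff_sub hf hg]
  set a := mFourierCoeff (fun x => (f x : ℂ)) h
  set b := mFourierCoeff (fun x => (g x : ℂ)) h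
  set w := ∏ j, (1 + (h j : ℝ) ^ 2) ^ k with hw
  have hw0 : 0 ≤ w := Finset.prod_nonneg fun j _ => by positivity
  have h2 : (2 : ℝ≥0∞) = ENNReal.ofReal 2 := by simp
  rw [h2, ← ENNReal.ofReal_add (by positivity) (by positivity),
    ← ENNReal.ofReal_mul (by norm_num)]
  apply ENNReal.ofReal_le_ofReal
  have h3 : ‖a - b‖ ^ 2 ≤ 2 * (‖a‖ ^ 2 + ‖b‖ ^ 2) := by
    have h4 := norm_sub_le a b
    have h5 : ‖a - b‖ ^ 2 ≤ (‖a‖ + ‖b‖) ^ 2 := pow_le_pow_left₀ (norm_nonneg _) h4 2
    nlinarith [sq_nonneg (‖a‖ - ‖b‖)]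
  nlinarith

theorem integ_eq_coeff (f : Tor d → ℝ) :
    (integ f : ℂ) = mFourierCoeff (fun x => (f x : ℂ)) 0 := by
  rw [mFourierCoeff_eq, integ, ← integral_complex_ofReal]
  refine integral_congr_ae (Eventually.of_forall fun x => ?_)
  simp only [neg_zero, mFourier_zero_left, one_mul]

theorem mixNormSq_one (k : ℝ) : mixNormSq k (fun _ : Tor d => (1 : ℝ)) = 1 := by
  unfold mixNormSq
  have h1 : ∀ h : Fin d → ℤ, mFourierCoeff (fun _ : Tor d => ((1 : ℝ) : ℂ)) h =
      if h = 0 then 1 else 0 := by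
    intro h
    have := mFourierCoeff_trig ({0} : Finset (Fin d → ℤ)) (fun _ => 1) h
    simp only [Finset.sum_singleton, mFourier_zero_left, Finset.mem_singleton, one_mul] at this
    simpa using this
  rw [tsum_eq_single 0]
  · rw [h1 0, if_pos rfl]
    simp
  · intro h hh
    rw [h1 h, if_neg hh]
    simp

end norm

variable {n : ℕ}

/-- The first approximation. -/
def gg (r : ℕ) (P : Fin n → Tor 2) (x : Tor 2) : ℝ := (∑ i, KK r (x - P i)) / (Lam r).card

theorem continuous_gg (r : ℕ) (P : Fin n → Tor 2) : Continuous (gg r P) := by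
  unfold gg
  refine Continuous.div_const ?_ _
  refine continuous_finsetSum _ fun i _ => ?_
  exact (continuous_KK r).comp (by fun_prop)

theorem gg_ofReal (r : ℕ) (P : Fin n → Tor 2) (x : Tor 2) :
    (gg r P x : ℂ) = ∑ h ∈ Lam r, cc r P h * mFourier h x := by
  unfold gg cc
  push_cast
  simp only [KK_ofReal]
  rw [Finset.sum_comm, Finset.sum_div]
  refine Finset.sum_congr rfl fun h _ => ?_
  have : ∀ i ∈ Finset.univ, mFourier h (x - P i) = mFourier (-h) (P i) * mFourier h x := by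
    intro i _
    rw [mFourier_sub_apply]
    ring
  rw [Finset.sum_congr rfl this, ← Finset.sum_mul]
  ring

theorem mFourierCoeff_gg (r : ℕ) (P : Fin n → Tor 2) (h : Fin 2 → ℤ) :
    mFourierCoeff (fun x => (gg r P x : ℂ)) h = if h ∈ Lam r then cc r P h else 0 := by
  simp only [gg_ofReal]
  exact mFourierCoeff_trig (Lam r) (cc r P) h

theorem integ_gg (r : ℕ) (P : Fin n → Tor 2) : integ (gg r P) = 0 := by
  have h1 := integ_eq_coeff (gg r P)
  rw [mFourierCoeff_gg, if_neg (zero_notMem_Lam r)] at h1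
  exact_mod_cast h1

theorem mixNormSq_gg_le {k : ℝ} (hk : 0 ≤ k) (r : ℕ) (P : Fin n → Tor 2) :
    mixNormSq k (gg r P) ≤ ENNReal.ofReal ((4 * (r : ℝ) ^ 2) ^ k * X1 r P) := by
  unfold mixNormSq
  rw [tsum_eq_sum (s := Lam r)]
  · unfold X1
    rw [Finset.mul_sum, ENNReal.ofReal_sum_of_nonneg (fun h _ => by positivity)]
    refine Finset.sum_le_sum fun h hh => ENNReal.ofReal_le_ofReal ?_
    rw [mFourierCoeff_gg, if_pos hh, mul_comm]
    exact mul_le_mul_of_nonneg_right (weight_le hh hk) (by positivity)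
  · intro h hh
    rw [mFourierCoeff_gg, if_neg hh]
    simp

theorem gg_apply {r : ℕ} (hR : 0 < (Lam r).card) (P : Fin n → Tor 2) (j : Fin n) :
    gg r P (P j) = 1 - ee r P j := by
  have hR' : ((Lam r).card : ℝ) ≠ 0 := by positivity
  unfold gg ee
  rw [← Finset.sum_erase_add _ _ (Finset.mem_univ j), sub_self, KK_zero]
  field_simp
  ring

/-- The level of a point. -/
def lev (P : Fin n → Tor 2) (m₀ : ℕ) (i : Fin n) : ℕ := sInf {m | m₀ ≤ m ∧ ¬ bad P i m}

section fixed

variable {P : Fin n → Tor 2} {m₀ M : ℕ}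

theorem lev_mem (hM : ∀ i, ¬ bad P i M) (hm : m₀ ≤ M) (i : Fin n) :
    m₀ ≤ lev P m₀ i ∧ ¬ bad P i (lev P m₀ i) :=
  Nat.sInf_mem (s := {m | m₀ ≤ m ∧ ¬ bad P i m}) ⟨M, hm, hM i⟩

theorem lev_le (hM : ∀ i, ¬ bad P i M) (hm : m₀ ≤ M) (i : Fin n) : lev P m₀ i ≤ M :=
  Nat.sInf_le (show M ∈ {m | m₀ ≤ m ∧ ¬ bad P i m} from ⟨hm, hM i⟩)

theorem lev_le_VV (hM : ∀ i, ¬ bad P i M) (hm : m₀ ≤ M) (q : ℝ) (i : Fin n) :
    ((2 : ℝ) ^ lev P m₀ i) ^ q ≤ VV q m₀ M P i := by
  unfold VV
  have hnn : ∀ m ∈ Finset.Ico m₀ M, 0 ≤ ((2 : ℝ) ^ (m + 1)) ^ q * badI P i m := fun m _ =>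
    mul_nonneg (by positivity) (badI_nonneg _ _ _)
  rcases Nat.eq_or_lt_of_le (lev_mem hM hm i).1 with h | h
  · rw [← h]
    have := Finset.sum_nonneg hnn
    linarith
  · obtain ⟨m, hm'⟩ : ∃ m, lev P m₀ i = m + 1 := ⟨lev P m₀ i - 1, by omega⟩
    have h1 : m ∈ Finset.Ico m₀ M := by
      rw [Finset.mem_Ico]
      have := lev_le hM hm i
      omega
    have h2 : bad P i m := by
      by_contra hcon
      have : lev P m₀ i ≤ m :=
        Nat.sInf_le (show m ∈ {m | m₀ ≤ m ∧ ¬ bad P i m} from ⟨by omega, hcon⟩)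
      omega
    have h3 : badI P i m = 1 := by
      unfold badI
      rw [if_pos h2]
    have h4 := Finset.single_le_sum hnn h1
    rw [h3, mul_one, ← hm'] at h4
    have h5 : 0 ≤ ((2 : ℝ) ^ m₀) ^ q := by positivity
    linarith

/-- the isolating shapes that are used for the point `i` -/
def AA (P : Fin n → Tor 2) (m₀ : ℕ) (i : Fin n) : Finset (ℕ × ℕ) := iso P i (lev P m₀ i)

theorem card_AA (hM : ∀ i, ¬ bad P i M) (hm : m₀ ≤ M) (i : Fin n) :
    ((m₀ : ℝ) + 1) / 2 ≤ (AA P m₀ i).card := by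
  have h1 := (lev_mem hM hm i).2
  have h0 := (lev_mem hM hm i).1
  unfold bad at h1
  push Not at h1
  have h2 : m₀ + 1 ≤ 2 * (AA P m₀ i).card := by
    unfold AA
    omega
  have h3 : ((m₀ : ℝ) + 1) ≤ 2 * (AA P m₀ i).card := by exact_mod_cast h2
  linarith

theorem mem_AA {i : Fin n} {s : ℕ × ℕ} (hs : s ∈ AA P m₀ i) :
    s.1 + s.2 = lev P m₀ i ∧ ∀ j, j ≠ i → ¬ near s.1 s.2 (P i) (P j) := by
  simp only [AA, iso, Finset.mem_filter] at hs
  exact ⟨mem_shapes.1 hs.1, hs.2⟩

/-- weight of the bumps at the point `i` -/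
def ww (r : ℕ) (P : Fin n → Tor 2) (m₀ : ℕ) (i : Fin n) : ℝ := ee r P i / (AA P m₀ i).card

open Classical in
/-- points using the shape `s` -/
def II (P : Fin n → Tor 2) (m₀ : ℕ) (s : ℕ × ℕ) : Finset (Fin n) :=
  Finset.univ.filter fun i => s ∈ AA P m₀ i

/-- all shapes -/
def SS (M : ℕ) : Finset (ℕ × ℕ) := Finset.range (M + 1) ×ˢ Finset.range (M + 1)

theorem AA_subset (hM : ∀ i, ¬ bad P i M) (hm : m₀ ≤ M) (i : Fin n) : AA P m₀ i ⊆ SS M := by
  intro s hs
  have h1 := (mem_AA hs).1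
  have h2 := lev_le hM hm i
  unfold SS
  rw [Finset.mem_product, Finset.mem_range, Finset.mem_range]
  omega

/-- The correction. -/
def corr (r : ℕ) (P : Fin n → Tor 2) (m₀ M : ℕ) (x : Tor 2) : ℝ :=
  ∑ s ∈ SS M, bsum (II P m₀ s) (ww r P m₀) P (hat s.1) (hat s.2) x

theorem continuous_prod2_hat (a b : ℕ) (c : Tor 2) : Continuous (prod2 (hat a) (hat b) c) := by
  unfold prod2
  refine Continuous.mul ?_ ?_
  · exact (continuous_hat a).comp (by fun_prop)
  · exact (continuous_hat b).comp (by fun_prop)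

theorem continuous_corr (r : ℕ) (P : Fin n → Tor 2) (m₀ M : ℕ) : Continuous (corr r P m₀ M) := by
  unfold corr bsum
  refine continuous_finsetSum _ fun s _ => continuous_finsetSum _ fun i _ => ?_
  exact continuous_const.mul (continuous_prod2_hat _ _ _)

/-- Reordering of sums. -/
theorem sum_SS_II {β : Type*} [AddCommMonoid β] (hM : ∀ i, ¬ bad P i M) (hm : m₀ ≤ M)
    (F : ℕ × ℕ → Fin n → β) :
    ∑ s ∈ SS M, ∑ i ∈ II P m₀ s, F s i = ∑ i, ∑ s ∈ AA P m₀ i, F s i := by
  classical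
  have h1 : ∀ s ∈ SS M, ∑ i ∈ II P m₀ s, F s i =
      ∑ i, if s ∈ AA P m₀ i then F s i else 0 := by
    intro s _
    unfold II
    rw [Finset.sum_filter]
  rw [Finset.sum_congr rfl h1, Finset.sum_comm]
  refine Finset.sum_congr rfl fun i _ => ?_
  rw [← Finset.sum_filter]
  congr 1
  ext s
  simp only [Finset.mem_filter]
  exact ⟨fun h => h.2, fun h => ⟨AA_subset hM hm i h, h⟩⟩

theorem corr_apply (hM : ∀ i, ¬ bad P i M) (hm : m₀ ≤ M) (r : ℕ) (j : Fin n) :
    corr r P m₀ M (P j) = ee r P j := by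
  unfold corr bsum
  rw [sum_SS_II hM hm (fun s i => ww r P m₀ i * prod2 (hat s.1) (hat s.2) (P i) (P j)),
    Finset.sum_eq_single j]
  · have h1 : ∀ s ∈ AA P m₀ j, ww r P m₀ j * prod2 (hat s.1) (hat s.2) (P j) (P j) =
        ww r P m₀ j := by
      intro s _
      unfold prod2
      rw [sub_self, sub_self, hat_zero, hat_zero]
      ring
    rw [Finset.sum_congr rfl h1, Finset.sum_const, nsmul_eq_mul]
    unfold ww
    have h2 := card_AA hM hm j
    have h3 : (0 : ℝ) < (AA P m₀ j).card := by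
      have : (0 : ℝ) < ((m₀ : ℝ) + 1) / 2 := by positivity
      linarith
    field_simp
  · intro i _ hij
    refine Finset.sum_eq_zero fun s hs => ?_
    have h1 := (mem_AA hs).2 j hij.symm
    have h2 : prod2 (hat s.1) (hat s.2) (P i) (P j) = 0 := by
      unfold near at h1
      rw [not_and_or] at h1
      unfold prod2
      have key : ∀ (a : ℕ) (x y : UnitAddCircle), ¬ ‖x - y‖ ≤ 1 / 2 ^ a → hat a (y - x) = 0 := by
        intro a x y hxy
        apply hat_eq_zero
        rw [← norm_neg, neg_sub]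
        push Not at hxy
        refine le_trans ?_ hxy.le
        apply one_div_le_one_div_of_le (by positivity)
        exact pow_le_pow_right₀ (by norm_num) (by omega)
      rcases h1 with h1 | h1
      · rw [key _ _ _ h1, zero_mul]
      · rw [key _ _ _ h1, mul_zero]
    rw [h2, mul_zero]
  · simp

theorem sep_II (s : ℕ × ℕ) : ∀ i ∈ II P m₀ s, ∀ j ∈ II P m₀ s, i ≠ j →
    ¬ near s.1 s.2 (P i) (P j) := by
  classical
  intro i hi j _ hij
  unfold II at hi
  rw [Finset.mem_filter] at hi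
  exact (mem_AA hi.2).2 j hij.symm

theorem mixNormSq_corr_le {k : ℝ} (hk : 1 / 2 < k) (hk1 : k < 1)
    (hM : ∀ i, ¬ bad P i M) (hm : m₀ ≤ M) (r : ℕ) :
    mixNormSq k (corr r P m₀ M) ≤
      ENNReal.ofReal (200 * CS k ^ 2 / (m₀ + 1) * X2 r (2 * k - 1) m₀ M P) := by
  refine (mixNormSq_shapes_le hk hk1 (SS M) (II P m₀) (fun _ => ww r P m₀) P
    (fun s _ => sep_II s)).trans (ENNReal.ofReal_le_ofReal ?_)
  have h1 : ∑ s ∈ SS M, ((4 : ℝ) ^ (s.1 + s.2)) ^ k *
        (1 / 2 ^ (s.1 + s.2) * ∑ i ∈ II P m₀ s, ww r P m₀ i ^ 2) =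
      ∑ i, ∑ s ∈ AA P m₀ i, ((4 : ℝ) ^ (s.1 + s.2)) ^ k * (1 / 2 ^ (s.1 + s.2)) *
        ww r P m₀ i ^ 2 := by
    rw [← sum_SS_II hM hm]
    refine Finset.sum_congr rfl fun s _ => ?_
    rw [Finset.mul_sum, Finset.mul_sum]
    refine Finset.sum_congr rfl fun i _ => ?_
    ring
  rw [h1]
  have h2 : ∀ i, ∑ s ∈ AA P m₀ i, ((4 : ℝ) ^ (s.1 + s.2)) ^ k * (1 / 2 ^ (s.1 + s.2)) *
      ww r P m₀ i ^ 2 ≤ 2 / (m₀ + 1) * (ee r P i ^ 2 * VV (2 * k - 1) m₀ M P i) := by
    intro i
    have hcard := card_AA hM hm i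
    have hc0 : (0 : ℝ) < (AA P m₀ i).card := by
      have : (0 : ℝ) < ((m₀ : ℝ) + 1) / 2 := by positivity
      linarith
    have h3 : ∀ s ∈ AA P m₀ i, ((4 : ℝ) ^ (s.1 + s.2)) ^ k * (1 / 2 ^ (s.1 + s.2)) *
        ww r P m₀ i ^ 2 = ((2 : ℝ) ^ lev P m₀ i) ^ (2 * k - 1) * ww r P m₀ i ^ 2 := by
      intro s hs
      rw [(mem_AA hs).1]
      congr 1
      have h4 : (0 : ℝ) < 2 ^ lev P m₀ i := by positivity
      have h5 : (4 : ℝ) ^ lev P m₀ i = ((2 : ℝ) ^ lev P m₀ i) ^ (2 : ℝ) := by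
        rw [Real.rpow_two, ← pow_mul, mul_comm, pow_mul]
        norm_num
      rw [h5, ← Real.rpow_mul h4.le, Real.rpow_sub h4, Real.rpow_one]
      ring
    rw [Finset.sum_congr rfl h3, Finset.sum_const, nsmul_eq_mul]
    have h6 := lev_le_VV hM hm (2 * k - 1) i
    have h7 : ((AA P m₀ i).card : ℝ) * (((2 : ℝ) ^ lev P m₀ i) ^ (2 * k - 1) * ww r P m₀ i ^ 2) =
        1 / (AA P m₀ i).card * (ee r P i ^ 2 * ((2 : ℝ) ^ lev P m₀ i) ^ (2 * k - 1)) := by
      unfold ww
      field_simp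
    rw [h7]
    have h8 : 1 / ((AA P m₀ i).card : ℝ) ≤ 2 / (m₀ + 1) := by
      rw [div_le_div_iff₀ hc0 (by positivity)]
      linarith
    apply mul_le_mul h8 _ (by positivity) (by positivity)
    exact mul_le_mul_of_nonneg_left h6 (sq_nonneg _)
  have h3 : ∑ i, ∑ s ∈ AA P m₀ i, ((4 : ℝ) ^ (s.1 + s.2)) ^ k * (1 / 2 ^ (s.1 + s.2)) *
      ww r P m₀ i ^ 2 ≤ 2 / (m₀ + 1) * X2 r (2 * k - 1) m₀ M P := by
    refine (Finset.sum_le_sum fun i _ => h2 i).trans (le_of_eq ?_)
    rw [← Finset.mul_sum]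
    rfl
  have hCS : 0 ≤ 100 * CS k ^ 2 := by positivity
  refine (mul_le_mul_of_nonneg_left h3 hCS).trans (le_of_eq ?_)
  ring

theorem abs_integral_prod2_le (a b : ℕ) (c : Tor 2) :
    |∫ x, prod2 (hat a) (hat b) c x ∂(unif 2)| ≤ 1 / 2 ^ (a + b) := by
  have hm : MeasurableSet (box a b c) := measurableSet_rect _ _ _
  have h1 : ∀ x, |prod2 (hat a) (hat b) c x| ≤ (box a b c).indicator (fun _ => (1 : ℝ)) x := by
    intro x
    by_cases hx : x ∈ box a b c
    · rw [Set.indicator_of_mem hx]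
      have := abs_prod2_le (prof_hat a).bdd (prof_hat b).bdd c x
      linarith
    · rw [Set.indicator_of_notMem hx]
      have : prod2 (hat a) (hat b) c x = 0 := by
        unfold prod2
        by_contra hne
        apply hx
        constructor
        · by_contra hcon
          exact hne (by rw [(prof_hat a).supp _ (not_le.1 hcon), zero_mul])
        · by_contra hcon
          exact hne (by rw [(prof_hat b).supp _ (not_le.1 hcon), mul_zero])
      rw [this, abs_zero]
  calc |∫ x, prod2 (hat a) (hat b) c x ∂(unif 2)|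
      ≤ ∫ x, |prod2 (hat a) (hat b) c x| ∂(unif 2) := abs_integral_le_integral_abs
    _ ≤ ∫ x, (box a b c).indicator (fun _ => (1 : ℝ)) x ∂(unif 2) := by
        refine integral_mono_of_nonneg (Eventually.of_forall fun x => abs_nonneg _) ?_
          (Eventually.of_forall h1)
        exact (integrable_const (1 : ℝ)).indicator hm
    _ = (unif 2).real (box a b c) := by
        rw [integral_indicator hm]
        simp [Measure.real]
    _ ≤ 4 * (1 / 2 ^ (a + 1) * (1 / 2 ^ (b + 1))) :=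
        ENNReal.toReal_le_of_le_ofReal (by positivity) (unif_rect_le _ (by positivity))
    _ = 1 / 2 ^ (a + b) := by
        rw [pow_succ, pow_succ, pow_add]
        field_simp
        norm_num

theorem abs_integ_corr_le (hM : ∀ i, ¬ bad P i M) (hm : m₀ ≤ M) (r : ℕ) :
    |integ (corr r P m₀ M)| ≤ 1 / 2 ^ m₀ * ∑ i, |ee r P i| := by
  have h1 : integ (corr r P m₀ M) =
      ∑ i, ∑ s ∈ AA P m₀ i, ww r P m₀ i * ∫ x, prod2 (hat s.1) (hat s.2) (P i) x ∂(unif 2) := by
    rw [← sum_SS_II hM hm]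
    unfold integ corr bsum
    have hint : ∀ (s : ℕ × ℕ) (i : Fin n), Integrable
        (fun x => ww r P m₀ i * prod2 (hat s.1) (hat s.2) (P i) x) (unif 2) := fun s i =>
      (integrable_of_bdd (continuous_prod2_hat _ _ _).measurable
        (abs_prod2_le (prof_hat s.1).bdd (prof_hat s.2).bdd (P i))).const_mul _
    rw [integral_finsetSum _ fun s _ => integrable_finsetSum _ fun i _ => hint s i]
    refine Finset.sum_congr rfl fun s _ => ?_
    rw [integral_finsetSum _ fun i _ => hint s i]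
    refine Finset.sum_congr rfl fun i _ => ?_
    rw [integral_const_mul]
  rw [h1]
  calc |∑ i, ∑ s ∈ AA P m₀ i, ww r P m₀ i * ∫ x, prod2 (hat s.1) (hat s.2) (P i) x ∂(unif 2)|
      ≤ ∑ i, ∑ s ∈ AA P m₀ i, |ww r P m₀ i *
          ∫ x, prod2 (hat s.1) (hat s.2) (P i) x ∂(unif 2)| := by
        refine (Finset.abs_sum_le_sum_abs _ _).trans (Finset.sum_le_sum fun i _ => ?_)
        exact Finset.abs_sum_le_sum_abs _ _
    _ ≤ ∑ i, ∑ s ∈ AA P m₀ i, |ww r P m₀ i| * (1 / 2 ^ m₀) := by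
        refine Finset.sum_le_sum fun i _ => Finset.sum_le_sum fun s hs => ?_
        rw [abs_mul]
        apply mul_le_mul_of_nonneg_left _ (abs_nonneg _)
        refine (abs_integral_prod2_le s.1 s.2 (P i)).trans ?_
        apply one_div_le_one_div_of_le (by positivity)
        apply pow_le_pow_right₀ (by norm_num)
        rw [(mem_AA hs).1]
        exact (lev_mem hM hm i).1
    _ = ∑ i, |ee r P i| * (1 / 2 ^ m₀) := by
        refine Finset.sum_congr rfl fun i _ => ?_
        have hcard := card_AA hM hm i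
        have hc0 : (0 : ℝ) < (AA P m₀ i).card := by
          have : (0 : ℝ) < ((m₀ : ℝ) + 1) / 2 := by positivity
          linarith
        rw [Finset.sum_const, nsmul_eq_mul]
        unfold ww
        rw [abs_div, abs_of_pos hc0]
        field_simp
    _ = _ := by
        rw [← Finset.sum_mul]
        ring

end fixed

theorem ofReal_aux {a b : ℝ} (ha : 0 ≤ a) (hb : 0 ≤ b) :
    2 * (2 * (1 + ENNReal.ofReal a) + ENNReal.ofReal b) =
      ENNReal.ofReal (2 * (2 * (1 + a) + b)) := by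
  have e2 : (2 : ℝ≥0∞) = ENNReal.ofReal 2 := by simp
  rw [ENNReal.ofReal_mul (by norm_num), ENNReal.ofReal_add (by positivity) hb,
    ENNReal.ofReal_mul (by norm_num), ENNReal.ofReal_add (by norm_num) ha,
    ENNReal.ofReal_one, ← e2]

/-- The fooling function. -/
theorem fool {k : ℝ} (hk : 1 / 2 < k) (hk1 : k < 1) {r m₀ M : ℕ} (hn : 0 < n)
    (hm : m₀ ≤ M) (hnm : n ≤ 2 ^ (m₀ + 1)) (hR : 144 * n ≤ (Lam r).card)
    {P : Fin n → Tor 2} (hP : P ∈ Good n r (2 * k - 1) m₀ M) :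
    ∃ f : Tor 2 → ℝ, Continuous f ∧ (∀ i, f (P i) = 0) ∧ 1 / 2 ≤ integ f ∧
      mixNormSq k f ≤ ENNReal.ofReal (4 + 36 * ((4 * (r : ℝ) ^ 2) ^ k * (n / (Lam r).card)) +
        3600 * CS k ^ 2 / (m₀ + 1) * B2 n r (2 * k - 1) m₀ M) := by
  obtain ⟨hX1, hX2, hX3, hM⟩ := hP
  have hn' : (0 : ℝ) < n := by exact_mod_cast hn
  have hR0 : 0 < (Lam r).card := by omega
  have hR0' : (0 : ℝ) < (Lam r).card := by exact_mod_cast hR0
  have hR' : (144 : ℝ) * n ≤ (Lam r).card := by exact_mod_cast hR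
  have hc1 : Continuous fun _ : Tor 2 => (1 : ℝ) := continuous_const
  have hcg := continuous_gg r P
  have hcC := continuous_corr r P m₀ M
  have hc1g : Continuous fun x => (1 : ℝ) - gg r P x := hc1.sub hcg
  refine ⟨fun x => (1 - gg r P x) - corr r P m₀ M x, hc1g.sub hcC, ?_, ?_, ?_⟩
  · intro i
    simp only
    rw [gg_apply hR0, corr_apply hM hm]
    ring
  · have hint : ∀ {f : Tor 2 → ℝ}, Continuous f → Integrable f (unif 2) := by
      intro f hf
      obtain ⟨B, hB⟩ := IsCompact.exists_bound_of_continuousOn (isCompact_univ) hf.continuousOn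
      exact integrable_of_bdd hf.measurable (fun x => by simpa using hB x (Set.mem_univ x))
    have h1 : integ (fun x => (1 - gg r P x) - corr r P m₀ M x) =
        1 - integ (corr r P m₀ M) := by
      have hg0 := integ_gg r P
      unfold integ at hg0 ⊢
      rw [integral_sub (hint hc1g) (hint hcC), integral_sub (hint hc1) (hint hcg), hg0]
      simp
    rw [h1]
    have h2 := abs_integ_corr_le hM hm r
    have h3 : (∑ i, |ee r P i|) ^ 2 ≤ n * X3 r P := by
      have h4 := Finset.sum_mul_sq_le_sq_mul_sq Finset.univ (fun _ : Fin n => (1 : ℝ))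
        (fun i => |ee r P i|)
      simp only [one_mul, one_pow, Finset.sum_const, Finset.card_univ, Fintype.card_fin,
        nsmul_eq_mul, mul_one, sq_abs] at h4
      exact h4
    have h4 : (∑ i, |ee r P i|) ^ 2 ≤ (n / 4) ^ 2 := by
      have h5 : (n : ℝ) / (Lam r).card ≤ 1 / 144 := by
        rw [div_le_div_iff₀ hR0' (by norm_num)]
        linarith
      calc (∑ i, |ee r P i|) ^ 2 ≤ n * X3 r P := h3
        _ ≤ n * (9 * (n * (n / (Lam r).card))) := mul_le_mul_of_nonneg_left hX3 hn'.le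
        _ ≤ n * (9 * (n * (1 / 144))) := by gcongr
        _ = (n / 4) ^ 2 := by ring
    have h5 : ∑ i, |ee r P i| ≤ n / 4 :=
      le_of_sq_le_sq h4 (by positivity)
    have h6 : (n : ℝ) ≤ 2 * 2 ^ m₀ := by
      have : (n : ℝ) ≤ 2 ^ (m₀ + 1) := by exact_mod_cast hnm
      rw [pow_succ] at this
      linarith
    have h7 : 1 / 2 ^ m₀ * ∑ i, |ee r P i| ≤ 1 / 2 := by
      have h8 : (0 : ℝ) < 2 ^ m₀ := by positivity
      rw [one_div, inv_mul_le_iff₀ h8]
      linarith
    have h8 := le_abs_self (integ (corr r P m₀ M))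
    linarith
  · have h1 := mixNormSq_sub_le (k := k) hc1g hcC
    have h2 := mixNormSq_sub_le (k := k) hc1 hcg
    have h3 := mixNormSq_gg_le (k := k) (by linarith) r P
    have h4 := mixNormSq_corr_le hk hk1 hM hm r
    rw [mixNormSq_one] at h2
    have hCS := CS_pos hk1
    have hB2 : 0 ≤ B2 n r (2 * k - 1) m₀ M := by
      unfold B2
      apply mul_nonneg hn'.le
      apply add_nonneg (by positivity)
      exact Finset.sum_nonneg fun m _ => by positivity
    have e3 : (4 * (r : ℝ) ^ 2) ^ k * X1 r P ≤ (4 * (r : ℝ) ^ 2) ^ k * (9 * (n / (Lam r).card)) :=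
      mul_le_mul_of_nonneg_left hX1 (by positivity)
    have e4 : 200 * CS k ^ 2 / (m₀ + 1) * X2 r (2 * k - 1) m₀ M P ≤
        200 * CS k ^ 2 / (m₀ + 1) * (9 * B2 n r (2 * k - 1) m₀ M) :=
      mul_le_mul_of_nonneg_left hX2 (by positivity)
    calc mixNormSq k (fun x => (1 - gg r P x) - corr r P m₀ M x)
        ≤ 2 * (2 * (1 + ENNReal.ofReal ((4 * (r : ℝ) ^ 2) ^ k * (9 * (n / (Lam r).card)))) +
            ENNReal.ofReal (200 * CS k ^ 2 / (m₀ + 1) * (9 * B2 n r (2 * k - 1) m₀ M))) := by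
          refine h1.trans ?_
          gcongr
          · refine h2.trans ?_
            gcongr
            exact h3.trans (ENNReal.ofReal_le_ofReal e3)
          · exact h4.trans (ENNReal.ofReal_le_ofReal e4)
      _ = ENNReal.ofReal (2 * (2 * (1 + (4 * (r : ℝ) ^ 2) ^ k * (9 * (n / (Lam r).card))) +
            200 * CS k ^ 2 / (m₀ + 1) * (9 * B2 n r (2 * k - 1) m₀ M))) := by
          apply ofReal_aux <;> positivity
      _ = _ := by
          congr 1
          ring

end Pool.Agent.Helper59.MixInt
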