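import Pool.Agent.Helper59.MixInt.Defs

/-!
# Hat functions on the circle and their derivatives
-/

open MeasureTheory UnitAddTorus Filter Topology Set
open scoped ENNReal

noncomputable section

namespace Pool.Agent.Helper59.MixInt

/-- hat function of half-width `2^{-(a+1)}` on the real line -/
def hatR (a : ℕ) (x : ℝ) : ℝ := max 0 (1 - 2 ^ (a + 1) * |x|)

/-- its right derivative -/
def dhatR (a : ℕ) (x : ℝ) : ℝ :=
  if x < -(1 / 2 ^ (a + 1)) ∨ 1 / 2 ^ (a + 1) ≤ x then 0
  else if x < 0 then 2 ^ (a + 1) else -2 ^ (a + 1)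

/-- hat function on the circle -/
def hat (a : ℕ) (t : UnitAddCircle) : ℝ := max 0 (1 - 2 ^ (a + 1) * ‖t‖)

/-- its derivative on the circle -/
def dhat (a : ℕ) : UnitAddCircle → ℝ := AddCircle.liftIoc 1 (-(1 / 2)) (dhatR a)

theorem norm_coe_of_mem {x : ℝ} (hx : x ∈ Ioc (-(1 / 2) : ℝ) (-(1 / 2) + 1)) :
    ‖(x : UnitAddCircle)‖ = |x| := by
  rw [AddCircle.norm_coe_eq_abs_iff 1 one_ne_zero]
  rw [abs_one, abs_le]
  constructor
  · linarith [hx.1]
  · linarith [hx.2]

theorem exists_rep (t : UnitAddCircle) :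
    ∃ x ∈ Ioc (-(1 / 2) : ℝ) (-(1 / 2) + 1), (x : UnitAddCircle) = t := by
  refine ⟨(AddCircle.equivIoc 1 (-(1 / 2)) t : ℝ), (AddCircle.equivIoc 1 (-(1 / 2)) t).2, ?_⟩
  exact (AddCircle.equivIoc 1 (-(1 / 2))).symm_apply_apply t

theorem hat_coe {a : ℕ} {x : ℝ} (hx : x ∈ Ioc (-(1 / 2) : ℝ) (-(1 / 2) + 1)) :
    hat a (x : UnitAddCircle) = hatR a x := by
  unfold hat hatR
  rw [norm_coe_of_mem hx]

theorem dhat_coe {a : ℕ} {x : ℝ} (hx : x ∈ Ioc (-(1 / 2) : ℝ) (-(1 / 2) + 1)) :
    dhat a (x : UnitAddCircle) = dhatR a x := by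
  unfold dhat
  exact AddCircle.liftIoc_coe_apply hx

theorem continuous_hat (a : ℕ) : Continuous (hat a) := by
  unfold hat
  fun_prop

theorem hat_nonneg (a : ℕ) (t : UnitAddCircle) : 0 ≤ hat a t := le_max_left _ _

theorem hat_le_one (a : ℕ) (t : UnitAddCircle) : hat a t ≤ 1 := by
  unfold hat
  apply max_le (by norm_num)
  have : 0 ≤ (2 : ℝ) ^ (a + 1) * ‖t‖ := by positivity
  linarith

theorem hat_zero (a : ℕ) : hat a 0 = 1 := by
  unfold hat
  simp

theorem hat_eq_zero {a : ℕ} {t : UnitAddCircle} (ht : 1 / 2 ^ (a + 1) ≤ ‖t‖) : hat a t = 0 := by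
  unfold hat
  apply max_eq_left
  have h2 : (0 : ℝ) < 2 ^ (a + 1) := by positivity
  rw [div_le_iff₀ h2] at ht
  linarith

theorem abs_dhat_le (a : ℕ) (t : UnitAddCircle) : |dhat a t| ≤ 2 ^ (a + 1) := by
  obtain ⟨x, hx, rfl⟩ := exists_rep t
  rw [dhat_coe hx]
  unfold dhatR
  have h2 : (0 : ℝ) < 2 ^ (a + 1) := by positivity
  split_ifs
  · simp
  · rw [abs_of_pos h2]
  · rw [abs_neg, abs_of_pos h2]

theorem dhat_eq_zero {a : ℕ} {t : UnitAddCircle} (ht : 1 / 2 ^ (a + 1) < ‖t‖) :
    dhat a t = 0 := by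
  obtain ⟨x, hx, rfl⟩ := exists_rep t
  rw [norm_coe_of_mem hx] at ht
  rw [dhat_coe hx]
  unfold dhatR
  rw [if_pos]
  by_contra hcon
  push Not at hcon
  have : |x| ≤ 1 / 2 ^ (a + 1) := by
    rw [abs_le]
    exact ⟨hcon.1, hcon.2.le⟩
  linarith

theorem measurable_dhatR (a : ℕ) : Measurable (dhatR a) := by
  unfold dhatR
  refine Measurable.ite ?_ measurable_const (Measurable.ite ?_ measurable_const measurable_const)
  · exact (measurableSet_lt measurable_id measurable_const).union
      (measurableSet_le measurable_const measurable_id)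
  · exact measurableSet_lt measurable_id measurable_const

theorem measurable_dhat (a : ℕ) : Measurable (dhat a) := by
  have : dhat a = fun t => dhatR a ((AddCircle.measurableEquivIoc 1 (-(1 / 2)) t : ℝ)) := rfl
  rw [this]
  exact (measurable_dhatR a).comp
    (measurable_subtype_coe.comp (AddCircle.measurableEquivIoc 1 (-(1 / 2))).measurable)

theorem hatR_hasDeriv (a : ℕ) (x : ℝ) : HasDerivWithinAt (hatR a) (dhatR a x) (Ioi x) x := by
  set N : ℝ := 2 ^ (a + 1) with hN
  have hN0 : 0 < N := by positivity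
  have hinv : N * (1 / N) = 1 := by field_simp
  by_cases h1 : x < -(1 / N)
  · have : dhatR a x = 0 := by
      unfold dhatR
      rw [if_pos (Or.inl h1)]
    rw [this]
    have hc : HasDerivWithinAt (fun _ : ℝ => (0 : ℝ)) 0 (Ioi x) x := hasDerivWithinAt_const _ _ _
    refine hc.congr_of_eventuallyEq ?_ ?_
    · have : ∀ᶠ y in 𝓝 x, y < -(1 / N) := Iio_mem_nhds h1
      filter_upwards [nhdsWithin_le_nhds this] with y hy
      unfold hatR
      apply max_eq_left
      have h0 : y < 0 := by
        have : 0 < 1 / N := by positivity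
        linarith
      rw [abs_of_neg h0]
      nlinarith
    · unfold hatR
      apply max_eq_left
      have h0 : x < 0 := by
        have : 0 < 1 / N := by positivity
        linarith
      rw [abs_of_neg h0]
      nlinarith
  · by_cases h2 : 1 / N ≤ x
    · have : dhatR a x = 0 := by
        unfold dhatR
        rw [if_pos (Or.inr h2)]
      rw [this]
      have hc : HasDerivWithinAt (fun _ : ℝ => (0 : ℝ)) 0 (Ioi x) x := hasDerivWithinAt_const _ _ _
      have h0 : 0 < x := lt_of_lt_of_le (by positivity) h2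
      refine hc.congr_of_eventuallyEq ?_ ?_
      · filter_upwards [self_mem_nhdsWithin] with y hy
        unfold hatR
        apply max_eq_left
        rw [abs_of_pos (h0.trans hy)]
        have : 1 / N ≤ y := h2.trans (le_of_lt hy)
        nlinarith
      · unfold hatR
        apply max_eq_left
        rw [abs_of_pos h0]
        nlinarith
    · push Not at h1 h2
      by_cases h3 : x < 0
      · have : dhatR a x = N := by
          unfold dhatR
          rw [if_neg, if_pos h3]
          push Not
          exact ⟨h1, h2⟩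
        rw [this]
        have hc : HasDerivWithinAt (fun y : ℝ => 1 + N * y) N (Ioi x) x := by
          have := ((hasDerivAt_id x).const_mul N).const_add 1
          simpa using this.hasDerivWithinAt
        refine hc.congr_of_eventuallyEq ?_ ?_
        · have : ∀ᶠ y in 𝓝 x, y < 0 := Iio_mem_nhds h3
          filter_upwards [nhdsWithin_le_nhds this, self_mem_nhdsWithin] with y hy hxy
          have hxy' : x < y := hxy
          unfold hatR
          rw [abs_of_neg hy, max_eq_right]
          · ring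
          · nlinarith
        · unfold hatR
          rw [abs_of_neg h3, max_eq_right]
          · ring
          · nlinarith
      · push Not at h3
        have : dhatR a x = -N := by
          unfold dhatR
          rw [if_neg, if_neg (not_lt.2 h3)]
          push Not
          exact ⟨h1, h2⟩
        rw [this]
        have hc : HasDerivWithinAt (fun y : ℝ => 1 - N * y) (-N) (Ioi x) x := by
          have := ((hasDerivAt_id x).const_mul N).const_sub 1
          simpa using this.hasDerivWithinAt
        refine hc.congr_of_eventuallyEq ?_ ?_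
        · have : ∀ᶠ y in 𝓝 x, y < 1 / N := Iio_mem_nhds h2
          filter_upwards [nhdsWithin_le_nhds this, self_mem_nhdsWithin] with y hy hxy
          have hxy' : x < y := hxy
          unfold hatR
          rw [abs_of_pos (lt_of_le_of_lt h3 hxy'), max_eq_right]
          nlinarith
        · unfold hatR
          rw [abs_of_nonneg h3, max_eq_right]
          nlinarith

theorem hat_eq_lift (a : ℕ) : (fun t : UnitAddCircle => (hat a t : ℂ)) =
    AddCircle.liftIoc 1 (-(1 / 2)) (fun x => (hatR a x : ℂ)) := by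
  ext t
  obtain ⟨x, hx, rfl⟩ := exists_rep t
  rw [hat_coe hx, AddCircle.liftIoc_coe_apply hx]

theorem dhat_eq_lift (a : ℕ) : (fun t : UnitAddCircle => (dhat a t : ℂ)) =
    AddCircle.liftIoc 1 (-(1 / 2)) (fun x => (dhatR a x : ℂ)) := by
  ext t
  obtain ⟨x, hx, rfl⟩ := exists_rep t
  rw [dhat_coe hx, AddCircle.liftIoc_coe_apply hx]

theorem hatR_half {a : ℕ} {x : ℝ} (hx : 1 / 2 ≤ |x|) : hatR a x = 0 := by
  unfold hatR
  apply max_eq_left
  have h1 : (1 : ℝ) ≤ 2 ^ a := one_le_pow₀ (by norm_num)
  have h2 : (2 : ℝ) ^ (a + 1) = 2 * 2 ^ a := by ring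
  rw [h2]
  nlinarith

/-- The Fourier coefficients of the derivative dominate `n` times those of the hat. -/
theorem fourierCoeff_hat_le (a : ℕ) (n : ℤ) :
    (n : ℝ) ^ 2 * ‖fourierCoeff (fun t : UnitAddCircle => (hat a t : ℂ)) n‖ ^ 2 ≤
      ‖fourierCoeff (fun t : UnitAddCircle => (dhat a t : ℂ)) n‖ ^ 2 := by
  by_cases hn : n = 0
  · subst hn
    simp only [Int.cast_zero]
    have : (0 : ℝ) ^ 2 = 0 := by norm_num
    rw [this, zero_mul]
    positivity
  rw [hat_eq_lift, dhat_eq_lift, fourierCoeff_liftIoc_eq, fourierCoeff_liftIoc_eq]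
  have hab : (-(1 / 2) : ℝ) < -(1 / 2) + 1 := by norm_num
  have key := fourierCoeffOn_of_hasDeriv_right hab (f := fun x => (hatR a x : ℂ))
    (f' := fun x => (dhatR a x : ℂ)) hn ?_ ?_ ?_
  · have e1 : hatR a (-(1 / 2) + 1) = 0 := hatR_half (by norm_num)
    have e2 : hatR a (-(1 / 2)) = 0 := hatR_half (by norm_num)
    simp only [e1, e2, Complex.ofReal_zero, sub_zero, mul_zero, zero_sub] at key
    have e3 : (((-(1 / 2) + 1 : ℝ)) : ℂ) - ((-(1 / 2) : ℝ) : ℂ) = 1 := by
      push_cast
      ring
    rw [e3, one_mul] at key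
    rw [key, norm_mul, norm_neg]
    have e4 : ‖(1 / (-2 * (Real.pi : ℂ) * Complex.I * n) : ℂ)‖ = 1 / (2 * Real.pi * |(n : ℝ)|) := by
      simp only [norm_div, norm_mul, norm_neg, norm_one, Complex.norm_I, mul_one]
      simp [abs_of_pos Real.pi_pos]
    rw [e4]
    have hn' : (0 : ℝ) < |(n : ℝ)| := abs_pos.2 (by exact_mod_cast hn)
    have hpi := Real.pi_gt_three
    set Z := ‖fourierCoeffOn hab (fun x => (dhatR a x : ℂ)) n‖ with hZ
    have hZ0 : 0 ≤ Z := norm_nonneg _
    have e5 : (n : ℝ) ^ 2 * (1 / (2 * Real.pi * |(n : ℝ)|) * Z) ^ 2 =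
        (1 / (2 * Real.pi)) ^ 2 * Z ^ 2 := by
      rw [← sq_abs (n : ℝ)]
      field_simp
    rw [e5]
    have h6 : (1 / (2 * Real.pi)) ^ 2 ≤ 1 := by
      apply pow_le_one₀ (by positivity)
      rw [div_le_one (by positivity)]
      linarith
    nlinarith [sq_nonneg Z]
  · have : Continuous (fun x => (hatR a x : ℂ)) := by
      unfold hatR
      fun_prop
    exact this.continuousOn
  · intro x _
    exact (hatR_hasDeriv a x).ofReal_comp
  · apply MeasureTheory.IntegrableOn.intervalIntegrable
    apply Measure.integrableOn_of_bounded (M := 2 ^ (a + 1))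
    · rw [uIcc_of_le hab.le]
      simp
    · exact ((Complex.measurable_ofReal.comp (measurable_dhatR a))).aestronglyMeasurable
    · refine Eventually.of_forall fun x => ?_
      rw [Complex.norm_real]
      unfold dhatR
      have h2 : (0 : ℝ) < 2 ^ (a + 1) := by positivity
      split_ifs
      · simp
      · rw [Real.norm_eq_abs, abs_of_pos h2]
      · rw [Real.norm_eq_abs, abs_neg, abs_of_pos h2]

end Pool.Agent.Helper59.MixInt
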