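import Pool.Agent.Helper59.MixInt.Fool

/-!
# The lower bound for independent uniformly distributed points
-/

open MeasureTheory UnitAddTorus Filter Topology Set
open scoped ENNReal

noncomputable section

namespace Pool.Agent.Helper59.MixInt

/-- constant in the bound of `B2` -/
def CB (k : ℝ) : ℝ := 1 + 32 / (1 - (2 : ℝ) ^ (-(2 - 2 * k))) + 32 / (1 - (2 : ℝ) ^ (-(1 - k)))

theorem two_rpow_lt_one {δ : ℝ} (hδ : 0 < δ) : (2 : ℝ) ^ (-δ) < 1 :=
  Real.rpow_lt_one_of_one_lt_of_neg (by norm_num) (by linarith)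

theorem CB_pos {k : ℝ} (hk1 : k < 1) : 0 < CB k := by
  unfold CB
  have h1 := two_rpow_lt_one (δ := 2 - 2 * k) (by linarith)
  have h2 := two_rpow_lt_one (δ := 1 - k) (by linarith)
  have h3 : 0 < 1 - (2 : ℝ) ^ (-(2 - 2 * k)) := by linarith
  have h4 : 0 < 1 - (2 : ℝ) ^ (-(1 - k)) := by linarith
  positivity

theorem sum_geom_le {n m₀ : ℕ} (M : ℕ) (hn : 0 < n) (hn2 : n ≤ 2 ^ (m₀ + 1)) {δ : ℝ} (hδ : 0 < δ)
    (hδ1 : δ ≤ 1) :
    ∑ m ∈ Finset.Ico m₀ M, ((2 : ℝ) ^ m) ^ (-δ) ≤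
      2 * (n : ℝ) ^ (-δ) / (1 - (2 : ℝ) ^ (-δ)) := by
  have hx := two_rpow_lt_one hδ
  have hx0 : 0 ≤ (2 : ℝ) ^ (-δ) := by positivity
  have h1 : ∀ m ∈ Finset.Ico m₀ M, ((2 : ℝ) ^ m) ^ (-δ) = ((2 : ℝ) ^ (-δ)) ^ m := by
    intro m _
    rw [Real.rpow_pow_comm (by norm_num)]
  rw [Finset.sum_congr rfl h1]
  refine (geom_sum_Ico_le_of_lt_one hx0 hx).trans ?_
  have h2 : ((2 : ℝ) ^ (-δ)) ^ m₀ ≤ 2 * (n : ℝ) ^ (-δ) := by
    rw [Real.rpow_pow_comm (by norm_num)]
    have hn' : (0 : ℝ) < n := by exact_mod_cast hn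
    have h3 : (n : ℝ) / 2 ≤ 2 ^ m₀ := by
      have : (n : ℝ) ≤ 2 ^ (m₀ + 1) := by exact_mod_cast hn2
      rw [pow_succ] at this
      linarith
    calc ((2 : ℝ) ^ m₀) ^ (-δ) ≤ ((n : ℝ) / 2) ^ (-δ) :=
          Real.rpow_le_rpow_of_nonpos (by positivity) h3 (by linarith)
      _ = (n : ℝ) ^ (-δ) * 2 ^ δ := by
          rw [Real.div_rpow hn'.le (by norm_num), Real.rpow_neg (by norm_num : (0 : ℝ) ≤ 2)]
          rw [div_inv_eq_mul]
      _ ≤ (n : ℝ) ^ (-δ) * 2 := by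
          apply mul_le_mul_of_nonneg_left _ (by positivity)
          calc (2 : ℝ) ^ δ ≤ 2 ^ (1 : ℝ) := Real.rpow_le_rpow_of_exponent_le (by norm_num) hδ1
            _ = 2 := by norm_num
      _ = 2 * (n : ℝ) ^ (-δ) := by ring
  have h3 : 0 < 1 - (2 : ℝ) ^ (-δ) := by linarith
  exact div_le_div_of_nonneg_right h2 h3.le

theorem min_le_geom {x y k : ℝ} (hx : 0 < x) (hy : 0 < y) (hk0 : 0 ≤ k) (hk1 : k ≤ 1) :
    min x y ≤ x ^ (1 - k) * y ^ k := by
  set z := min x y with hz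
  have hz0 : 0 < z := lt_min hx hy
  calc z = z ^ (1 - k) * z ^ k := by
        rw [← Real.rpow_add hz0]
        simp
    _ ≤ x ^ (1 - k) * y ^ k := by
        apply mul_le_mul
        · exact Real.rpow_le_rpow hz0.le (min_le_left _ _) (by linarith)
        · exact Real.rpow_le_rpow hz0.le (min_le_right _ _) hk0
        · positivity
        · positivity

theorem B2_le {k : ℝ} (hk : 1 / 2 < k) (hk1 : k < 1) {n r m₀ : ℕ} (M : ℕ) (hn : 0 < n)
    (hn1 : 2 ^ m₀ ≤ n) (hn2 : n ≤ 2 ^ (m₀ + 1)) (hR : n ≤ (Lam r).card) :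
    B2 n r (2 * k - 1) m₀ M ≤ CB k * ((n : ℝ) ^ (2 * k) * ((n : ℝ) / (Lam r).card) ^ (1 - k)) := by
  have hn' : (0 : ℝ) < n := by exact_mod_cast hn
  have hR' : (0 : ℝ) < (Lam r).card := by
    have : 0 < (Lam r).card := by omega
    exact_mod_cast this
  obtain ⟨R, hRdef⟩ : ∃ R : ℝ, R = ((Lam r).card : ℝ) := ⟨_, rfl⟩
  have hnR : (n : ℝ) ≤ R := by
    rw [hRdef]
    exact_mod_cast hR
  unfold B2
  rw [← hRdef] at hR' ⊢
  set ρ := (n : ℝ) / R with hρ
  have hρ0 : 0 < ρ := by positivity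
  have hρ1 : ρ ≤ 1 := by
    rw [hρ, div_le_one hR']
    exact hnR
  set q := 2 * k - 1 with hq
  have hq0 : 0 < q := by linarith
  have hq1 : q < 1 := by linarith
  have hρk : ρ ≤ ρ ^ (1 - k) := by
    calc ρ = ρ ^ (1 : ℝ) := (Real.rpow_one ρ).symm
      _ ≤ ρ ^ (1 - k) := Real.rpow_le_rpow_of_exponent_ge hρ0 hρ1 (by linarith)
  have h2q : (2 : ℝ) ^ q ≤ 2 := by
    calc (2 : ℝ) ^ q ≤ 2 ^ (1 : ℝ) := Real.rpow_le_rpow_of_exponent_le (by norm_num) hq1.le
      _ = 2 := by norm_num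
  have h4k : (4 : ℝ) ^ k ≤ 4 := by
    calc (4 : ℝ) ^ k ≤ 4 ^ (1 : ℝ) := Real.rpow_le_rpow_of_exponent_le (by norm_num) hk1.le
      _ = 4 := by norm_num
  -- first term
  have t1 : ((2 : ℝ) ^ m₀) ^ q * ρ ≤ (n : ℝ) ^ q * ρ ^ (1 - k) := by
    apply mul_le_mul _ hρk hρ0.le (by positivity)
    apply Real.rpow_le_rpow (by positivity) _ hq0.le
    exact_mod_cast hn1
  -- the terms of the sum
  have t2 : ∀ m ∈ Finset.Ico m₀ M, ((2 : ℝ) ^ (m + 1)) ^ q *
      (2 * n * (ρ * (4 / 2 ^ m) + min (1 / R) (4 / 2 ^ m))) ≤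
      16 * n * ρ ^ (1 - k) * ((2 : ℝ) ^ m) ^ (-(2 - 2 * k)) +
      16 * n * (1 / R) ^ (1 - k) * ((2 : ℝ) ^ m) ^ (-(1 - k)) := by
    intro m _
    have hp : (0 : ℝ) < 2 ^ m := by positivity
    have e1 : ((2 : ℝ) ^ (m + 1)) ^ q = 2 ^ q * ((2 : ℝ) ^ m) ^ q := by
      rw [pow_succ, mul_comm, Real.mul_rpow (by norm_num) hp.le]
    have e2 : ((2 : ℝ) ^ m) ^ (-(2 - 2 * k)) = ((2 : ℝ) ^ m) ^ q / 2 ^ m := by
      have : -(2 - 2 * k) = q - 1 := by rw [hq]; ring
      rw [this, Real.rpow_sub hp, Real.rpow_one]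
    have e3 : ((2 : ℝ) ^ m) ^ (-(1 - k)) = ((2 : ℝ) ^ m) ^ q / ((2 : ℝ) ^ m) ^ k := by
      have : -(1 - k) = q - k := by rw [hq]; ring
      rw [this, Real.rpow_sub hp]
    have e4 : min (1 / R) (4 / 2 ^ m) ≤ (1 / R) ^ (1 - k) * (4 / ((2 : ℝ) ^ m) ^ k) := by
      calc min (1 / R) (4 / 2 ^ m) ≤ (1 / R) ^ (1 - k) * (4 / 2 ^ m) ^ k :=
            min_le_geom (by positivity) (by positivity) (by linarith) hk1.le
        _ = (1 / R) ^ (1 - k) * (4 ^ k / ((2 : ℝ) ^ m) ^ k) := by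
            rw [Real.div_rpow (by norm_num) hp.le]
        _ ≤ _ := by gcongr
    rw [e1, e2, e3]
    calc 2 ^ q * ((2 : ℝ) ^ m) ^ q * (2 * n * (ρ * (4 / 2 ^ m) + min (1 / R) (4 / 2 ^ m)))
        ≤ 2 * ((2 : ℝ) ^ m) ^ q * (2 * n * (ρ ^ (1 - k) * (4 / 2 ^ m) +
            (1 / R) ^ (1 - k) * (4 / ((2 : ℝ) ^ m) ^ k))) := by gcongr
      _ = _ := by ring
  have g1 := sum_geom_le (n := n) (m₀ := m₀) M hn hn2 (δ := 2 - 2 * k) (by linarith) (by linarith)
  have g2 := sum_geom_le (n := n) (m₀ := m₀) M hn hn2 (δ := 1 - k) (by linarith) (by linarith)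
  have hx := two_rpow_lt_one (δ := 2 - 2 * k) (by linarith)
  have hy := two_rpow_lt_one (δ := 1 - k) (by linarith)
  set X := 1 - (2 : ℝ) ^ (-(2 - 2 * k)) with hX
  set Y := 1 - (2 : ℝ) ^ (-(1 - k)) with hY
  have hX0 : 0 < X := by linarith
  have hY0 : 0 < Y := by linarith
  have t3 : ∑ m ∈ Finset.Ico m₀ M, ((2 : ℝ) ^ (m + 1)) ^ q *
      (2 * n * (ρ * (4 / 2 ^ m) + min (1 / R) (4 / 2 ^ m))) ≤
      16 * n * ρ ^ (1 - k) * (2 * (n : ℝ) ^ (-(2 - 2 * k)) / X) +
      16 * n * (1 / R) ^ (1 - k) * (2 * (n : ℝ) ^ (-(1 - k)) / Y) := by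
    refine (Finset.sum_le_sum t2).trans ?_
    rw [Finset.sum_add_distrib, ← Finset.mul_sum, ← Finset.mul_sum]
    apply add_le_add
    · exact mul_le_mul_of_nonneg_left g1 (by positivity)
    · exact mul_le_mul_of_nonneg_left g2 (by positivity)
  have f1 : (n : ℝ) * (n : ℝ) ^ q = (n : ℝ) ^ (2 * k) := by
    have : 2 * k = 1 + q := by rw [hq]; ring
    rw [this, Real.rpow_add hn', Real.rpow_one]
  have f2 : (n : ℝ) * (n * (n : ℝ) ^ (-(2 - 2 * k))) = (n : ℝ) ^ (2 * k) := by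
    have e : (n : ℝ) ^ (2 * k) = (n : ℝ) ^ (1 + (1 + -(2 - 2 * k))) := by
      congr 1
      ring
    rw [e, Real.rpow_add hn', Real.rpow_add hn', Real.rpow_one]
  have f3 : (n : ℝ) * (n * ((1 / R) ^ (1 - k) * (n : ℝ) ^ (-(1 - k)))) =
      (n : ℝ) ^ (2 * k) * ρ ^ (1 - k) := by
    rw [hρ, Real.div_rpow hn'.le hR'.le, Real.div_rpow zero_le_one hR'.le, Real.one_rpow]
    have e : (n : ℝ) ^ (2 * k) * (n : ℝ) ^ (1 - k) = n * (n * (n : ℝ) ^ (-(1 - k))) := by
      rw [← Real.rpow_add hn']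
      have : 2 * k + (1 - k) = 1 + (1 + -(1 - k)) := by ring
      rw [this, Real.rpow_add hn', Real.rpow_add hn', Real.rpow_one]
    calc (n : ℝ) * (n * (1 / R ^ (1 - k) * (n : ℝ) ^ (-(1 - k))))
        = (n * (n * (n : ℝ) ^ (-(1 - k)))) / R ^ (1 - k) := by ring
      _ = (n : ℝ) ^ (2 * k) * (n : ℝ) ^ (1 - k) / R ^ (1 - k) := by rw [← e]
      _ = _ := by ring
  calc (n : ℝ) * (((2 : ℝ) ^ m₀) ^ q * ρ + ∑ m ∈ Finset.Ico m₀ M, ((2 : ℝ) ^ (m + 1)) ^ q *
        (2 * n * (ρ * (4 / 2 ^ m) + min (1 / R) (4 / 2 ^ m))))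
      ≤ n * ((n : ℝ) ^ q * ρ ^ (1 - k) +
        (16 * n * ρ ^ (1 - k) * (2 * (n : ℝ) ^ (-(2 - 2 * k)) / X) +
        16 * n * (1 / R) ^ (1 - k) * (2 * (n : ℝ) ^ (-(1 - k)) / Y))) := by
        apply mul_le_mul_of_nonneg_left (add_le_add t1 t3) hn'.le
    _ = (n * (n : ℝ) ^ q) * ρ ^ (1 - k) +
        32 / X * ((n * (n * (n : ℝ) ^ (-(2 - 2 * k)))) * ρ ^ (1 - k)) +
        32 / Y * (n * (n * ((1 / R) ^ (1 - k) * (n : ℝ) ^ (-(1 - k))))) := by ring
    _ = CB k * ((n : ℝ) ^ (2 * k) * ρ ^ (1 - k)) := by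
        rw [f1, f2, f3]
        unfold CB
        rw [← hX, ← hY]
        ring

/-- From fooling functions to a lower bound. -/
theorem lower_of_fool {d n : ℕ} {k ε : ℝ} (G : Set (Fin n → Tor d))
    (hG : MeasurableSet G) (hG2 : ENNReal.ofReal (1 / 2) ≤ iidLaw d n G)
    (h : ∀ P ∈ G, ∃ f ∈ mixBall d k, (∀ i, f (P i) = 0) ∧ ε ≤ integ f) (hε : 0 ≤ ε) :
    ENNReal.ofReal (ε / 2) ≤ eUnifIID d k n := by
  unfold eUnifIID
  refine le_iInf₂ fun A hA => ?_
  unfold RandAlg.errUnif upperInt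
  refine le_iInf fun g => le_iInf fun hgm => le_iInf fun hg => ?_
  have hE : MeasurableSet (A.pts ⁻¹' G) := A.meas hG
  have h1 : ∀ ω ∈ A.pts ⁻¹' G, ENNReal.ofReal ε ≤ g ω := by
    intro ω hω
    obtain ⟨f, hf, hf0, hfε⟩ := h (A.pts ω) hω
    have hneg : (fun x => -f x) ∈ mixBall d k := by
      refine ⟨hf.1.neg, ?_⟩
      have : mixNormSq k (fun x => -f x) = mixNormSq k f := by
        unfold mixNormSq
        congr 1
        ext h
        have e : mFourierCoeff (fun x => ((-f x : ℝ) : ℂ)) h =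
            -mFourierCoeff (fun x => (f x : ℂ)) h := by
          rw [mFourierCoeff_eq, mFourierCoeff_eq, ← integral_neg]
          refine integral_congr_ae (Eventually.of_forall fun x => ?_)
          simp
        rw [e, norm_neg]
      rw [this]
      exact hf.2
    have hout : A.out ω f = A.φ ω 0 := by
      unfold RandAlg.out
      congr 1
      ext i
      exact hf0 i
    have hout' : A.out ω (fun x => -f x) = A.φ ω 0 := by
      unfold RandAlg.out
      congr 1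
      ext i
      simp [hf0 i]
    have hinteg : integ (fun x => -f x) = -integ f := by
      unfold integ
      rw [integral_neg]
    have hmax : ε ≤ max |integ f - A.φ ω 0| |-integ f - A.φ ω 0| := by
      rcases le_total 0 (A.φ ω 0) with h0 | h0
      · refine le_trans ?_ (le_max_right _ _)
        rw [abs_of_nonpos (by linarith)]
        linarith
      · refine le_trans ?_ (le_max_left _ _)
        rw [abs_of_nonneg (by linarith)]
        linarith
    refine le_trans ?_ (hg ω)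
    rcases le_max_iff.1 hmax with h2 | h2
    · refine le_trans ?_ (le_iSup₂ (f := fun f (_ : f ∈ mixBall d k) =>
        ENNReal.ofReal |integ f - A.out ω f|) f hf)
      rw [hout]
      exact ENNReal.ofReal_le_ofReal h2
    · refine le_trans ?_ (le_iSup₂ (f := fun f (_ : f ∈ mixBall d k) =>
        ENNReal.ofReal |integ f - A.out ω f|) (fun x => -f x) hneg)
      rw [hout', hinteg]
      exact ENNReal.ofReal_le_ofReal h2
  have h2 : iidLaw d n G = A.μ (A.pts ⁻¹' G) := by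
    rw [← hA, Measure.map_apply A.meas hG]
  calc ENNReal.ofReal (ε / 2) = ENNReal.ofReal ε * ENNReal.ofReal (1 / 2) := by
        rw [← ENNReal.ofReal_mul hε]
        congr 1
        ring
    _ ≤ ENNReal.ofReal ε * A.μ (A.pts ⁻¹' G) := by
        rw [← h2]
        gcongr
    _ = ∫⁻ _ω in A.pts ⁻¹' G, ENNReal.ofReal ε ∂A.μ := by
        rw [setLIntegral_const]
    _ ≤ ∫⁻ ω in A.pts ⁻¹' G, g ω ∂A.μ := setLIntegral_mono hgm h1
    _ ≤ ∫⁻ ω, g ω ∂A.μ := setLIntegral_le_lintegral _ _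

/-- scaling -/
theorem mixNormSq_smul {d : ℕ} {k : ℝ} (c : ℝ) (f : Tor d → ℝ) :
    mixNormSq k (fun x => c * f x) = ENNReal.ofReal (c ^ 2) * mixNormSq k f := by
  unfold mixNormSq
  rw [← ENNReal.tsum_mul_left]
  congr 1
  ext h
  have e : mFourierCoeff (fun x => ((c * f x : ℝ) : ℂ)) h =
      (c : ℂ) * mFourierCoeff (fun x => (f x : ℂ)) h := by
    rw [mFourierCoeff_eq, mFourierCoeff_eq, ← integral_const_mul]
    refine integral_congr_ae (Eventually.of_forall fun x => ?_)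
    simp only
    push_cast
    ring
  rw [e, norm_mul, Complex.norm_real, Real.norm_eq_abs, mul_pow, sq_abs, mul_assoc,
    ENNReal.ofReal_mul (sq_nonneg c)]

/-- exponent of the logarithmic gain (for the squared norm) -/
def gam (k : ℝ) : ℝ := min ((k - 1 / 2) / 2) ((1 - k) / 4)

theorem gam_pos {k : ℝ} (hk : 1 / 2 < k) (hk1 : k < 1) : 0 < gam k := by
  unfold gam
  apply lt_min <;> linarith

/-- constant of the lower bound -/
def CL (k : ℝ) : ℝ := 4 + 36 * 16 ^ k * 2 + 3600 * CS k ^ 2 * CB k * 2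

theorem CL_pos {k : ℝ} (hk1 : k < 1) : 0 < CL k := by
  have := CB_pos hk1
  have := CS_pos hk1
  unfold CL
  positivity

/-- Bound of the norm of the fooling function for suitable parameters. -/
theorem norm_bound {k : ℝ} (hk : 1 / 2 < k) (hk1 : k < 1) {n : ℕ}
    (hn : 82944 ≤ Real.log n) :
    ∃ r m₀ M : ℕ, 0 < n ∧ m₀ ≤ M ∧ n ≤ 2 ^ (m₀ + 1) ∧ 144 * n ≤ (Lam r).card ∧
      72 * n ^ 2 < 2 ^ M ∧
      4 + 36 * ((4 * (r : ℝ) ^ 2) ^ k * (n / (Lam r).card)) +
        3600 * CS k ^ 2 / (m₀ + 1) * B2 n r (2 * k - 1) m₀ M ≤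
      CL k * ((n : ℝ) ^ (2 * k) * (Real.log n) ^ (-(1 + 2 * gam k))) := by
  set L := Real.log n with hL
  have hL0 : 0 < L := by linarith
  have hn0 : 0 < n := by
    rcases Nat.eq_zero_or_pos n with h | h
    · rw [h] at hL
      simp at hL
      linarith
    · exact h
  have hn' : (0 : ℝ) < n := by exact_mod_cast hn0
  have hLn : L ≤ n := (Real.log_le_sub_one_of_pos hn').trans (by linarith)
  set s := Real.sqrt L with hs
  have hs0 : 0 < s := Real.sqrt_pos.2 hL0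
  have hss : s * s = L := Real.mul_self_sqrt hL0.le
  have hs288 : 288 ≤ s := by
    apply Real.le_sqrt_of_sq_le
    norm_num
    exact hn
  -- choice of `r`
  set r := ⌈(n : ℝ) / s⌉₊ with hr
  have hr1 : (n : ℝ) / s ≤ r := Nat.le_ceil _
  have hns1 : 1 ≤ (n : ℝ) / s := by
    rw [one_le_div hs0]
    nlinarith
  have hr2 : (r : ℝ) ≤ 2 * (n / s) := by
    have := (Nat.ceil_lt_add_one (by positivity : 0 ≤ (n : ℝ) / s)).le
    linarith
  have hr0 : (0 : ℝ) < r := by linarith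
  -- size of the layer
  have hRlow : (n : ℝ) * s / 2 ≤ (Lam r).card := by
    refine le_trans ?_ (card_Lam_ge r)
    have h1 : Real.log ((n : ℝ) / s) ≤ Real.log ((r : ℝ) + 1) :=
      Real.log_le_log (by positivity) (by linarith)
    have h2 : Real.log ((n : ℝ) / s) = L - Real.log s := Real.log_div hn'.ne' hs0.ne'
    have h3 : Real.log s ≤ L / 4 := by
      have h4 := Real.log_le_sub_one_of_pos hs0
      nlinarith
    have h4 : L / 2 ≤ Real.log ((r : ℝ) + 1) - 1 := by linarith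
    calc (n : ℝ) * s / 2 = (n / s) * (L / 2) := by
          rw [← hss]
          field_simp
      _ ≤ r * (Real.log ((r : ℝ) + 1) - 1) := by
          apply mul_le_mul hr1 h4 (by positivity) hr0.le
  have hR144 : (144 : ℝ) * n ≤ (Lam r).card := by nlinarith
  have hR0 : (0 : ℝ) < (Lam r).card := by nlinarith
  have hρ : (n : ℝ) / (Lam r).card ≤ 2 / s := by
    rw [div_le_div_iff₀ hR0 hs0]
    linarith
  have hRn : n ≤ (Lam r).card := by
    have : (n : ℝ) ≤ (Lam r).card := by linarith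
    exact_mod_cast this
  -- the levels
  set m₀ := Nat.log 2 n with hm₀
  have hm1 : 2 ^ m₀ ≤ n := Nat.pow_log_le_self 2 hn0.ne'
  have hm2 : n < 2 ^ (m₀ + 1) := Nat.lt_pow_succ_log_self (by norm_num) n
  have hm3 : L ≤ (m₀ : ℝ) + 1 := by
    have h1 : (n : ℝ) ≤ 2 ^ (m₀ + 1) := by exact_mod_cast hm2.le
    have h2 : L ≤ Real.log (2 ^ (m₀ + 1)) := Real.log_le_log hn' h1
    rw [Real.log_pow] at h2
    have h3 : Real.log 2 ≤ 1 := by
      have := Real.log_two_lt_d9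
      linarith
    have h4 : ((m₀ + 1 : ℕ) : ℝ) * Real.log 2 ≤ ((m₀ + 1 : ℕ) : ℝ) * 1 :=
      mul_le_mul_of_nonneg_left h3 (by positivity)
    push_cast at h2 h4
    linarith
  refine ⟨r, m₀, 2 * m₀ + 9, hn0, by omega, hm2.le, ?_, ?_, ?_⟩
  · exact_mod_cast hR144
  · have h1 : n ^ 2 < (2 ^ (m₀ + 1)) ^ 2 := Nat.pow_lt_pow_left hm2 (by norm_num)
    have h2 : (2 ^ (m₀ + 1)) ^ 2 * 128 = 2 ^ (2 * m₀ + 9) := by ring
    omega
  · -- the estimate
    have hL1 : 1 ≤ L := by linarith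
    have hg1 : gam k ≤ (k - 1 / 2) / 2 := min_le_left _ _
    have hg2 : gam k ≤ (1 - k) / 4 := min_le_right _ _
    have hg0 := gam_pos hk hk1
    have hCS := CS_pos hk1
    have hCB := CB_pos hk1
    set T := (n : ℝ) ^ (2 * k) * L ^ (-(1 + 2 * gam k)) with hT
    have hT0 : 0 < T := by positivity
    -- term 1
    have t1 : (1 : ℝ) ≤ T := by
      have h1 : L ^ (1 + 2 * gam k) ≤ (n : ℝ) ^ (2 * k) := by
        calc L ^ (1 + 2 * gam k) ≤ L ^ (2 * k) :=
              Real.rpow_le_rpow_of_exponent_le hL1 (by linarith)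
          _ ≤ (n : ℝ) ^ (2 * k) := Real.rpow_le_rpow hL0.le hLn (by linarith)
      rw [hT, Real.rpow_neg hL0.le, ← div_eq_mul_inv, one_le_div (by positivity)]
      exact h1
    -- term 2
    have t2 : (4 * (r : ℝ) ^ 2) ^ k * (n / (Lam r).card) ≤ 16 ^ k * 2 * T := by
      have h1 : 4 * (r : ℝ) ^ 2 ≤ 16 * ((n : ℝ) ^ 2 / L) := by
        have h2 : (r : ℝ) ^ 2 ≤ (2 * (n / s)) ^ 2 := pow_le_pow_left₀ hr0.le hr2 2
        have h3 : (2 * ((n : ℝ) / s)) ^ 2 = 4 * ((n : ℝ) ^ 2 / L) := by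
          rw [← hss]
          field_simp
          norm_num
        linarith
      have h2 : (4 * (r : ℝ) ^ 2) ^ k ≤ 16 ^ k * ((n : ℝ) ^ (2 * k) * L ^ (-k)) := by
        calc (4 * (r : ℝ) ^ 2) ^ k ≤ (16 * ((n : ℝ) ^ 2 / L)) ^ k :=
              Real.rpow_le_rpow (by positivity) h1 (by linarith)
          _ = 16 ^ k * ((n : ℝ) ^ (2 * k) * L ^ (-k)) := by
              rw [Real.mul_rpow (by norm_num) (by positivity),
                Real.div_rpow (by positivity) hL0.le, Real.rpow_neg hL0.le, ← Real.rpow_two,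
                ← Real.rpow_mul hn'.le]
              rfl
      have h3 : (2 : ℝ) / s = 2 * L ^ (-(1 / 2 : ℝ)) := by
        rw [Real.rpow_neg hL0.le, ← Real.sqrt_eq_rpow]
        rfl
      calc (4 * (r : ℝ) ^ 2) ^ k * (n / (Lam r).card)
          ≤ (16 ^ k * ((n : ℝ) ^ (2 * k) * L ^ (-k))) * (2 / s) := by
            apply mul_le_mul h2 hρ (by positivity) (by positivity)
        _ = 16 ^ k * 2 * ((n : ℝ) ^ (2 * k) * (L ^ (-k) * L ^ (-(1 / 2 : ℝ)))) := by
            rw [h3]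
            ring
        _ = 16 ^ k * 2 * ((n : ℝ) ^ (2 * k) * L ^ (-k + -(1 / 2 : ℝ))) := by
            rw [← Real.rpow_add hL0]
        _ ≤ 16 ^ k * 2 * T := by
            apply mul_le_mul_of_nonneg_left _ (by positivity)
            apply mul_le_mul_of_nonneg_left _ (by positivity)
            apply Real.rpow_le_rpow_of_exponent_le hL1
            linarith
    -- term 3
    have t3 : 3600 * CS k ^ 2 / (m₀ + 1) * B2 n r (2 * k - 1) m₀ (2 * m₀ + 9) ≤
        3600 * CS k ^ 2 * CB k * 2 * T := by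
      have h1 := B2_le hk hk1 (2 * m₀ + 9) hn0 hm1 hm2.le hRn
      have h2 : ((n : ℝ) / (Lam r).card) ^ (1 - k) ≤ 2 * L ^ (-((1 - k) / 2)) := by
        calc ((n : ℝ) / (Lam r).card) ^ (1 - k) ≤ (2 / s) ^ (1 - k) :=
              Real.rpow_le_rpow (by positivity) hρ (by linarith)
          _ = 2 ^ (1 - k) * L ^ (-((1 - k) / 2)) := by
              rw [Real.div_rpow (by norm_num) hs0.le, div_eq_mul_inv]
              congr 1
              rw [hs, Real.sqrt_eq_rpow, ← Real.rpow_mul hL0.le, ← Real.rpow_neg hL0.le]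
              congr 1
              ring
          _ ≤ 2 * L ^ (-((1 - k) / 2)) := by
              apply mul_le_mul_of_nonneg_right _ (by positivity)
              calc (2 : ℝ) ^ (1 - k) ≤ 2 ^ (1 : ℝ) :=
                    Real.rpow_le_rpow_of_exponent_le (by norm_num) (by linarith)
                _ = 2 := by norm_num
      have h3 : (1 : ℝ) / (m₀ + 1) ≤ L ^ (-(1 : ℝ)) := by
        rw [Real.rpow_neg_one, one_div]
        exact inv_anti₀ hL0 hm3
      calc 3600 * CS k ^ 2 / (m₀ + 1) * B2 n r (2 * k - 1) m₀ (2 * m₀ + 9)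
          = 3600 * CS k ^ 2 * (1 / (m₀ + 1)) * B2 n r (2 * k - 1) m₀ (2 * m₀ + 9) := by ring
        _ ≤ 3600 * CS k ^ 2 * L ^ (-(1 : ℝ)) *
            (CB k * ((n : ℝ) ^ (2 * k) * (2 * L ^ (-((1 - k) / 2))))) := by
            apply mul_le_mul
            · exact mul_le_mul_of_nonneg_left h3 (by positivity)
            · refine h1.trans ?_
              apply mul_le_mul_of_nonneg_left _ hCB.le
              exact mul_le_mul_of_nonneg_left h2 (by positivity)
            · unfold B2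
              apply mul_nonneg hn'.le
              apply add_nonneg (by positivity)
              exact Finset.sum_nonneg fun m _ => by positivity
            · positivity
        _ = 3600 * CS k ^ 2 * CB k * 2 *
            ((n : ℝ) ^ (2 * k) * (L ^ (-(1 : ℝ)) * L ^ (-((1 - k) / 2)))) := by ring
        _ = 3600 * CS k ^ 2 * CB k * 2 *
            ((n : ℝ) ^ (2 * k) * L ^ (-(1 : ℝ) + -((1 - k) / 2))) := by
            rw [← Real.rpow_add hL0]
        _ ≤ 3600 * CS k ^ 2 * CB k * 2 * T := by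
            apply mul_le_mul_of_nonneg_left _ (by positivity)
            apply mul_le_mul_of_nonneg_left _ (by positivity)
            apply Real.rpow_le_rpow_of_exponent_le hL1
            linarith
    calc 4 + 36 * ((4 * (r : ℝ) ^ 2) ^ k * (n / (Lam r).card)) +
        3600 * CS k ^ 2 / (m₀ + 1) * B2 n r (2 * k - 1) m₀ (2 * m₀ + 9)
        ≤ 4 * T + 36 * (16 ^ k * 2 * T) + 3600 * CS k ^ 2 * CB k * 2 * T := by
          linarith
      _ = CL k * T := by
          unfold CL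
          ring

/-- **Lower bound for independent uniformly distributed points** (`d = 2`, `1/2 < k < 1`). -/
theorem eUnifIID_ge {k : ℝ} (hk : 1 / 2 < k) (hk1 : k < 1) {n : ℕ} (hn : 82944 ≤ Real.log n) :
    ENNReal.ofReal (1 / (4 * Real.sqrt (CL k)) *
      ((n : ℝ) ^ (-k) * (Real.log n) ^ (1 / 2 + gam k))) ≤ eUnifIID 2 k n := by
  obtain ⟨r, m₀, M, hn0, hmM, hnm, hR, hM, hb⟩ := norm_bound hk hk1 hn
  have hn' : (0 : ℝ) < n := by exact_mod_cast hn0
  have hR0 : 0 < (Lam r).card := by omega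
  obtain ⟨G, hGm, hG, hG2⟩ := exists_good (r := r) hn0 hR0 (2 * k - 1) m₀ M hM
  have hL0 : 0 < Real.log n := by linarith
  set L := Real.log n with hL
  have hCL := CL_pos hk1
  set D := CL k * ((n : ℝ) ^ (2 * k) * L ^ (-(1 + 2 * gam k))) with hD
  have hD0 : 0 < D := by positivity
  set c := 1 / Real.sqrt D with hc
  have hsD : 0 < Real.sqrt D := Real.sqrt_pos.2 hD0
  have hc0 : 0 < c := by positivity
  have key := lower_of_fool (k := k) (ε := c / 2) G hGm hG2 ?_ (by positivity)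
  · refine le_trans (ENNReal.ofReal_le_ofReal (le_of_eq ?_)) key
    have h1 : Real.sqrt D = Real.sqrt (CL k) * ((n : ℝ) ^ k * L ^ (-(1 / 2 + gam k))) := by
      rw [hD, Real.sqrt_mul hCL.le]
      congr 1
      rw [Real.sqrt_eq_iff_mul_self_eq (by positivity) (by positivity)]
      have e1 : (n : ℝ) ^ (2 * k) = (n : ℝ) ^ k * (n : ℝ) ^ k := by
        rw [← Real.rpow_add hn']
        congr 1
        ring
      have e2 : L ^ (-(1 + 2 * gam k)) = L ^ (-(1 / 2 + gam k)) * L ^ (-(1 / 2 + gam k)) := by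
        rw [← Real.rpow_add hL0]
        congr 1
        ring
      rw [e1, e2]
      ring
    rw [hc, h1, Real.rpow_neg hn'.le, Real.rpow_neg hL0.le]
    have : 0 < (n : ℝ) ^ k := by positivity
    have : 0 < L ^ (1 / 2 + gam k) := by positivity
    have : 0 < Real.sqrt (CL k) := Real.sqrt_pos.2 hCL
    field_simp
    norm_num
  · intro P hP
    obtain ⟨f, hfc, hf0, hfi, hfn⟩ := fool hk hk1 hn0 hmM hnm hR (hG hP)
    refine ⟨fun x => c * f x, ⟨continuous_const.mul hfc, ?_⟩, ?_, ?_⟩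
    · rw [mixNormSq_smul]
      calc ENNReal.ofReal (c ^ 2) * mixNormSq k f
          ≤ ENNReal.ofReal (c ^ 2) * ENNReal.ofReal D := by
            gcongr
            exact hfn.trans (ENNReal.ofReal_le_ofReal hb)
        _ = ENNReal.ofReal (c ^ 2 * D) := (ENNReal.ofReal_mul (sq_nonneg c)).symm
        _ = 1 := by
            have : c ^ 2 * D = 1 := by
              rw [hc, div_pow, one_pow, Real.sq_sqrt hD0.le]
              field_simp
            rw [this, ENNReal.ofReal_one]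
    · intro i
      show c * f (P i) = 0
      rw [hf0 i, mul_zero]
    · have : integ (fun x => c * f x) = c * integ f := by
        unfold integ
        rw [integral_const_mul]
      rw [this]
      nlinarith

end Pool.Agent.Helper59.MixInt
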