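import Pool.Agent.Helper59.MixInt.Trig

/-!
# Expectations over independent uniformly distributed points
-/

open MeasureTheory UnitAddTorus Filter Topology Set
open scoped ENNReal

noncomputable section

namespace Pool.Agent.Helper59.MixInt

variable {n : ℕ}

instance iidLaw_inv (d n : ℕ) : (iidLaw d n).IsAddLeftInvariant :=
  Measure.pi.isAddLeftInvariant _

/-- translation of the `l`-th point -/
def sh (l : Fin n) (v : Tor 2) : Fin n → Tor 2 := Pi.single l v

/-- `G` does not depend on the `l`-th point (translation invariance in the `l`-th coordinate) -/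
def Indep (l : Fin n) (G : (Fin n → Tor 2) → ℝ) : Prop :=
  ∀ (v : Tor 2) (P : Fin n → Tor 2), G (sh l v + P) = G P

theorem single_add_of_ne {l i : Fin n} (h : i ≠ l) (v : Tor 2) (P : Fin n → Tor 2) :
    (sh l v + P) i = P i := by
  rw [Pi.add_apply, sh, Pi.single_eq_of_ne h, zero_add]

theorem single_add_same (l : Fin n) (v : Tor 2) (P : Fin n → Tor 2) :
    (sh l v + P) l = v + P l := by
  rw [Pi.add_apply, sh, Pi.single_eq_same]

theorem Indep.mul {l : Fin n} {G H : (Fin n → Tor 2) → ℝ} (hG : Indep l G) (hH : Indep l H) :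
    Indep l (fun P => G P * H P) := fun v P => by
  simp only
  rw [hG v P, hH v P]

theorem indep_of_ne {l i j : Fin n} (hi : i ≠ l) (hj : j ≠ l) (F : Tor 2 → Tor 2 → ℝ) :
    Indep l (fun P => F (P i) (P j)) := fun v P => by
  simp only
  rw [single_add_of_ne hi, single_add_of_ne hj]

theorem indep_const {l : Fin n} (c : ℝ) : Indep l (fun _ => c) := fun _ _ => rfl

/-- The expectation of a nontrivial character of `P i - P l` times something that does not depend
on `P l` vanishes. -/
theorem integral_char_eq_zero {m : Fin 2 → ℤ} (hm : m ≠ 0) {i l : Fin n} (hil : i ≠ l)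
    {G : (Fin n → Tor 2) → ℝ} (hG : Indep l G) :
    ∫ P, (mFourier m (P i - P l)).re * G P ∂(iidLaw 2 n) = 0 := by
  obtain ⟨v, hv⟩ := exists_neg_one hm
  have h1 := integral_add_left_eq_self (μ := iidLaw 2 n)
    (fun P => (mFourier m (P i - P l)).re * G P) (sh l v)
  have h2 : ∀ P : Fin n → Tor 2,
      (mFourier m ((sh l v + P) i - (sh l v + P) l)).re * G (sh l v + P) =
        -((mFourier m (P i - P l)).re * G P) := by
    intro P
    rw [hG v P, single_add_of_ne hil, single_add_same]
    have h3 : P i - (v + P l) = (P i - P l) - v := by abel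
    rw [h3, mFourier_sub_apply, mFourier_neg, hv]
    simp
  simp only [h2] at h1
  rw [integral_neg] at h1
  linarith

theorem measurable_char (m : Fin 2 → ℤ) (i l : Fin n) :
    Measurable fun P : Fin n → Tor 2 => (mFourier m (P i - P l)).re := by
  have : Continuous fun P : Fin n → Tor 2 => (mFourier m (P i - P l)).re := by
    refine Complex.continuous_re.comp ((map_continuous (mFourier m)).comp ?_)
    fun_prop
  exact this.measurable

theorem measurable_KK (r : ℕ) (i l : Fin n) :
    Measurable fun P : Fin n → Tor 2 => KK r (P i - P l) := by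
  have : Continuous fun P : Fin n → Tor 2 => KK r (P i - P l) := by
    refine (continuous_KK r).comp ?_
    fun_prop
  exact this.measurable

theorem integrable_char_mul {m : Fin 2 → ℤ} {i l : Fin n} {G : (Fin n → Tor 2) → ℝ}
    (hm : Measurable G) {B : ℝ} (hB : ∀ P, |G P| ≤ B) :
    Integrable (fun P => (mFourier m (P i - P l)).re * G P) (iidLaw 2 n) := by
  refine integrable_of_bdd ((measurable_char m i l).mul hm) (B := 1 * B) fun P => ?_
  rw [abs_mul]
  exact mul_le_mul (abs_re_mFourier_le _ _) (hB P) (abs_nonneg _) zero_le_one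

/-- `E[K(P i - P l) G] = 0`. -/
theorem integral_KK_eq_zero (r : ℕ) {i l : Fin n} (hil : i ≠ l)
    {G : (Fin n → Tor 2) → ℝ} (hG : Indep l G) (hm : Measurable G) {B : ℝ}
    (hB : ∀ P, |G P| ≤ B) :
    ∫ P, KK r (P i - P l) * G P ∂(iidLaw 2 n) = 0 := by
  have h1 : ∀ P : Fin n → Tor 2, KK r (P i - P l) * G P =
      ∑ h ∈ Lam r, (mFourier h (P i - P l)).re * G P := by
    intro P
    unfold KK
    rw [Finset.sum_mul]
  simp only [h1]
  rw [integral_finsetSum _ fun h _ => integrable_char_mul hm hB]
  refine Finset.sum_eq_zero fun h hh => ?_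
  refine integral_char_eq_zero ?_ hil hG
  rintro rfl
  exact zero_notMem_Lam r hh

/-- `E[K(P i - P l)^2 G] = R E[G]`. -/
theorem integral_KK_sq (r : ℕ) {i l : Fin n} (hil : i ≠ l)
    {G : (Fin n → Tor 2) → ℝ} (hG : Indep l G) (hm : Measurable G) {B : ℝ}
    (hB : ∀ P, |G P| ≤ B) :
    ∫ P, KK r (P i - P l) ^ 2 * G P ∂(iidLaw 2 n) =
      (Lam r).card * ∫ P, G P ∂(iidLaw 2 n) := by
  have h1 : ∀ P : Fin n → Tor 2, KK r (P i - P l) ^ 2 * G P =
      ∑ h ∈ Lam r, ∑ h' ∈ Lam r, (mFourier (h - h') (P i - P l)).re * G P := by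
    intro P
    rw [KK_sq, Finset.sum_mul]
    refine Finset.sum_congr rfl fun h _ => ?_
    rw [Finset.sum_mul]
  simp only [h1]
  rw [integral_finsetSum _ fun h _ => integrable_finsetSum _ fun h' _ => integrable_char_mul hm hB]
  have h2 : ∀ h ∈ Lam r, ∫ P, ∑ h' ∈ Lam r, (mFourier (h - h') (P i - P l)).re * G P
      ∂(iidLaw 2 n) = ∫ P, G P ∂(iidLaw 2 n) := by
    intro h hh
    rw [integral_finsetSum _ fun h' _ => integrable_char_mul hm hB]
    rw [Finset.sum_eq_single h]
    · simp [mFourier_zero_left]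
    · intro h' _ hne
      exact integral_char_eq_zero (sub_ne_zero.2 hne.symm) hil hG
    · intro hcon
      exact absurd hh hcon
  rw [Finset.sum_congr rfl h2]
  simp

theorem measurableSet_near (a b : ℕ) (i j : Fin n) :
    MeasurableSet {P : Fin n → Tor 2 | near a b (P i) (P j)} := by
  unfold near
  have h1 : IsClosed {P : Fin n → Tor 2 | ‖P i 0 - P j 0‖ ≤ 1 / 2 ^ a} :=
    isClosed_le (by fun_prop) continuous_const
  have h2 : IsClosed {P : Fin n → Tor 2 | ‖P i 1 - P j 1‖ ≤ 1 / 2 ^ b} :=
    isClosed_le (by fun_prop) continuous_const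
  exact (h1.inter h2).measurableSet

/-- indicator of `near` -/
def nearI (a b : ℕ) (x y : Tor 2) : ℝ := by
  classical
  exact if near a b x y then 1 else 0

theorem nearI_nonneg (a b : ℕ) (x y : Tor 2) : 0 ≤ nearI a b x y := by
  unfold nearI
  split_ifs <;> norm_num

theorem nearI_le_one (a b : ℕ) (x y : Tor 2) : nearI a b x y ≤ 1 := by
  unfold nearI
  split_ifs <;> norm_num

theorem nearI_eq_indicator (a b : ℕ) (i j : Fin n) :
    (fun P : Fin n → Tor 2 => nearI a b (P i) (P j)) =
      {P : Fin n → Tor 2 | near a b (P i) (P j)}.indicator (fun _ => (1 : ℝ)) := by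
  ext P
  unfold nearI
  by_cases h : near a b (P i) (P j)
  · rw [if_pos h, Set.indicator_of_mem]
    exact h
  · rw [if_neg h, Set.indicator_of_notMem]
    exact h

theorem measurable_nearI (a b : ℕ) (i j : Fin n) :
    Measurable fun P : Fin n → Tor 2 => nearI a b (P i) (P j) := by
  rw [nearI_eq_indicator]
  exact measurable_const.indicator (measurableSet_near a b i j)

/-- The probability that two points are close. -/
theorem prob_near (a b : ℕ) {i j : Fin n} (hij : i ≠ j) :
    iidLaw 2 n {P | near a b (P i) (P j)} ≤ ENNReal.ofReal (4 / 2 ^ (a + b)) := by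
  set E := {P : Fin n → Tor 2 | near a b (P i) (P j)} with hE
  have hEm : MeasurableSet E := measurableSet_near a b i j
  set F : (Fin n → Tor 2) → ℝ≥0∞ := E.indicator (fun _ => 1) with hF
  have hFm : Measurable F := measurable_const.indicator hEm
  have h1 : iidLaw 2 n E = ∫⁻ P, F P ∂(iidLaw 2 n) := by
    rw [hF, lintegral_indicator hEm]
    simp
  have h2 : ∀ τ : Tor 2, ∫⁻ P, F (sh j τ + P) ∂(iidLaw 2 n) = ∫⁻ P, F P ∂(iidLaw 2 n) :=
    fun τ => lintegral_add_left_eq_self F (sh j τ)
  have h3 : ∫⁻ P, F P ∂(iidLaw 2 n) =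
      ∫⁻ τ, ∫⁻ P, F (sh j τ + P) ∂(iidLaw 2 n) ∂(unif 2) := by
    simp only [h2]
    simp
  have hmeas : Measurable fun p : Tor 2 × (Fin n → Tor 2) => F (sh j p.1 + p.2) := by
    apply hFm.comp
    rw [measurable_pi_iff]
    intro i'
    by_cases hi' : i' = j
    · subst hi'
      simp only [single_add_same]
      exact measurable_fst.add ((measurable_pi_apply i').comp measurable_snd)
    · simp only [single_add_of_ne hi']
      exact (measurable_pi_apply i').comp measurable_snd
  rw [h1, h3, lintegral_lintegral_swap hmeas.aemeasurable]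
  calc ∫⁻ P, ∫⁻ τ, F (sh j τ + P) ∂(unif 2) ∂(iidLaw 2 n)
      ≤ ∫⁻ _P : Fin n → Tor 2, ENNReal.ofReal (4 / 2 ^ (a + b)) ∂(iidLaw 2 n) := by
        refine lintegral_mono fun P => ?_
        have h4 : ∀ τ, F (sh j τ + P) =
            {τ : Tor 2 | ‖τ 0 - (P i - P j) 0‖ ≤ 1 / 2 ^ a ∧
              ‖τ 1 - (P i - P j) 1‖ ≤ 1 / 2 ^ b}.indicator (fun _ => 1) τ := by
          intro τ
          have h5 : sh j τ + P ∈ E ↔ τ ∈ {τ : Tor 2 | ‖τ 0 - (P i - P j) 0‖ ≤ 1 / 2 ^ a ∧
              ‖τ 1 - (P i - P j) 1‖ ≤ 1 / 2 ^ b} := by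
            rw [hE]
            simp only [Set.mem_ofPred_eq]
            unfold near
            rw [single_add_of_ne hij, single_add_same]
            have e : ∀ t : Fin 2, ‖P i t - (τ + P j) t‖ = ‖τ t - (P i - P j) t‖ := by
              intro t
              rw [← norm_neg]
              congr 1
              simp only [Pi.add_apply, Pi.sub_apply]
              abel
            rw [e, e]
          by_cases h6 : sh j τ + P ∈ E
          · rw [hF, Set.indicator_of_mem h6, Set.indicator_of_mem (h5.1 h6)]
          · rw [hF, Set.indicator_of_notMem h6, Set.indicator_of_notMem (fun h => h6 (h5.2 h))]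
        simp only [h4]
        rw [lintegral_indicator (measurableSet_rect _ _ _)]
        simp only [lintegral_const, Measure.restrict_apply MeasurableSet.univ, Set.univ_inter,
          one_mul]
        refine (unif_rect_le (P i - P j) (by positivity)).trans (le_of_eq ?_)
        congr 1
        rw [pow_add]
        field_simp
    _ = ENNReal.ofReal (4 / 2 ^ (a + b)) := by simp

theorem integral_nearI_le (a b : ℕ) {i j : Fin n} (hij : i ≠ j) :
    ∫ P, nearI a b (P i) (P j) ∂(iidLaw 2 n) ≤ 4 / 2 ^ (a + b) := by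
  rw [nearI_eq_indicator, integral_indicator (measurableSet_near a b i j)]
  simp only [integral_const, MeasurableSet.univ, measureReal_restrict_apply, univ_inter,
    smul_eq_mul, mul_one]
  exact ENNReal.toReal_le_of_le_ofReal (by positivity) (prob_near a b hij)

/-- The residuals. -/
def ee (r : ℕ) (P : Fin n → Tor 2) (i : Fin n) : ℝ :=
  -(∑ j ∈ Finset.univ.erase i, KK r (P i - P j)) / (Lam r).card

theorem measurable_ee (r : ℕ) (i : Fin n) :
    Measurable fun P : Fin n → Tor 2 => ee r P i := by
  unfold ee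
  refine Measurable.div_const (Measurable.neg ?_) _
  exact Finset.measurable_fun_sum _ fun j _ => measurable_KK r i j

theorem abs_ee_le (r : ℕ) (P : Fin n → Tor 2) (i : Fin n) : |ee r P i| ≤ n := by
  unfold ee
  rw [abs_div, abs_neg, Nat.abs_cast]
  rcases Nat.eq_zero_or_pos (Lam r).card with h | h
  · rw [h]
    simp
  · have hR : (0 : ℝ) < (Lam r).card := by exact_mod_cast h
    rw [div_le_iff₀ hR]
    calc |∑ j ∈ Finset.univ.erase i, KK r (P i - P j)|
        ≤ ∑ j ∈ Finset.univ.erase i, |KK r (P i - P j)| := Finset.abs_sum_le_sum_abs _ _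
      _ ≤ ∑ j ∈ Finset.univ.erase i, ((Lam r).card : ℝ) :=
          Finset.sum_le_sum fun j _ => abs_KK_le r _
      _ = ((Finset.univ.erase i).card : ℝ) * (Lam r).card := by simp
      _ ≤ n * (Lam r).card := by
          apply mul_le_mul_of_nonneg_right _ hR.le
          have : (Finset.univ.erase i).card ≤ n := by
            have := Finset.card_le_univ (Finset.univ.erase i)
            rwa [Fintype.card_fin] at this
          exact_mod_cast this

/-- Second moment of the residual, localised to the event that `P i` and `P j` are close, or not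
localised (`G = 1`). -/
theorem integral_ee_sq_mul (r : ℕ) (i : Fin n) {G : (Fin n → Tor 2) → ℝ} (hm : Measurable G)
    {B : ℝ} (hB : ∀ P, |G P| ≤ B) (j : Fin n)
    (hG : ∀ l, l ≠ i → l ≠ j → Indep l G) :
    (Lam r).card ^ 2 * ∫ P, ee r P i ^ 2 * G P ∂(iidLaw 2 n) =
      ∑ l ∈ Finset.univ.erase i, ∫ P, KK r (P i - P l) ^ 2 * G P ∂(iidLaw 2 n) := by
  rcases Nat.eq_zero_or_pos (Lam r).card with h | h
  · have hem : Lam r = ∅ := Finset.card_eq_zero.1 h
    have hK : ∀ y, KK r y = 0 := fun y => by
      unfold KK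
      rw [hem]
      simp
    simp [hK, hem]
  have hR : ((Lam r).card : ℝ) ≠ 0 := by positivity
  have h1 : ∀ P : Fin n → Tor 2, ((Lam r).card : ℝ) ^ 2 * (ee r P i ^ 2 * G P) =
      ∑ l ∈ Finset.univ.erase i, ∑ l' ∈ Finset.univ.erase i,
        KK r (P i - P l) * (KK r (P i - P l') * G P) := by
    intro P
    unfold ee
    have : ((Lam r).card : ℝ) ^ 2 *
        ((-(∑ j ∈ Finset.univ.erase i, KK r (P i - P j)) / (Lam r).card) ^ 2 * G P) =
        (∑ j ∈ Finset.univ.erase i, KK r (P i - P j)) *
          (∑ j ∈ Finset.univ.erase i, KK r (P i - P j)) * G P := by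
      field_simp
    rw [this, Finset.sum_mul_sum, Finset.sum_mul]
    refine Finset.sum_congr rfl fun l _ => ?_
    rw [Finset.sum_mul]
    refine Finset.sum_congr rfl fun l' _ => ?_
    ring
  have hmKG : ∀ l', Measurable fun P : Fin n → Tor 2 => KK r (P i - P l') * G P := fun l' =>
    (measurable_KK r i l').mul hm
  have hbKG : ∀ l' (P : Fin n → Tor 2), |KK r (P i - P l') * G P| ≤ (Lam r).card * B := by
    intro l' P
    rw [abs_mul]
    exact mul_le_mul (abs_KK_le r _) (hB P) (abs_nonneg _) (by positivity)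
  have hint : ∀ l l' : Fin n, Integrable (fun P : Fin n → Tor 2 =>
      KK r (P i - P l) * (KK r (P i - P l') * G P)) (iidLaw 2 n) := by
    intro l l'
    refine integrable_of_bdd ((measurable_KK r i l).mul (hmKG l'))
      (B := (Lam r).card * ((Lam r).card * B)) fun P => ?_
    rw [abs_mul]
    exact mul_le_mul (abs_KK_le r _) (hbKG l' P) (abs_nonneg _) (by positivity)
  rw [← integral_const_mul]
  simp only [h1]
  rw [integral_finsetSum _ fun l _ => integrable_finsetSum _ fun l' _ => hint l l']
  refine Finset.sum_congr rfl fun l hl => ?_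
  rw [integral_finsetSum _ fun l' _ => hint l l']
  have hli : l ≠ i := Finset.ne_of_mem_erase hl
  rw [Finset.sum_eq_single l]
  · refine integral_congr_ae (Eventually.of_forall fun P => ?_)
    simp only
    ring
  · intro l' hl' hne
    have hl'i : l' ≠ i := Finset.ne_of_mem_erase hl'
    by_cases hlj : l = j
    · -- integrate out `l'`
      have hl'j : l' ≠ j := fun h => hne (h.trans hlj.symm)
      have h2 : ∀ P : Fin n → Tor 2, KK r (P i - P l) * (KK r (P i - P l') * G P) =
          KK r (P i - P l') * (KK r (P i - P l) * G P) := fun P => by ring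
      simp only [h2]
      refine integral_KK_eq_zero r hl'i.symm ?_ (hmKG l) (hbKG l)
      exact (indep_of_ne hl'i.symm hne.symm (fun x y => KK r (x - y))).mul (hG l' hl'i hl'j)
    · refine integral_KK_eq_zero r hli.symm ?_ (hmKG l') (hbKG l')
      exact (indep_of_ne hli.symm hne (fun x y => KK r (x - y))).mul (hG l hli hlj)
  · intro hcon
    exact absurd hl hcon

end Pool.Agent.Helper59.MixInt
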