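import Pool.Agent.Helper59.MixInt.Upper
import Pool.Agent.Helper59.MixInt.Fool

/-!
# The Fibonacci lattice rule
-/

open MeasureTheory UnitAddTorus Filter Topology Set
open scoped ENNReal

noncomputable section

namespace Pool.Agent.Helper59.MixInt

/-- generator of the Fibonacci lattice -/
def gen (m : ℕ) : Tor 2 := fun j => (((if j = 0 then 1 else (ga m : ℝ)) / NN m : ℝ) : UnitAddCircle)

theorem mFourier_nsmul {d : ℕ} (h : Fin d → ℤ) (g : Tor d) (j : ℕ) :
    mFourier h (j • g) = (mFourier h g) ^ j := by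
  induction j with
  | zero => rw [zero_smul, mFourier_zero_apply, pow_zero]
  | succ j ih => rw [succ_nsmul, mFourier_add_apply, ih, pow_succ]

theorem mFourier_gen (m : ℕ) (h : Fin 2 → ℤ) :
    mFourier h (gen m) =
      Complex.exp (2 * Real.pi * Complex.I * ((h 0 + ga m * h 1 : ℤ) : ℂ) / NN m) := by
  have hN : (NN m : ℂ) ≠ 0 := by
    have := NN_pos m
    exact_mod_cast this.ne'
  simp only [mFourier, ContinuousMap.coe_mk, gen]
  rw [Fin.prod_univ_two, fourier_coe_apply, fourier_coe_apply, ← Complex.exp_add]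
  congr 1
  simp only [if_true, Fin.isValue, one_ne_zero, if_false]
  push_cast
  field_simp

theorem mFourier_gen_pow (m : ℕ) (h : Fin 2 → ℤ) : (mFourier h (gen m)) ^ NN m = 1 := by
  have hN : (NN m : ℂ) ≠ 0 := by
    have := NN_pos m
    exact_mod_cast this.ne'
  rw [mFourier_gen, ← Complex.exp_nat_mul, Complex.exp_eq_one_iff]
  refine ⟨h 0 + ga m * h 1, ?_⟩
  field_simp

theorem mFourier_gen_eq_one_iff (m : ℕ) (h : Fin 2 → ℤ) : mFourier h (gen m) = 1 ↔ inD m h := by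
  have hN : (NN m : ℂ) ≠ 0 := by
    have := NN_pos m
    exact_mod_cast this.ne'
  have hpi : (2 * Real.pi * Complex.I : ℂ) ≠ 0 := Complex.two_pi_I_ne_zero
  rw [mFourier_gen, Complex.exp_eq_one_iff]
  unfold inD
  constructor
  · rintro ⟨z, hz⟩
    refine ⟨z, ?_⟩
    have h1 : ((h 0 + ga m * h 1 : ℤ) : ℂ) = NN m * z := by
      rw [mul_div_assoc, mul_comm, mul_left_inj' hpi] at hz
      rw [div_eq_iff hN] at hz
      rw [hz]
      ring
    exact_mod_cast h1
  · rintro ⟨z, hz⟩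
    refine ⟨z, ?_⟩
    rw [hz]
    push_cast
    field_simp

open Classical in
/-- Character sums over the lattice. -/
theorem sum_char (m : ℕ) (h : Fin 2 → ℤ) :
    (1 / (NN m : ℂ)) * ∑ j ∈ Finset.range (NN m), mFourier h (j • gen m) =
      if inD m h then 1 else 0 := by
  have hN : (NN m : ℂ) ≠ 0 := by
    have := NN_pos m
    exact_mod_cast this.ne'
  simp only [mFourier_nsmul]
  split_ifs with hD
  · rw [(mFourier_gen_eq_one_iff m h).2 hD]
    simp
    field_simp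
  · have h1 : mFourier h (gen m) ≠ 1 := fun h => hD ((mFourier_gen_eq_one_iff m _).1 h)
    rw [geom_sum_eq h1, mFourier_gen_pow]
    simp

theorem sum_sq_le {k : ℝ} {f : Tor 2 → ℝ} (hf : f ∈ mixBall 2 k) (u : Finset (Fin 2 → ℤ)) :
    ∑ h ∈ u, ‖mFourierCoeff (fun x => (f x : ℂ)) h‖ ^ 2 * wt k h ≤ 1 := by
  have h1 := hf.2
  unfold mixNormSq at h1
  have h2 := (ENNReal.sum_le_tsum u).trans h1
  rw [← ENNReal.ofReal_sum_of_nonneg] at h2
  · exact ENNReal.ofReal_le_one.1 h2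
  · intro h _
    have : 0 ≤ ∏ j, (1 + (h j : ℝ) ^ 2) ^ k := Finset.prod_nonneg fun j _ => by positivity
    positivity

theorem sum_norm_le {k : ℝ} {f : Tor 2 → ℝ} (hf : f ∈ mixBall 2 k) (u : Finset (Fin 2 → ℤ))
    {B : ℝ} (hB : ∑ h ∈ u, (wt k h)⁻¹ ≤ B) :
    ∑ h ∈ u, ‖mFourierCoeff (fun x => (f x : ℂ)) h‖ ≤ √B := by
  apply Real.le_sqrt_of_sq_le
  have h1 := Finset.sum_mul_sq_le_sq_mul_sq u
    (fun h => ‖mFourierCoeff (fun x => (f x : ℂ)) h‖ * √(wt k h)) (fun h => (√(wt k h))⁻¹)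
  have e1 : ∑ h ∈ u, ‖mFourierCoeff (fun x => (f x : ℂ)) h‖ * √(wt k h) * (√(wt k h))⁻¹ =
      ∑ h ∈ u, ‖mFourierCoeff (fun x => (f x : ℂ)) h‖ := by
    refine Finset.sum_congr rfl fun h _ => ?_
    have := Real.sqrt_pos.2 (wt_pos k h)
    field_simp
  have e2 : ∑ h ∈ u, (‖mFourierCoeff (fun x => (f x : ℂ)) h‖ * √(wt k h)) ^ 2 =
      ∑ h ∈ u, ‖mFourierCoeff (fun x => (f x : ℂ)) h‖ ^ 2 * wt k h := by
    refine Finset.sum_congr rfl fun h _ => ?_
    rw [mul_pow, Real.sq_sqrt (wt_pos k h).le]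
  have e3 : ∑ h ∈ u, ((√(wt k h))⁻¹) ^ 2 = ∑ h ∈ u, (wt k h)⁻¹ := by
    refine Finset.sum_congr rfl fun h _ => ?_
    rw [inv_pow, Real.sq_sqrt (wt_pos k h).le]
  rw [e1, e2, e3] at h1
  have h2 := sum_sq_le hf u
  have h3 : 0 ≤ ∑ h ∈ u, (wt k h)⁻¹ := Finset.sum_nonneg fun h _ => (inv_pos.2 (wt_pos k h)).le
  calc _ ≤ _ := h1
    _ ≤ 1 * ∑ h ∈ u, (wt k h)⁻¹ := mul_le_mul_of_nonneg_right h2 h3
    _ ≤ B := by rwa [one_mul]

theorem summable_coeff {k : ℝ} (hk : 1 / 2 < k) {f : Tor 2 → ℝ} (hf : f ∈ mixBall 2 k) :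
    Summable (mFourierCoeff (fun x => (f x : ℂ))) := by
  apply Summable.of_norm
  exact summable_of_sum_le (fun h => norm_nonneg _) fun u => sum_norm_le hf u (sum_inv_wt_le hk u)

/-- Error of the Fibonacci lattice rule. -/
theorem rule_error {k : ℝ} (hk : 1 / 2 < k) (m t₀ : ℕ) (ht₀ : 6 * 2 ^ t₀ ≤ 2 * NN m ∨ t₀ = 0)
    {f : Tor 2 → ℝ} (hf : f ∈ mixBall 2 k) :
    |integ f - (1 / NN m) * ∑ j ∈ Finset.range (NN m), f (j • gen m)| ≤
      √(16 ^ k * (30 / NN m) * ((t₀ + 1) * xx k ^ t₀ / (1 - xx k) ^ 2)) := by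
  classical
  have hs := summable_coeff hk hf
  set F : C(Tor 2, ℂ) := ⟨fun x => (f x : ℂ), Complex.continuous_ofReal.comp hf.1⟩ with hF
  have hsF : Summable (mFourierCoeff F) := hs
  have h1 : ∀ x, HasSum (fun h => mFourierCoeff (fun x => (f x : ℂ)) h • mFourier h x) (f x : ℂ) :=
    fun x => hasSum_mFourier_series_apply_of_summable hsF x
  set Q : ℝ := (1 / NN m) * ∑ j ∈ Finset.range (NN m), f (j • gen m) with hQ
  have h2 : HasSum (fun h => if inD m h then mFourierCoeff (fun x => (f x : ℂ)) h else 0)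
      (Q : ℂ) := by
    have h3 := (hasSum_sum (s := Finset.range (NN m)) fun j _ => h1 (j • gen m)).mul_left
      (1 / (NN m : ℂ))
    have e : (1 / (NN m : ℂ)) * ∑ j ∈ Finset.range (NN m), ((f (j • gen m) : ℝ) : ℂ) = (Q : ℂ) := by
      rw [hQ]
      push_cast
      rfl
    rw [e] at h3
    have e' : (fun h => if inD m h then mFourierCoeff (fun x => (f x : ℂ)) h else 0) =
        fun h => 1 / (NN m : ℂ) * ∑ j ∈ Finset.range (NN m),
          mFourierCoeff (fun x => (f x : ℂ)) h • mFourier h (j • gen m) := by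
      funext h
      have h4 := sum_char m h
      simp only [smul_eq_mul]
      rw [← Finset.mul_sum, mul_left_comm, h4]
      split_ifs <;> simp
    rw [e']
    exact h3
  have h3 : HasSum (fun h : Fin 2 → ℤ => if h = 0 then mFourierCoeff (fun x => (f x : ℂ)) 0 else 0)
      (integ f : ℂ) := by
    rw [integ_eq_coeff]
    exact hasSum_ite_eq 0 _
  have h4 := h2.sub h3
  have h5 : ‖(Q : ℂ) - (integ f : ℂ)‖ ≤
      √(16 ^ k * (30 / NN m) * ((t₀ + 1) * xx k ^ t₀ / (1 - xx k) ^ 2)) := by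
    refine le_of_tendsto h4.norm (Eventually.of_forall fun u => ?_)
    have e : ∑ h ∈ u, ((if inD m h then mFourierCoeff (fun x => (f x : ℂ)) h else 0) -
        (if h = 0 then mFourierCoeff (fun x => (f x : ℂ)) 0 else 0)) =
        ∑ h ∈ u with inD m h ∧ h ≠ 0, mFourierCoeff (fun x => (f x : ℂ)) h := by
      rw [Finset.sum_filter]
      refine Finset.sum_congr rfl fun h _ => ?_
      by_cases h0 : h = 0
      · subst h0
        have : inD m 0 := by
          unfold inD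
          simp
        simp [this]
      · simp [h0]
    rw [e]
    refine (norm_sum_le _ _).trans ?_
    refine sum_norm_le hf _ (sum_dual_le hk m t₀ ht₀ _ ?_)
    intro h hh
    exact (Finset.mem_filter.1 hh).2
  rw [← Complex.ofReal_sub, Complex.norm_real, Real.norm_eq_abs, abs_sub_comm] at h5
  exact h5

/-- The deterministic Fibonacci lattice rule as an algorithm using at most `n` points. -/
def fibAlg (n m : ℕ) : RandAlg 2 n where
  Ω := Unit
  mΩ := inferInstance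
  μ := Measure.dirac ()
  prob := inferInstance
  pts _ i := if (i : ℕ) < NN m then (i : ℕ) • gen m else 0
  meas := measurable_const
  φ _ y := (1 / NN m) * ∑ i : Fin n, if (i : ℕ) < NN m then y i else 0

theorem fibAlg_out {n m : ℕ} (hm : NN m ≤ n) (f : Tor 2 → ℝ) (ω : (fibAlg n m).Ω) :
    (fibAlg n m).out ω f = (1 / NN m) * ∑ j ∈ Finset.range (NN m), f (j • gen m) := by
  unfold RandAlg.out fibAlg
  simp only
  congr 1
  rw [Fin.sum_univ_eq_sum_range
    (fun i : ℕ => if i < NN m then f (if i < NN m then i • gen m else 0) else 0) n]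
  rw [← Finset.sum_subset (Finset.range_subset_range.2 hm)]
  · refine Finset.sum_congr rfl fun j hj => ?_
    rw [Finset.mem_range] at hj
    simp [hj]
  · intro j _ hj
    rw [Finset.mem_range] at hj
    simp [hj]

/-- constant in the upper bound -/
def CU (k : ℝ) : ℝ := √(16 ^ k * 60 * 12 ^ (2 * k - 1) * 4 / (1 - xx k) ^ 2)

theorem eUnif_le {k : ℝ} (hk : 1 / 2 < k) {n : ℕ} (hn : 2 ≤ n) :
    eUnif 2 k n ≤ ENNReal.ofReal (CU k * ((n : ℝ) ^ (-k) * (Real.log n) ^ (1 / 2 : ℝ))) := by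
  obtain ⟨m, hm1, hm2⟩ : ∃ m, NN m ≤ n ∧ n < 2 * NN m := by
    have h1 := Nat.fib_greatestFib_le n
    have h2 := Nat.lt_fib_greatestFib_add_one n
    have h0 : n.greatestFib ≠ 0 := by
      intro h0
      rw [h0] at h2
      simp at h2
      omega
    obtain ⟨m, hm⟩ := Nat.exists_eq_succ_of_ne_zero h0
    refine ⟨m, ?_, ?_⟩
    · unfold NN
      rwa [hm] at h1
    · rw [hm] at h2
      have h3 : Nat.fib (m + 2) = Nat.fib m + Nat.fib (m + 1) := Nat.fib_add_two
      have h4 : Nat.fib m ≤ Nat.fib (m + 1) := Nat.fib_le_fib_succ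
      have h5 : n < Nat.fib (m + 2) := h2
      unfold NN
      omega
  have hN := NN_pos m
  set N := NN m with hNdef
  set t₀ := Nat.log 2 (N / 3) with ht₀
  have hA : 6 * 2 ^ t₀ ≤ 2 * N ∨ t₀ = 0 := by
    rcases Nat.eq_zero_or_pos (N / 3) with h | h
    · right
      rw [ht₀, h]
      simp
    · left
      have h1 := Nat.pow_log_le_self 2 (x := N / 3) (by omega)
      rw [← ht₀] at h1
      omega
  have hB : n < 12 * 2 ^ t₀ := by
    have h1 := Nat.lt_pow_succ_log_self (b := 2) (by norm_num) (N / 3)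
    rw [← ht₀, pow_succ] at h1
    omega
  have hC : 2 ^ t₀ ≤ n := by
    rcases hA with h | h
    · omega
    · rw [h]
      omega
  have hx0 := xx_pos k
  have hx1 := xx_lt_one hk
  have h1x : 0 < 1 - xx k := by linarith
  have hn0 : (0 : ℝ) < n := by
    have : 0 < n := by omega
    exact_mod_cast this
  have hN0 : (0 : ℝ) < N := by exact_mod_cast hN
  have hlog : (0 : ℝ) < Real.log n := Real.log_pos (by exact_mod_cast (by omega : 1 < n))
  have hlog2 : (1 : ℝ) / 2 < Real.log 2 := by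
    have := Real.log_two_gt_d9
    linarith
  have ht1 : (t₀ : ℝ) + 1 ≤ 4 * Real.log n := by
    have h1 : (t₀ : ℝ) * Real.log 2 ≤ Real.log n := by
      rw [← Real.log_pow]
      apply Real.log_le_log (by positivity)
      exact_mod_cast hC
    have h2 : Real.log 2 ≤ Real.log n := Real.log_le_log (by norm_num) (by exact_mod_cast hn)
    have h3 : (0 : ℝ) ≤ t₀ := by positivity
    nlinarith
  have hx2 : xx k ^ t₀ ≤ 12 ^ (2 * k - 1) * (n : ℝ) ^ (-(2 * k - 1)) := by
    have h1 : (n : ℝ) / 12 ≤ 2 ^ t₀ := by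
      rw [div_le_iff₀ (by norm_num)]
      have : (n : ℝ) ≤ 12 * 2 ^ t₀ := by exact_mod_cast hB.le
      linarith
    have h2 : xx k ^ t₀ = ((2 : ℝ) ^ t₀) ^ (-(2 * k - 1)) := by
      unfold xx
      rw [Real.rpow_pow_comm (by norm_num)]
    rw [h2]
    calc ((2 : ℝ) ^ t₀) ^ (-(2 * k - 1)) ≤ ((n : ℝ) / 12) ^ (-(2 * k - 1)) :=
          Real.rpow_le_rpow_of_nonpos (by positivity) h1 (by linarith)
      _ = 12 ^ (2 * k - 1) * (n : ℝ) ^ (-(2 * k - 1)) := by
          rw [Real.div_rpow hn0.le (by norm_num), Real.rpow_neg (by norm_num : (0 : ℝ) ≤ 12)]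
          field_simp
  have hmain : ∀ f ∈ mixBall 2 k, ∀ ω : (fibAlg n m).Ω,
      |integ f - (fibAlg n m).out ω f| ≤ CU k * ((n : ℝ) ^ (-k) * (Real.log n) ^ (1 / 2 : ℝ)) := by
    intro f hf ω
    rw [fibAlg_out hm1]
    refine (rule_error hk m t₀ hA hf).trans ?_
    have e : CU k * ((n : ℝ) ^ (-k) * (Real.log n) ^ (1 / 2 : ℝ)) =
        √(16 ^ k * 60 * 12 ^ (2 * k - 1) * 4 / (1 - xx k) ^ 2 *
          ((n : ℝ) ^ (-(2 * k)) * Real.log n)) := by
      have e1 : (0 : ℝ) ≤ 16 ^ k * 60 * 12 ^ (2 * k - 1) * 4 / (1 - xx k) ^ 2 := by positivity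
      rw [Real.sqrt_mul e1, Real.sqrt_mul (by positivity)]
      unfold CU
      congr 2
      · rw [Real.sqrt_eq_rpow, ← Real.rpow_mul hn0.le]
        congr 1
        ring
      · rw [Real.sqrt_eq_rpow]
    rw [e]
    apply Real.sqrt_le_sqrt
    have h30 : (30 : ℝ) / N ≤ 60 / n := by
      rw [div_le_div_iff₀ hN0 hn0]
      have : (n : ℝ) ≤ 2 * N := by exact_mod_cast hm2.le
      linarith
    have e2 : (n : ℝ) ^ (-(2 * k)) = (n : ℝ)⁻¹ * (n : ℝ) ^ (-(2 * k - 1)) := by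
      rw [← Real.rpow_neg_one, ← Real.rpow_add hn0]
      congr 1
      ring
    calc 16 ^ k * (30 / (N : ℝ)) * (((t₀ : ℝ) + 1) * xx k ^ t₀ / (1 - xx k) ^ 2)
        ≤ 16 ^ k * (60 / (n : ℝ)) * ((4 * Real.log n) *
          (12 ^ (2 * k - 1) * (n : ℝ) ^ (-(2 * k - 1))) / (1 - xx k) ^ 2) := by
          gcongr
      _ = _ := by
          rw [e2]
          field_simp
  -- conclusion
  refine (iInf_le _ (fibAlg n m)).trans ?_
  unfold RandAlg.errUnif upperInt
  refine (iInf_le _ (fun _ => ENNReal.ofReal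
    (CU k * ((n : ℝ) ^ (-k) * (Real.log n) ^ (1 / 2 : ℝ))))).trans ?_
  refine (iInf_le _ measurable_const).trans ?_
  refine (iInf_le _ fun ω => ?_).trans ?_
  · refine iSup_le fun f => iSup_le fun hf => ?_
    exact ENNReal.ofReal_le_ofReal (hmain f hf ω)
  · rw [lintegral_const, measure_univ, mul_one]

end Pool.Agent.Helper59.MixInt
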