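import Pool.Agent.Helper59.MixInt.Bump

/-!
# The hyperbolic layer and its Dirichlet kernel
-/

open MeasureTheory UnitAddTorus Filter Topology Set
open scoped ENNReal

noncomputable section

namespace Pool.Agent.Helper59.MixInt

section characters

variable {d : ℕ}

theorem mFourier_add_apply (m : Fin d → ℤ) (x y : Tor d) :
    mFourier m (x + y) = mFourier m x * mFourier m y := by
  simp only [mFourier, ContinuousMap.coe_mk, Pi.add_apply, ← Finset.prod_mul_distrib]
  refine Finset.prod_congr rfl fun i _ => ?_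
  rw [fourier_apply, fourier_apply, fourier_apply, ← Circle.coe_mul, ← AddCircle.toCircle_add,
    ← smul_add]

theorem mFourier_zero_apply (m : Fin d → ℤ) : mFourier m (0 : Tor d) = 1 := by
  simp only [mFourier, ContinuousMap.coe_mk, Pi.zero_apply]
  refine Finset.prod_eq_one fun i _ => ?_
  rw [fourier_eval_zero]

theorem mFourier_neg_apply (m : Fin d → ℤ) (x : Tor d) :
    mFourier m (-x) = mFourier (-m) x := by
  simp only [mFourier, ContinuousMap.coe_mk, Pi.neg_apply]
  refine Finset.prod_congr rfl fun i _ => ?_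
  rw [fourier_apply, fourier_apply]
  congr 2
  simp

theorem mFourier_sub_apply (m : Fin d → ℤ) (x y : Tor d) :
    mFourier m (x - y) = mFourier m x * mFourier (-m) y := by
  rw [sub_eq_add_neg, mFourier_add_apply, mFourier_neg_apply]

theorem mFourier_zero_left (x : Tor d) : mFourier (0 : Fin d → ℤ) x = 1 := by
  rw [mFourier_zero]
  rfl

/-- A non-trivial character takes the value `-1`. -/
theorem exists_neg_one {m : Fin d → ℤ} (hm : m ≠ 0) : ∃ v : Tor d, mFourier m v = -1 := by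
  obtain ⟨j, hj⟩ := Function.ne_iff.1 hm
  have hj' : (m j : ℝ) ≠ 0 := by exact_mod_cast hj
  refine ⟨Pi.single j (((1 / (2 * (m j : ℝ)) : ℝ)) : UnitAddCircle), ?_⟩
  simp only [mFourier, ContinuousMap.coe_mk]
  rw [Finset.prod_eq_single j]
  · rw [Pi.single_eq_same, fourier_coe_apply]
    have : 2 * (Real.pi : ℂ) * Complex.I * (m j : ℂ) * ((1 / (2 * (m j : ℝ)) : ℝ) : ℂ) / ((1 : ℝ) : ℂ)
        = Real.pi * Complex.I := by
      have hj'' : (m j : ℂ) ≠ 0 := by exact_mod_cast hj
      push_cast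
      field_simp
    rw [this, Complex.exp_pi_mul_I]
  · intro i _ hi
    rw [Pi.single_eq_of_ne hi, fourier_eval_zero]
  · simp

/-- Integral of a character. -/
theorem integral_mFourier (m : Fin d → ℤ) :
    ∫ x, mFourier m x ∂(unif d) = if m = 0 then 1 else 0 := by
  split_ifs with h
  · subst h
    simp [mFourier_zero_left]
  · obtain ⟨v, hv⟩ := exists_neg_one h
    have h1 := integral_add_right_eq_self (μ := unif d) (fun x => mFourier m x) v
    have h2 : ∀ x : Tor d, mFourier m (x + v) = -mFourier m x := by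
      intro x
      rw [mFourier_add_apply, hv]
      ring
    simp only [h2] at h1
    rw [integral_neg] at h1
    have h3 : (2 : ℂ) * ∫ x, mFourier m x ∂(unif d) = 0 := by
      linear_combination -h1
    simpa using h3

/-- Fourier coefficients of a trigonometric polynomial. -/
theorem mFourierCoeff_trig (S : Finset (Fin d → ℤ)) (c : (Fin d → ℤ) → ℂ) (h' : Fin d → ℤ) :
    mFourierCoeff (fun x => ∑ h ∈ S, c h * mFourier h x) h' = if h' ∈ S then c h' else 0 := by
  rw [mFourierCoeff_eq]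
  have h1 : ∀ x : Tor d, mFourier (-h') x * ∑ h ∈ S, c h * mFourier h x =
      ∑ h ∈ S, c h * mFourier (h - h') x := by
    intro x
    rw [Finset.mul_sum]
    refine Finset.sum_congr rfl fun h _ => ?_
    rw [sub_eq_add_neg, mFourier_add]
    ring
  rw [integral_congr_ae (Eventually.of_forall h1), integral_finsetSum]
  · have h2 : ∀ h ∈ S, ∫ x, c h * mFourier (h - h') x ∂(unif d) = if h = h' then c h' else 0 := by
      intro h _
      rw [integral_const_mul, integral_mFourier]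
      by_cases hh : h = h'
      · simp [hh]
      · rw [if_neg (sub_ne_zero.2 hh), if_neg hh, mul_zero]
    rw [Finset.sum_congr rfl h2, Finset.sum_ite_eq' S h' (fun _ => c h')]
  · intro h _
    refine Integrable.const_mul ?_ _
    refine integrable_of_bdd_complex (map_continuous (mFourier (h - h'))).measurable (B := 1) ?_
    intro x
    rw [norm_mFourier_apply]

end characters

section layer

/-- The hyperbolic layer `{h : h₀ h₁ ≠ 0, |h₀ h₁| ≤ r}`. -/
def Lam (r : ℕ) : Finset (Fin 2 → ℤ) :=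
  (Fintype.piFinset fun _ => Finset.Icc (-(r : ℤ)) r).filter
    fun h => h 0 ≠ 0 ∧ h 1 ≠ 0 ∧ |h 0 * h 1| ≤ r

theorem mem_Lam {r : ℕ} {h : Fin 2 → ℤ} :
    h ∈ Lam r ↔ h 0 ≠ 0 ∧ h 1 ≠ 0 ∧ |h 0 * h 1| ≤ r := by
  unfold Lam
  rw [Finset.mem_filter, and_iff_right_iff_imp]
  rintro ⟨h0, h1, h2⟩
  rw [Fintype.mem_piFinset]
  rw [abs_mul] at h2
  have a0 : 1 ≤ |h 0| := Int.one_le_abs h0
  have a1 : 1 ≤ |h 1| := Int.one_le_abs h1
  have b0 : |h 0| ≤ r := by nlinarith [abs_nonneg (h 0)]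
  have b1 : |h 1| ≤ r := by nlinarith [abs_nonneg (h 1)]
  intro i
  fin_cases i
  · exact Finset.mem_Icc.2 (abs_le.1 b0)
  · exact Finset.mem_Icc.2 (abs_le.1 b1)

theorem neg_mem_Lam {r : ℕ} {h : Fin 2 → ℤ} : -h ∈ Lam r ↔ h ∈ Lam r := by
  rw [mem_Lam, mem_Lam]
  simp

theorem zero_notMem_Lam (r : ℕ) : (0 : Fin 2 → ℤ) ∉ Lam r := by
  rw [mem_Lam]
  simp

/-- Size of the layer. -/
theorem card_Lam_ge (r : ℕ) : (r : ℝ) * (Real.log (r + 1) - 1) ≤ (Lam r).card := by
  have h1 : (∑ x ∈ Finset.Icc 1 r, (r / x : ℕ)) ≤ (Lam r).card := by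
    have : ∑ x ∈ Finset.Icc 1 r, (r / x : ℕ) =
        ((Finset.Icc 1 r).sigma fun x => Finset.Icc 1 (r / x)).card := by
      rw [Finset.card_sigma]
      refine Finset.sum_congr rfl fun x _ => ?_
      simp
    rw [this]
    refine Finset.card_le_card_of_injOn (fun p : (_ : ℕ) × ℕ => ![(p.1 : ℤ), (p.2 : ℤ)]) ?_ ?_
    · rintro ⟨x, y⟩ hp
      simp only [Finset.coe_sigma, Set.mem_sigma_iff, Finset.coe_Icc, Set.mem_Icc] at hp
      obtain ⟨⟨hx1, hx2⟩, hy1, hy2⟩ := hp
      rw [Finset.mem_coe, mem_Lam]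
      simp only [Matrix.cons_val_zero, Matrix.cons_val_one]
      refine ⟨by omega, by omega, ?_⟩
      have : x * y ≤ r := by
        calc x * y ≤ x * (r / x) := Nat.mul_le_mul_left x hy2
          _ ≤ r := Nat.mul_div_le r x
      rw [abs_of_nonneg (by positivity)]
      exact_mod_cast this
    · rintro ⟨x, y⟩ _ ⟨x', y'⟩ _ heq
      have e0 := congrFun heq 0
      have e1 := congrFun heq 1
      simp only [Matrix.cons_val_zero, Matrix.cons_val_one, Nat.cast_inj] at e0 e1
      subst e0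
      subst e1
      rfl
  have h2 : (r : ℝ) * (Real.log (r + 1) - 1) ≤ ∑ x ∈ Finset.Icc 1 r, ((r / x : ℕ) : ℝ) := by
    have h3 : ∀ x ∈ Finset.Icc 1 r, (r : ℝ) * ((x : ℝ))⁻¹ - 1 ≤ ((r / x : ℕ) : ℝ) := by
      intro x hx
      have hx1 : 1 ≤ x := (Finset.mem_Icc.1 hx).1
      have hx0 : (0 : ℝ) < x := by exact_mod_cast hx1
      have h4 : r < x * (r / x + 1) := by
        have := Nat.div_add_mod r x
        have := Nat.mod_lt r hx1
        nlinarith
      have h5 : (r : ℝ) < x * ((r / x : ℕ) + 1) := by exact_mod_cast h4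
      have h6 : (r : ℝ) * ((x : ℝ))⁻¹ < (r / x : ℕ) + 1 := by
        rw [← div_eq_mul_inv, div_lt_iff₀ hx0]
        linarith
      linarith
    calc (r : ℝ) * (Real.log (r + 1) - 1) ≤ (r : ℝ) * ((harmonic r : ℚ) : ℝ) - r := by
          have := log_add_one_le_harmonic r
          have h4 : Real.log ((r : ℝ) + 1) ≤ ((harmonic r : ℚ) : ℝ) := by
            have e : ((r + 1 : ℕ) : ℝ) = (r : ℝ) + 1 := by push_cast; ring
            rw [← e]
            exact this
          have h5 : (0 : ℝ) ≤ r := by positivity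
          nlinarith
      _ = ∑ x ∈ Finset.Icc 1 r, ((r : ℝ) * ((x : ℝ))⁻¹ - 1) := by
          rw [Finset.sum_sub_distrib, ← Finset.mul_sum, harmonic_eq_sum_Icc]
          simp
      _ ≤ _ := Finset.sum_le_sum h3
  refine h2.trans ?_
  exact_mod_cast h1

theorem weight_le {r : ℕ} {h : Fin 2 → ℤ} (hh : h ∈ Lam r) {k : ℝ} (hk : 0 ≤ k) :
    ∏ j, (1 + (h j : ℝ) ^ 2) ^ k ≤ (4 * (r : ℝ) ^ 2) ^ k := by
  rw [Fin.prod_univ_two, ← Real.mul_rpow (by positivity) (by positivity)]
  apply Real.rpow_le_rpow (by positivity) _ hk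
  obtain ⟨h0, h1, h2⟩ := mem_Lam.1 hh
  have a0 : (1 : ℝ) ≤ (h 0 : ℝ) ^ 2 := by
    have : (1 : ℤ) ≤ (h 0) ^ 2 := by
      have := Int.one_le_abs h0
      nlinarith [sq_abs (h 0)]
    exact_mod_cast this
  have a1 : (1 : ℝ) ≤ (h 1 : ℝ) ^ 2 := by
    have : (1 : ℤ) ≤ (h 1) ^ 2 := by
      have := Int.one_le_abs h1
      nlinarith [sq_abs (h 1)]
    exact_mod_cast this
  have a2 : ((h 0 : ℝ) * (h 1 : ℝ)) ^ 2 ≤ (r : ℝ) ^ 2 := by
    have : (h 0 * h 1) ^ 2 ≤ (r : ℤ) ^ 2 := by
      rw [← sq_abs (h 0 * h 1)]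
      exact pow_le_pow_left₀ (abs_nonneg _) h2 2
    exact_mod_cast this
  nlinarith

/-- The Dirichlet kernel of the layer. -/
def KK (r : ℕ) (y : Tor 2) : ℝ := ∑ h ∈ Lam r, (mFourier h y).re

theorem KK_ofReal (r : ℕ) (y : Tor 2) : (KK r y : ℂ) = ∑ h ∈ Lam r, mFourier h y := by
  have h1 : (∑ h ∈ Lam r, mFourier h y).im = 0 := by
    have h2 : starRingEnd ℂ (∑ h ∈ Lam r, mFourier h y) = ∑ h ∈ Lam r, mFourier h y := by
      rw [map_sum]
      have : ∀ h ∈ Lam r, starRingEnd ℂ (mFourier h y) = mFourier (-h) y := fun h _ =>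
        mFourier_neg.symm
      rw [Finset.sum_congr rfl this]
      refine Finset.sum_nbij' (fun h => -h) (fun h => -h) ?_ ?_ ?_ ?_ ?_
      · intro h hh
        exact neg_mem_Lam.2 hh
      · intro h hh
        exact neg_mem_Lam.2 hh
      · intro h _
        simp
      · intro h _
        simp
      · intro h _
        rfl
    exact Complex.conj_eq_iff_im.1 h2
  apply Complex.ext
  · rw [Complex.ofReal_re]
    unfold KK
    rw [Complex.re_sum]
  · rw [Complex.ofReal_im, h1]

theorem KK_zero (r : ℕ) : KK r 0 = (Lam r).card := by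
  unfold KK
  simp [mFourier_zero_apply]

theorem abs_re_mFourier_le {d : ℕ} (h : Fin d → ℤ) (y : Tor d) : |(mFourier h y).re| ≤ 1 :=
  (Complex.abs_re_le_norm _).trans (norm_mFourier_apply h y).le

theorem abs_KK_le (r : ℕ) (y : Tor 2) : |KK r y| ≤ (Lam r).card := by
  unfold KK
  refine (Finset.abs_sum_le_sum_abs _ _).trans ?_
  calc ∑ h ∈ Lam r, |(mFourier h y).re| ≤ ∑ h ∈ Lam r, (1 : ℝ) :=
        Finset.sum_le_sum fun h _ => abs_re_mFourier_le h y
    _ = (Lam r).card := by simp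

theorem continuous_KK (r : ℕ) : Continuous (KK r) := by
  unfold KK
  refine continuous_finsetSum _ fun h _ => ?_
  exact Complex.continuous_re.comp (map_continuous (mFourier h))

theorem KK_sq (r : ℕ) (y : Tor 2) :
    KK r y ^ 2 = ∑ h ∈ Lam r, ∑ h' ∈ Lam r, (mFourier (h - h') y).re := by
  have h1 : ((KK r y ^ 2 : ℝ) : ℂ) = ∑ h ∈ Lam r, ∑ h' ∈ Lam r, mFourier (h - h') y := by
    have h2 : (KK r y : ℂ) = starRingEnd ℂ (KK r y : ℂ) := (Complex.conj_ofReal _).symm
    rw [sq, Complex.ofReal_mul]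
    nth_rewrite 2 [h2]
    rw [KK_ofReal, map_sum, Finset.sum_mul_sum]
    refine Finset.sum_congr rfl fun h _ => Finset.sum_congr rfl fun h' _ => ?_
    rw [← mFourier_neg, sub_eq_add_neg, mFourier_add]
  have h3 := congrArg Complex.re h1
  rw [Complex.ofReal_re] at h3
  rw [h3, Complex.re_sum]
  refine Finset.sum_congr rfl fun h _ => ?_
  rw [Complex.re_sum]

/-- The symmetry of the kernel. -/
theorem KK_neg (r : ℕ) (y : Tor 2) : KK r (-y) = KK r y := by
  have h1 : (KK r (-y) : ℂ) = (KK r y : ℂ) := by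
    rw [KK_ofReal, KK_ofReal]
    refine Finset.sum_nbij' (fun h => -h) (fun h => -h) ?_ ?_ ?_ ?_ ?_
    · intro h hh
      exact neg_mem_Lam.2 hh
    · intro h hh
      exact neg_mem_Lam.2 hh
    · intro h _
      simp
    · intro h _
      simp
    · intro h _
      exact mFourier_neg_apply h y
  exact_mod_cast h1

end layer

end Pool.Agent.Helper59.MixInt
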