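import Pool.Agent.Helper59.MixInt.Fib

/-!
# Upper bound: the Fibonacci lattice rule
-/

open MeasureTheory UnitAddTorus Filter Topology Set
open scoped ENNReal

noncomputable section

namespace Pool.Agent.Helper59.MixInt

/-- dyadic size of an integer -/
def cl (z : ℤ) : ℕ := Nat.size z.natAbs

theorem abs_lt_cl (z : ℤ) : |z| < 2 ^ cl z := by
  have h := Nat.lt_size_self z.natAbs
  have : (z.natAbs : ℤ) < ((2 ^ Nat.size z.natAbs : ℕ) : ℤ) := by exact_mod_cast h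
  rw [Int.natCast_natAbs] at this
  unfold cl
  exact_mod_cast this

theorem four_pow_cl_le (z : ℤ) : (4 : ℝ) ^ cl z ≤ 4 * (1 + (z : ℝ) ^ 2) := by
  unfold cl
  rcases Nat.eq_zero_or_pos (Nat.size z.natAbs) with h | h
  · rw [h]
    nlinarith [sq_nonneg (z : ℝ)]
  · have h1 : 2 ^ (Nat.size z.natAbs - 1) ≤ z.natAbs := by
      rw [← Nat.lt_size]
      omega
    have h2 : ((2 : ℝ) ^ (Nat.size z.natAbs - 1)) ^ 2 ≤ (z : ℝ) ^ 2 := by
      have h3 : ((2 ^ (Nat.size z.natAbs - 1) : ℕ) : ℝ) ≤ (z.natAbs : ℝ) := by exact_mod_cast h1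
      have h4 : ((z.natAbs : ℕ) : ℝ) ^ 2 = (z : ℝ) ^ 2 := by
        have : ((z.natAbs : ℕ) : ℝ) = |(z : ℝ)| := by
          rw [Nat.cast_natAbs, Int.cast_abs]
        rw [this, sq_abs]
      rw [← h4]
      push_cast at h3
      exact pow_le_pow_left₀ (by positivity) h3 2
    have h5 : (4 : ℝ) ^ Nat.size z.natAbs = 4 * ((2 : ℝ) ^ (Nat.size z.natAbs - 1)) ^ 2 := by
      rw [← pow_mul, mul_comm _ 2, pow_mul]
      norm_num
      rw [← pow_succ']
      congr 1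
      omega
    rw [h5]
    nlinarith

/-- the weight -/
def wt (k : ℝ) (h : Fin 2 → ℤ) : ℝ := ∏ j, (1 + (h j : ℝ) ^ 2) ^ k

theorem wt_pos (k : ℝ) (h : Fin 2 → ℤ) : 0 < wt k h :=
  Finset.prod_pos fun j _ => by positivity

/-- ratio of the geometric series -/
def xx (k : ℝ) : ℝ := (2 : ℝ) ^ (-(2 * k - 1))

theorem xx_pos (k : ℝ) : 0 < xx k := by
  unfold xx
  positivity

theorem xx_lt_one {k : ℝ} (hk : 1 / 2 < k) : xx k < 1 :=
  Real.rpow_lt_one_of_one_lt_of_neg (by norm_num) (by linarith)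

theorem inv_wt_le {k : ℝ} (hk : 0 ≤ k) (h : Fin 2 → ℤ) :
    (wt k h)⁻¹ * 2 ^ (cl (h 0) + cl (h 1)) ≤ 16 ^ k * xx k ^ (cl (h 0) + cl (h 1)) := by
  set t := cl (h 0) + cl (h 1) with ht
  have h1 : (4 : ℝ) ^ t ≤ 16 * ((1 + (h 0 : ℝ) ^ 2) * (1 + (h 1 : ℝ) ^ 2)) := by
    rw [ht, pow_add]
    have a := four_pow_cl_le (h 0)
    have b := four_pow_cl_le (h 1)
    calc (4 : ℝ) ^ cl (h 0) * 4 ^ cl (h 1) ≤ (4 * (1 + (h 0 : ℝ) ^ 2)) *
          (4 * (1 + (h 1 : ℝ) ^ 2)) := mul_le_mul a b (by positivity) (by positivity)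
      _ = _ := by ring
  have h2 : ((4 : ℝ) ^ t) ^ k ≤ 16 ^ k * wt k h := by
    calc ((4 : ℝ) ^ t) ^ k ≤ (16 * ((1 + (h 0 : ℝ) ^ 2) * (1 + (h 1 : ℝ) ^ 2))) ^ k :=
          Real.rpow_le_rpow (by positivity) h1 hk
      _ = 16 ^ k * wt k h := by
          unfold wt
          rw [Fin.prod_univ_two, Real.mul_rpow (by norm_num) (by positivity),
            Real.mul_rpow (by positivity) (by positivity)]
  have h3 : (2 : ℝ) ^ t = xx k ^ t * ((4 : ℝ) ^ t) ^ k := by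
    unfold xx
    rw [Real.rpow_pow_comm (by norm_num)]
    have h4 : (4 : ℝ) ^ t = ((2 : ℝ) ^ t) ^ (2 : ℝ) := by
      rw [Real.rpow_two, ← pow_mul, mul_comm, pow_mul]
      norm_num
    rw [h4, ← Real.rpow_mul (by positivity), ← Real.rpow_add (by positivity)]
    have : -(2 * k - 1) + 2 * k = 1 := by ring
    rw [this, Real.rpow_one]
  have hw := wt_pos k h
  rw [h3]
  have hx := xx_pos k
  calc (wt k h)⁻¹ * (xx k ^ t * ((4 : ℝ) ^ t) ^ k)
      ≤ (wt k h)⁻¹ * (xx k ^ t * (16 ^ k * wt k h)) := by gcongr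
    _ = 16 ^ k * xx k ^ t := by
        field_simp

/-- finite arithmetico-geometric sums -/
theorem sum_arith_geom_le {x : ℝ} (hx0 : 0 < x) (hx1 : x < 1) (t₀ M : ℕ) :
    ∑ t ∈ Finset.Ico t₀ M, ((t : ℝ) + 1) * x ^ t ≤ (t₀ + 1) * x ^ t₀ / (1 - x) ^ 2 := by
  have h1x : 0 < 1 - x := by linarith
  set Φ : ℕ → ℝ := fun t => x ^ t * (((t : ℝ) + 1) / (1 - x) + x / (1 - x) ^ 2) with hΦ
  have hstep : ∀ t : ℕ, ((t : ℝ) + 1) * x ^ t = Φ t - Φ (t + 1) := by
    intro t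
    simp only [hΦ]
    push_cast
    rw [pow_succ]
    field_simp
    ring
  have hΦ0 : ∀ t, 0 ≤ Φ t := fun t => by
    simp only [hΦ]
    positivity
  have hsum : ∑ t ∈ Finset.Ico t₀ M, ((t : ℝ) + 1) * x ^ t ≤ Φ t₀ := by
    rcases le_total t₀ M with h | h
    · rw [Finset.sum_congr rfl fun t _ => hstep t, Finset.sum_Ico_eq_sum_range]
      have : ∑ i ∈ Finset.range (M - t₀), (Φ (t₀ + i) - Φ (t₀ + i + 1)) = Φ t₀ - Φ M := by
        have := Finset.sum_range_sub' (fun i => Φ (t₀ + i)) (M - t₀)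
        simp only [← add_assoc] at this
        rw [this, add_zero, Nat.add_sub_cancel' h]
      rw [this]
      linarith [hΦ0 M]
    · rw [Finset.Ico_eq_empty_of_le h]
      simpa using hΦ0 t₀
  refine hsum.trans ?_
  simp only [hΦ]
  have e : (t₀ + 1 : ℝ) * x ^ t₀ / (1 - x) ^ 2 - x ^ t₀ * (((t₀ : ℝ) + 1) / (1 - x) +
      x / (1 - x) ^ 2) = x ^ t₀ * (x * t₀) / (1 - x) ^ 2 := by
    field_simp
    ring
  have : 0 ≤ x ^ t₀ * (x * t₀) / (1 - x) ^ 2 := by positivity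
  linarith

/-- Dyadic summation. -/
theorem dyadic_sum {k : ℝ} (hk : 1 / 2 < k) (u : Finset (Fin 2 → ℤ)) {c : ℝ} (hc : 0 ≤ c)
    (t₀ : ℕ) (h0 : ∀ h ∈ u, t₀ ≤ cl (h 0) + cl (h 1))
    (hcard : ∀ a b : ℕ, ((u.filter fun h => (cl (h 0), cl (h 1)) = (a, b)).card : ℝ) ≤
      c * 2 ^ (a + b)) :
    ∑ h ∈ u, (wt k h)⁻¹ ≤ 16 ^ k * c * ((t₀ + 1) * xx k ^ t₀ / (1 - xx k) ^ 2) := by
  have hx0 := xx_pos k
  have hx1 := xx_lt_one hk
  -- a bound for all classes
  obtain ⟨M, hM⟩ : ∃ M : ℕ, ∀ h ∈ u, cl (h 0) + cl (h 1) < M := by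
    refine ⟨(u.sup fun h => cl (h 0) + cl (h 1)) + 1, fun h hh => ?_⟩
    have := Finset.le_sup (f := fun h : Fin 2 → ℤ => cl (h 0) + cl (h 1)) hh
    omega
  set T := (Finset.Ico t₀ M).sigma fun t => Finset.HasAntidiagonal.antidiagonal t with hT
  have hmaps : ∀ h ∈ u, (⟨cl (h 0) + cl (h 1), (cl (h 0), cl (h 1))⟩ : (_ : ℕ) × (ℕ × ℕ)) ∈ T := by
    intro h hh
    rw [hT, Finset.mem_sigma]
    refine ⟨Finset.mem_Ico.2 ⟨h0 h hh, hM h hh⟩, ?_⟩
    exact Finset.HasAntidiagonal.mem_antidiagonal.2 rfl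
  rw [← Finset.sum_fiberwise_of_maps_to hmaps]
  have hfib : ∀ τ ∈ T, ∑ h ∈ u with
      (⟨cl (h 0) + cl (h 1), (cl (h 0), cl (h 1))⟩ : (_ : ℕ) × (ℕ × ℕ)) = τ, (wt k h)⁻¹ ≤
      16 ^ k * c * xx k ^ τ.1 := by
    rintro ⟨t, a, b⟩ hτ
    rw [hT, Finset.mem_sigma] at hτ
    have hab : a + b = t := Finset.HasAntidiagonal.mem_antidiagonal.1 hτ.2
    have hsub : (u.filter fun h =>
        (⟨cl (h 0) + cl (h 1), (cl (h 0), cl (h 1))⟩ : (_ : ℕ) × (ℕ × ℕ)) = ⟨t, a, b⟩) ⊆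
        u.filter fun h => (cl (h 0), cl (h 1)) = (a, b) := by
      intro h hh
      rw [Finset.mem_filter] at hh ⊢
      refine ⟨hh.1, ?_⟩
      have := hh.2
      simp only [Sigma.mk.injEq, heq_eq_eq, Prod.mk.injEq] at this
      simp only [Prod.mk.injEq]
      exact this.2
    calc ∑ h ∈ u with
        (⟨cl (h 0) + cl (h 1), (cl (h 0), cl (h 1))⟩ : (_ : ℕ) × (ℕ × ℕ)) = ⟨t, a, b⟩, (wt k h)⁻¹
        ≤ ∑ h ∈ u with (cl (h 0), cl (h 1)) = (a, b), (wt k h)⁻¹ :=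
          Finset.sum_le_sum_of_subset_of_nonneg hsub fun h _ _ => (inv_pos.2 (wt_pos k h)).le
      _ ≤ ∑ h ∈ u with (cl (h 0), cl (h 1)) = (a, b), 16 ^ k * xx k ^ t / 2 ^ t := by
          refine Finset.sum_le_sum fun h hh => ?_
          rw [Finset.mem_filter] at hh
          have hh2 := hh.2
          simp only [Prod.mk.injEq] at hh2
          have := inv_wt_le (k := k) (by linarith) h
          rw [hh2.1, hh2.2, hab] at this
          rw [le_div_iff₀ (by positivity)]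
          exact this
      _ = ((u.filter fun h => (cl (h 0), cl (h 1)) = (a, b)).card : ℝ) *
          (16 ^ k * xx k ^ t / 2 ^ t) := by rw [Finset.sum_const, nsmul_eq_mul]
      _ ≤ (c * 2 ^ t) * (16 ^ k * xx k ^ t / 2 ^ t) := by
          apply mul_le_mul_of_nonneg_right _ (by positivity)
          have := hcard a b
          rwa [hab] at this
      _ = 16 ^ k * c * xx k ^ t := by
          field_simp
  refine (Finset.sum_le_sum hfib).trans ?_
  rw [← Finset.mul_sum]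
  apply mul_le_mul_of_nonneg_left _ (by positivity)
  rw [hT, Finset.sum_sigma]
  refine le_trans (le_of_eq ?_) (sum_arith_geom_le hx0 hx1 t₀ M)
  refine Finset.sum_congr rfl fun t _ => ?_
  simp only [Finset.sum_const, Finset.Nat.card_antidiagonal, nsmul_eq_mul]
  push_cast
  ring

/-- Summability of the inverse weights. -/
theorem sum_inv_wt_le {k : ℝ} (hk : 1 / 2 < k) (u : Finset (Fin 2 → ℤ)) :
    ∑ h ∈ u, (wt k h)⁻¹ ≤ 16 ^ k * 4 * (((0 : ℕ) + 1) * xx k ^ 0 / (1 - xx k) ^ 2) := by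
  refine dyadic_sum hk u (by norm_num) 0 (fun h _ => Nat.zero_le _) ?_
  intro a b
  have h1 : (u.filter fun h => (cl (h 0), cl (h 1)) = (a, b)).card ≤
      ((Finset.Ico (-(2 ^ a : ℤ)) (2 ^ a)) ×ˢ (Finset.Ico (-(2 ^ b : ℤ)) (2 ^ b))).card := by
    refine Finset.card_le_card_of_injOn (fun h => (h 0, h 1)) ?_ ?_
    · intro h hh
      rw [Finset.mem_coe, Finset.mem_filter] at hh
      have hh2 := hh.2
      simp only [Prod.mk.injEq] at hh2
      have e0 := abs_lt_cl (h 0)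
      have e1 := abs_lt_cl (h 1)
      rw [hh2.1, abs_lt] at e0
      rw [hh2.2, abs_lt] at e1
      rw [Finset.mem_coe, Finset.mem_product, Finset.mem_Ico, Finset.mem_Ico]
      exact ⟨⟨e0.1.le, e0.2⟩, ⟨e1.1.le, e1.2⟩⟩
    · intro h _ h' _ heq
      simp only [Prod.mk.injEq] at heq
      ext i
      fin_cases i
      · exact heq.1
      · exact heq.2
  have h2 : ((Finset.Ico (-(2 ^ a : ℤ)) (2 ^ a)) ×ˢ (Finset.Ico (-(2 ^ b : ℤ)) (2 ^ b))).card =
      4 * 2 ^ (a + b) := by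
    rw [Finset.card_product, Int.card_Ico, Int.card_Ico]
    have ea : (2 ^ a - -(2 ^ a : ℤ)).toNat = 2 * 2 ^ a := by
      have : (2 ^ a - -(2 ^ a : ℤ)) = ((2 * 2 ^ a : ℕ) : ℤ) := by push_cast; ring
      rw [this, Int.toNat_natCast]
    have eb : (2 ^ b - -(2 ^ b : ℤ)).toNat = 2 * 2 ^ b := by
      have : (2 ^ b - -(2 ^ b : ℤ)) = ((2 * 2 ^ b : ℕ) : ℤ) := by push_cast; ring
      rw [this, Int.toNat_natCast]
    rw [ea, eb, pow_add]
    ring
  rw [h2] at h1
  exact_mod_cast h1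

theorem one_le_max_abs (x : ℤ) : x = 0 ∨ 1 ≤ |x| := by
  rcases eq_or_ne x 0 with h | h
  · exact Or.inl h
  · exact Or.inr (Int.one_le_abs h)

/-- Non-zero elements of the dual lattice lie in large dyadic classes. -/
theorem dual_large {m : ℕ} {h : Fin 2 → ℤ} (hD : inD m h) (hne : h ≠ 0) :
    NN m < 6 * 2 ^ (cl (h 0) + cl (h 1)) := by
  have hN := NN_pos m
  have a0 := abs_lt_cl (h 0)
  have a1 := abs_lt_cl (h 1)
  have goal : (NN m : ℤ) < 6 * 2 ^ (cl (h 0) + cl (h 1)) := by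
    rw [pow_add]
    have p0 : (1 : ℤ) ≤ 2 ^ cl (h 0) := one_le_pow₀ (by norm_num)
    have p1 : (1 : ℤ) ≤ 2 ^ cl (h 1) := one_le_pow₀ (by norm_num)
    unfold inD at hD
    by_cases h0 : h 0 = 0
    · have h1 : h 1 ≠ 0 := by
        intro h1
        apply hne
        ext i
        fin_cases i
        · exact h0
        · exact h1
      rw [h0, zero_add] at hD
      have hdvd : (NN m : ℤ) ∣ h 1 := (coprime_ga m).symm.dvd_of_dvd_mul_left hD
      have hle : (NN m : ℤ) ≤ |h 1| := Int.le_of_dvd (abs_pos.2 h1) ((dvd_abs _ _).2 hdvd)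
      nlinarith
    · by_cases h1 : h 1 = 0
      · rw [h1, mul_zero, add_zero] at hD
        have hle : (NN m : ℤ) ≤ |h 0| := Int.le_of_dvd (abs_pos.2 h0) ((dvd_abs _ _).2 hD)
        nlinarith
      · have hsep := sep_dual hD h0 h1
        have : |h 0| * |h 1| < 2 ^ cl (h 0) * 2 ^ cl (h 1) :=
          mul_lt_mul'' a0 a1 (abs_nonneg _) (abs_nonneg _)
        linarith
  exact_mod_cast goal

/-- Sum of the inverse weights over the dual lattice. -/
theorem sum_dual_le {k : ℝ} (hk : 1 / 2 < k) (m t₀ : ℕ) (ht₀ : 6 * 2 ^ t₀ ≤ 2 * NN m ∨ t₀ = 0)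
    (u : Finset (Fin 2 → ℤ)) (hu : ∀ h ∈ u, inD m h ∧ h ≠ 0) :
    ∑ h ∈ u, (wt k h)⁻¹ ≤ 16 ^ k * (30 / NN m) * ((t₀ + 1) * xx k ^ t₀ / (1 - xx k) ^ 2) := by
  have hN := NN_pos m
  have hN' : (0 : ℝ) < NN m := by exact_mod_cast hN
  refine dyadic_sum hk u (by positivity) t₀ ?_ ?_
  · intro h hh
    rcases ht₀ with h1 | h1
    · have h2 := dual_large (hu h hh).1 (hu h hh).2
      by_contra hcon
      push Not at hcon
      have h3 : 2 ^ (cl (h 0) + cl (h 1) + 1) ≤ 2 ^ t₀ := Nat.pow_le_pow_right (by norm_num) hcon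
      rw [pow_succ] at h3
      omega
    · omega
  · intro a b
    set v := u.filter fun h => (cl (h 0), cl (h 1)) = (a, b) with hv
    rcases v.eq_empty_or_nonempty with hemp | ⟨h, hh⟩
    · rw [hemp]
      simp
      positivity
    · have hmem : ∀ h ∈ v, h ∈ u ∧ cl (h 0) = a ∧ cl (h 1) = b := by
        intro h hh
        rw [hv, Finset.mem_filter] at hh
        simpa [Prod.mk.injEq] using hh
      have hlarge : NN m < 6 * 2 ^ (a + b) := by
        obtain ⟨h1, h2, h3⟩ := hmem h hh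
        have := dual_large (hu h h1).1 (hu h h1).2
        rwa [h2, h3] at this
      set S : Finset (ℤ × ℤ) := v.image fun h => (h 0, h 1) with hS
      have hcardS : S.card = v.card := by
        rw [hS]
        apply Finset.card_image_of_injOn
        intro h _ h' _ heq
        simp only [Prod.mk.injEq] at heq
        ext i
        fin_cases i
        · exact heq.1
        · exact heq.2
      have hbox := card_dual_box_le m (-(2 ^ a : ℤ)) (-(2 ^ b : ℤ)) (2 * 2 ^ a) (2 * 2 ^ b)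
        (by positivity) (by positivity) S ?_
      · rw [hcardS] at hbox
        have h1 : NN m * v.card ≤ 30 * 2 ^ (a + b) := by
          have e : 6 * ((2 * 2 ^ a) * (2 * 2 ^ b)) = 24 * 2 ^ (a + b) := by
            rw [pow_add]
            ring
          rw [e] at hbox
          omega
        rw [div_mul_eq_mul_div, le_div_iff₀ hN']
        have h2 : (NN m : ℝ) * v.card ≤ 30 * 2 ^ (a + b) := by exact_mod_cast h1
        linarith
      · intro p hp
        rw [hS, Finset.mem_image] at hp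
        obtain ⟨h, hh, rfl⟩ := hp
        obtain ⟨h1, h2, h3⟩ := hmem h hh
        have e0 := abs_lt_cl (h 0)
        have e1 := abs_lt_cl (h 1)
        rw [h2, abs_lt] at e0
        rw [h3, abs_lt] at e1
        refine ⟨(hu h h1).1, e0.1.le, ?_, e1.1.le, ?_⟩
        · push_cast
          linarith [e0.2]
        · push_cast
          linarith [e1.2]

end Pool.Agent.Helper59.MixInt
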